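import Pool.Agent.helper74.WR.Ap

/-! WR-08: good approximations of the base group. -/

set_option autoImplicit false

open scoped Classical Pointwise

namespace Pool.Agent.helper74.WR

open SofE

noncomputable section

/-- Approximations with `π 1 = 1`. -/
theorem exists_norm {Γ : Type} [Group Γ] (h : ∃ (k : ℕ → ℕ) (π : ∀ n, Γ → Equiv.Perm (Fin (k n))), IsSofic k π) (F : Finset Γ) {ε : ℝ}
    (hε : 0 < ε) : ∃ (k : ℕ) (π : Γ → Equiv.Perm (Fin k)), Appr F ε π ∧ π 1 = 1 := by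
  obtain ⟨k, π, hS⟩ := h
  obtain ⟨n, hn⟩ := hS.appr (insert 1 F) (show (0 : ℝ) < ε / 2 by positivity)
  have hne := hn.ne
  have h1 : pr (fun v => π n 1 v ≠ v) ≤ ε / 2 := by
    refine le_trans (pr_mono fun v hv => ?_) (pr_le_iff.2 (hn.mul 1 (Finset.mem_insert_self _ _) 1 (Finset.mem_insert_self _ _)))
    intro hcon
    rw [mul_one] at hcon
    exact hv ((π n 1).injective hcon).symm
  have hF : ∀ s ∈ F, s ∈ insert 1 F := fun s hs => Finset.mem_insert_of_mem hs
  refine ⟨k n, Function.update (π n) 1 1, ⟨hne, ?_, ?_⟩, Function.update_self _ _ _⟩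
  · intro s hs t ht
    rw [← pr_le_iff]
    by_cases hs1 : s = 1
    · subst hs1
      have : pr (fun v => Function.update (π n) 1 1 (1 * t) v ≠ Function.update (π n) 1 1 1 (Function.update (π n) 1 1 t v)) ≤
          pr (fun _ : Fin (k n) => False) := by
        refine pr_mono fun v hv => hv ?_
        rw [one_mul, Function.update_self]
        rfl
      refine this.trans ?_
      unfold pr
      rw [cnt_false]
      simpa using hε.le
    by_cases ht1 : t = 1
    · subst ht1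
      have : pr (fun v => Function.update (π n) 1 1 (s * 1) v ≠ Function.update (π n) 1 1 s (Function.update (π n) 1 1 1 v)) ≤
          pr (fun _ : Fin (k n) => False) := by
        refine pr_mono fun v hv => hv ?_
        rw [mul_one, Function.update_self]
        rfl
      refine this.trans ?_
      unfold pr
      rw [cnt_false]
      simpa using hε.le
    rw [Function.update_of_ne hs1, Function.update_of_ne ht1]
    have h2 := pr_le_iff.2 (hn.mul s (hF s hs) t (hF t ht))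
    by_cases hst : s * t = 1
    · rw [hst, Function.update_self]
      rw [hst] at h2
      have h3 : pr (fun v => (1 : Equiv.Perm (Fin (k n))) v ≠ π n s (π n t v)) ≤
          pr (fun v => π n 1 v ≠ π n s (π n t v) ∨ π n 1 v ≠ v) := by
        refine pr_mono fun v hv => ?_
        by_contra hcon
        push Not at hcon
        exact hv (hcon.2.symm.trans hcon.1)
      refine h3.trans ((pr_or _ _).trans ?_)
      linarith
    · rw [Function.update_of_ne hst]
      linarith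
  · intro s hs hs1
    rw [Function.update_of_ne hs1, ← pr_le_iff]
    have h2 := pr_le_iff.2 (hn.free s (hF s hs) hs1)
    linarith

/-- Most points are good. -/
theorem gd_of_appr {L : Type} [Group L] (B : Finset L) {η : ℝ} (hη : 0 < η) : ∃ (F : Finset L) (ε : ℝ), 0 < ε ∧
    ∀ (V : Type) [Fintype V] (π : L → Equiv.Perm V), Appr F ε π → π 1 = 1 → (cnt (fun v => ¬ Gd B π v) : ℝ) ≤ η * Fintype.card V := by
  set Q : Finset L := insert 1 (B ∪ B⁻¹) with hQ
  have hQ1 : (1 : L) ∈ Q := Finset.mem_insert_self _ _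
  have hQB : ∀ s ∈ B, s ∈ Q := fun s hs => Finset.mem_insert_of_mem (Finset.mem_union_left _ hs)
  have hQB' : ∀ s ∈ B, s⁻¹ ∈ Q := fun s hs => Finset.mem_insert_of_mem (Finset.mem_union_right _ (Finset.inv_mem_inv hs))
  have hc : (0 : ℝ) < (Q.card : ℝ) ^ 2 := by
    have : 0 < Q.card := Finset.card_pos.2 ⟨1, hQ1⟩
    positivity
  refine ⟨Q * Q, η / (2 * (Q.card : ℝ) ^ 2), by positivity, ?_⟩
  intro V _ π hπ h1
  have := hπ.ne
  rw [← pr_le_iff]
  have hQQ : ∀ s ∈ Q, s ∈ Q * Q := fun s hs => by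
    have := Finset.mul_mem_mul hQ1 hs
    rwa [one_mul] at this
  have h2 : pr (fun v => ¬ Gd B π v) ≤ pr (fun v => (∃ s ∈ Q, ∃ t ∈ Q, π (s * t) v ≠ π s (π t v)) ∨ ∃ s ∈ Q * Q, s ≠ 1 ∧ π s v = v) := by
    refine pr_mono fun v hv => ?_
    by_contra hcon
    push Not at hcon
    obtain ⟨hm, hf⟩ := hcon
    refine hv ⟨by rw [h1]; rfl, fun s hs t ht => hm s (hQB s hs) t (hQB t ht), ?_⟩
    intro s hs t ht hst
    by_contra hne
    have hu : t⁻¹ * s ≠ 1 := fun h => hne (inv_mul_eq_one.1 h).symm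
    refine hf (t⁻¹ * s) (Finset.mul_mem_mul (hQB' t ht) (hQB s hs)) hu ?_
    rw [hm _ (hQB' t ht) _ (hQB s hs), hst, ← hm _ (hQB' t ht) _ (hQB t ht), inv_mul_cancel, h1]
    rfl
  refine h2.trans ((pr_or _ _).trans ?_)
  have h3 : pr (fun v => ∃ s ∈ Q, ∃ t ∈ Q, π (s * t) v ≠ π s (π t v)) ≤ η / 2 := by
    refine (pr_exists Q (fun s v => ∃ t ∈ Q, π (s * t) v ≠ π s (π t v))).trans ?_
    have h4 : ∀ s ∈ Q, pr (fun v => ∃ t ∈ Q, π (s * t) v ≠ π s (π t v)) ≤ Q.card * (η / (2 * (Q.card : ℝ) ^ 2)) := by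
      intro s hs
      refine (pr_exists Q (fun t v => π (s * t) v ≠ π s (π t v))).trans ?_
      rw [← nsmul_eq_mul]
      exact Finset.sum_le_card_nsmul _ _ _ fun t ht => pr_le_iff.2 (hπ.mul s (hQQ s hs) t (hQQ t ht))
    refine (Finset.sum_le_card_nsmul _ _ _ h4).trans (le_of_eq ?_)
    rw [nsmul_eq_mul]
    field_simp
  have h4 : pr (fun v => ∃ s ∈ Q * Q, s ≠ 1 ∧ π s v = v) ≤ η / 2 := by
    refine (pr_exists (Q * Q) (fun s v => s ≠ 1 ∧ π s v = v)).trans ?_
    have h5 : ∀ s ∈ Q * Q, pr (fun v => s ≠ 1 ∧ π s v = v) ≤ η / (2 * (Q.card : ℝ) ^ 2) := by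
      intro s hs
      by_cases hs1 : s = 1
      · have : pr (fun v : V => s ≠ 1 ∧ π s v = v) ≤ pr (fun _ : V => False) := pr_mono fun v hv => hv.1 hs1
        refine this.trans ?_
        unfold pr
        rw [cnt_false]
        simp only [Nat.cast_zero, zero_div]
        positivity
      · exact (pr_mono fun v hv => hv.2).trans (pr_le_iff.2 (hπ.free s hs hs1))
    refine (Finset.sum_le_card_nsmul _ _ _ h5).trans ?_
    rw [nsmul_eq_mul]
    have h6 : ((Q * Q).card : ℝ) ≤ (Q.card : ℝ) ^ 2 := by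
      have : (Q * Q).card ≤ Q.card ^ 2 := by
        rw [sq]
        exact Finset.card_mul_le
      exact_mod_cast this
    refine (mul_le_mul_of_nonneg_right h6 (by positivity)).trans (le_of_eq ?_)
    field_simp
  linarith

/-- Good approximations of a sofic group with expansion. -/
theorem exists_good {L : Type} [Group L] (hL : ∃ (k : ℕ → ℕ) (π : ∀ n, L → Equiv.Perm (Fin (k n))), IsSofic k π)
    {S0 S1 : Finset L} (h1 : (1 : L) ∈ S0) {C : ℕ} (hC : ∀ K : Finset L, C * K.card ≤ (S1 * K).card)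
    (hC' : 4 * (S0.card : ℝ) * (2 / 3 : ℝ) ^ C ≤ 1 / 2) {U B1 : Finset L} (hU : U ⊆ B1) {β : ℝ} (hβ : 0 < β) :
    ∃ (d : ℕ) (B : Finset L) (k : ℕ) (π : L → Equiv.Perm (Fin k)) (S : Fin k → Finset (Fin d ⊕ Fin d)), 0 < d ∧ 0 < k ∧ π 1 = 1 ∧ B1 ⊆ B ∧
      S1 * S0 ^ (d + 1) ⊆ B ∧ (∀ v, (S v).Nonempty) ∧ (∀ v, (S v).card ≤ 2) ∧
      (cnt (fun v => ¬ (Gd B π v ∧ Star S0 S1 d π S v ∧ Disj U π S v)) : ℝ) ≤ β * k := by
  -- choice of `d`
  obtain ⟨d, hd0, hd⟩ : ∃ d : ℕ, 0 < d ∧ (1 / 2 : ℝ) ^ d + (U.card : ℝ) ^ 2 * (2 / d) ≤ β / 2 := by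
    have t1 : Filter.Tendsto (fun d : ℕ => (1 / 2 : ℝ) ^ d + (U.card : ℝ) ^ 2 * (2 / d)) Filter.atTop (nhds (0 + (U.card : ℝ) ^ 2 * 0)) := by
      refine (tendsto_pow_atTop_nhds_zero_of_lt_one (by norm_num) (by norm_num)).add (Filter.Tendsto.const_mul _ ?_)
      exact tendsto_const_div_atTop_nhds_zero_nat 2
    rw [mul_zero, add_zero] at t1
    obtain ⟨d, hd1, hd2⟩ := ((t1.eventually_lt_const (show (0 : ℝ) < β / 2 by positivity)).and (Filter.eventually_gt_atTop 0)).exists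
    exact ⟨d, hd2, hd1.le⟩
  set B : Finset L := B1 ∪ S1 * S0 ^ (d + 1) with hB
  obtain ⟨F, ε, hε, hg⟩ := gd_of_appr B (show (0 : ℝ) < β / 2 by positivity)
  obtain ⟨k, π, hπ, hπ1⟩ := exists_norm hL F hε
  have hg' := hg (Fin k) π hπ hπ1
  have hB2 : S1 * S0 ^ (d + 1) ⊆ B := Finset.subset_union_right
  have hB1 : B1 ⊆ B := Finset.subset_union_left
  obtain ⟨S, hS1, hS2, hS3⟩ := exists_rand h1 hC hC' hd0 hB2 (hU.trans hB1) π
  have hne := hπ.ne
  refine ⟨d, B, k, π, S, hd0, Fin.pos_iff_nonempty.2 hne, hπ1, hB1, hB2, hS1, hS2, ?_⟩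
  have e1 : (cnt (fun v => ¬ (Gd B π v ∧ Star S0 S1 d π S v ∧ Disj U π S v)) : ℝ) ≤ (cnt (fun v => ¬ Gd B π v) : ℝ) +
      (cnt (fun v => Gd B π v ∧ ¬ (Star S0 S1 d π S v ∧ Disj U π S v)) : ℝ) := by
    exact_mod_cast cnt_le_add fun v hv => by
      by_cases h : Gd B π v
      · exact Or.inr ⟨h, fun h2 => hv ⟨h, h2⟩⟩
      · exact Or.inl h
  rw [Fintype.card_fin] at hg' hS3
  have e2 : ((1 / 2 : ℝ) ^ d + (U.card : ℝ) ^ 2 * (2 / d)) * k ≤ β / 2 * k := mul_le_mul_of_nonneg_right hd (Nat.cast_nonneg _)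
  linarith

end

end Pool.Agent.helper74.WR
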