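import Pool.Agent.helper74.WR.Rand
import Pool.Agent.helper41.SE.Seq

/-! WR-07: approximations of restricted wreath products. -/

set_option autoImplicit false

open scoped Classical Pointwise

namespace Pool.Agent.helper74.WR

open SofE

/-- The restricted wreath product `A ≀ L`. -/
def RW (A L : Type) [Group A] [Group L] : Subgroup (RegularWreathProduct A L) where
  carrier := {w | (Function.mulSupport w.left).Finite}
  one_mem' := by
    show (Function.mulSupport (1 : RegularWreathProduct A L).left).Finite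
    rw [RegularWreathProduct.one_left, Function.mulSupport_one]
    exact Set.finite_empty
  mul_mem' := by
    intro w w' hw hw'
    have hw1 : (Function.mulSupport w.left).Finite := hw
    have hw2 : (Function.mulSupport w'.left).Finite := hw'
    refine (hw1.union (hw2.image (fun x => w.right * x))).subset ?_
    intro x hx
    rw [Function.mem_mulSupport, RegularWreathProduct.mul_left, Pi.mul_apply] at hx
    by_cases h : w.left x = 1
    · rw [h, one_mul] at hx
      exact Or.inr ⟨w.right⁻¹ * x, hx, mul_inv_cancel_left _ _⟩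
    · exact Or.inl h
  inv_mem' := by
    intro w hw
    have hw1 : (Function.mulSupport w.left).Finite := hw
    refine (hw1.image (fun x => w.right⁻¹ * x)).subset ?_
    intro x hx
    rw [Function.mem_mulSupport] at hx
    change (w.left (w.right * x))⁻¹ ≠ 1 at hx
    refine ⟨w.right * x, fun h => hx (by rw [h, inv_one]), inv_mul_cancel_left _ _⟩

variable {A L Δ : Type} [Group A] [Group L] [Group Δ]

theorem RW_fin (w : RW A L) : (Function.mulSupport w.1.left).Finite := w.2

instance [Countable A] [Countable L] : Countable (RW A L) := by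
  let φ : RW A L → Finset (L × A) × L := fun w => ((RW_fin w).toFinset.image (fun x => (x, w.1.left x)), w.1.right)
  have hφ : Function.Injective φ := by
    intro w w' h
    have h1 : (RW_fin w).toFinset.image (fun x => (x, w.1.left x)) = (RW_fin w').toFinset.image (fun x => (x, w'.1.left x)) :=
      congrArg Prod.fst h
    have h2 : w.1.right = w'.1.right := congrArg Prod.snd h
    have key : ∀ (u u' : RW A L), (RW_fin u).toFinset.image (fun x => (x, u.1.left x)) =
        (RW_fin u').toFinset.image (fun x => (x, u'.1.left x)) → ∀ x, u.1.left x ≠ 1 → u.1.left x = u'.1.left x := by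
      intro u u' huu x hx
      have h3 : (x, u.1.left x) ∈ (RW_fin u).toFinset.image (fun x => (x, u.1.left x)) :=
        Finset.mem_image_of_mem _ ((Set.Finite.mem_toFinset _).2 hx)
      rw [huu, Finset.mem_image] at h3
      obtain ⟨y, -, hy⟩ := h3
      have h4 : y = x := congrArg Prod.fst hy
      have h5 : u'.1.left y = u.1.left x := congrArg Prod.snd hy
      rw [← h5, h4]
    apply Subtype.ext
    apply RegularWreathProduct.ext
    · funext x
      by_cases hx : w.1.left x = 1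
      · by_cases hx' : w'.1.left x = 1
        · rw [hx, hx']
        · exact (key w' w h1.symm x hx').symm
      · exact key w w' h1 x hx
    · exact h2
  exact hφ.countable

noncomputable section

/-! ### more on probabilities -/

theorem pr_le_snd {α β : Type} [Fintype α] [Fintype β] {P : α × β → Prop} {t : ℝ} (ht : 0 ≤ t)
    (h : ∀ b, pr (fun a => P (a, b)) ≤ t) : pr P ≤ t := by
  rcases isEmpty_or_nonempty α with h0 | h0
  · unfold pr
    rw [Fintype.card_prod, Fintype.card_eq_zero (α := α)]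
    simpa using ht
  rcases isEmpty_or_nonempty β with h0' | h0'
  · unfold pr
    rw [Fintype.card_prod, Fintype.card_eq_zero (α := β)]
    simpa using ht
  have h1 : (0 : ℝ) < Fintype.card α := by exact_mod_cast Fintype.card_pos
  have h2 : (0 : ℝ) < Fintype.card β := by exact_mod_cast Fintype.card_pos
  unfold pr
  rw [Fintype.card_prod]
  push_cast
  rw [div_le_iff₀ (by positivity), cnt_prod_right]
  push_cast
  have h3 : ∀ b ∈ (Finset.univ : Finset β), (cnt (fun a => P (a, b)) : ℝ) ≤ t * Fintype.card α := fun b _ => (div_le_iff₀ h1).1 (h b)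
  refine (Finset.sum_le_card_nsmul _ _ _ h3).trans (le_of_eq ?_)
  rw [nsmul_eq_mul, Finset.card_univ]
  ring

theorem pr_le_fst {α β : Type} [Fintype α] [Fintype β] {P : α × β → Prop} {t : ℝ} (ht : 0 ≤ t)
    (h : ∀ a, pr (fun b => P (a, b)) ≤ t) : pr P ≤ t := by
  rcases isEmpty_or_nonempty α with h0 | h0
  · unfold pr
    rw [Fintype.card_prod, Fintype.card_eq_zero (α := α)]
    simpa using ht
  rcases isEmpty_or_nonempty β with h0' | h0'
  · unfold pr
    rw [Fintype.card_prod, Fintype.card_eq_zero (α := β)]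
    simpa using ht
  have h1 : (0 : ℝ) < Fintype.card α := by exact_mod_cast Fintype.card_pos
  have h2 : (0 : ℝ) < Fintype.card β := by exact_mod_cast Fintype.card_pos
  unfold pr
  rw [Fintype.card_prod]
  push_cast
  rw [div_le_iff₀ (by positivity), cnt_prod_left]
  push_cast
  have h3 : ∀ a ∈ (Finset.univ : Finset α), (cnt (fun b => P (a, b)) : ℝ) ≤ t * Fintype.card β := fun a _ => (div_le_iff₀ h2).1 (h a)
  refine (Finset.sum_le_card_nsmul _ _ _ h3).trans (le_of_eq ?_)
  rw [nsmul_eq_mul, Finset.card_univ]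
  ring

theorem pr_le_iff {α : Type} [Fintype α] [Nonempty α] {P : α → Prop} {t : ℝ} : pr P ≤ t ↔ (cnt P : ℝ) ≤ t * Fintype.card α := by
  have h1 : (0 : ℝ) < Fintype.card α := by exact_mod_cast Fintype.card_pos
  unfold pr
  exact div_le_iff₀ h1

theorem pr_coord {D Y : Type} [Fintype D] [Fintype Y] [Nonempty Y] [inst : Fintype (D → Y)] (P : Y → Prop) (i : D) :
    pr (fun m : D → Y => P (m i)) = pr P := by
  have : inst = Pi.instFintype := Subsingleton.elim _ _
  subst this
  have h := pr_pi ({i} : Finset D) (fun (_ : D) (y : Y) => P y)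
  rw [Finset.prod_singleton] at h
  rw [← h]
  congr 1
  funext m
  simp

/-! ### the action -/

variable {V K Y D : Type}

/-- The element which acts on the coordinate `i`. -/
def gi (π : L → Equiv.Perm V) (S : V → Finset D) (f : L → A) (v : V) (i : D) : A :=
  if h : ∃ x, (f x ≠ 1 ∧ i ∈ S (π x⁻¹ v)) ∧ ∀ y, f y ≠ 1 → i ∈ S (π y⁻¹ v) → y = x then f h.choose else 1

theorem gi_of {π : L → Equiv.Perm V} {S : V → Finset D} {f : L → A} {v : V} {i : D} {x : L} (hx : f x ≠ 1) (hi : i ∈ S (π x⁻¹ v))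
    (hu : ∀ y, f y ≠ 1 → i ∈ S (π y⁻¹ v) → y = x) : gi π S f v i = f x := by
  have h : ∃ x, (f x ≠ 1 ∧ i ∈ S (π x⁻¹ v)) ∧ ∀ y, f y ≠ 1 → i ∈ S (π y⁻¹ v) → y = x := ⟨x, ⟨hx, hi⟩, hu⟩
  unfold gi
  rw [dif_pos h]
  have h2 := h.choose_spec
  rw [hu _ h2.1.1 h2.1.2]

theorem gi_one {π : L → Equiv.Perm V} {S : V → Finset D} {f : L → A} {v : V} {i : D} (h : ∀ x, f x ≠ 1 → i ∉ S (π x⁻¹ v)) :
    gi π S f v i = 1 := by
  unfold gi
  rw [dif_neg]
  rintro ⟨x, ⟨hx, hi⟩, -⟩
  exact h x hx hi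

/-- The action of the wreath product times `Δ`. -/
def act (σ : A → Equiv.Perm Y) (π : L → Equiv.Perm V) (S : V → Finset D) (ρ : Δ → Equiv.Perm K) (g : RW A L × Δ) :
    Equiv.Perm ((D → Y) × (V × K)) :=
  skew (Equiv.prodCongr (π g.1.1.right) (ρ g.2))
    (fun e => Equiv.piCongrRight (fun i => σ (gi π S g.1.1.left (π g.1.1.right e.1) i)))

theorem act_apply (σ : A → Equiv.Perm Y) (π : L → Equiv.Perm V) (S : V → Finset D) (ρ : Δ → Equiv.Perm K) (g : RW A L × Δ)
    (m : D → Y) (v : V) (k : K) : act σ π S ρ g (m, (v, k)) =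
      (fun i => σ (gi π S g.1.1.left (π g.1.1.right v) i) (m i), (π g.1.1.right v, ρ g.2 k)) := rfl

theorem gi_good {B U : Finset L} {π : L → Equiv.Perm V} {S : V → Finset D} {v : V} (hv : Gd B π v) (hd : Disj U π S v) {f : L → A} {lam : L}
    (hlam : lam ∈ B) (hf : ∀ x, f x ≠ 1 → x⁻¹ ∈ B ∧ x⁻¹ * lam ∈ U) : ∀ z ∈ U, ∀ i ∈ S (π z v), gi π S f (π lam v) i = f (lam * z⁻¹) := by
  intro z hz i hi
  have h1 : ∀ x, f x ≠ 1 → i ∈ S (π x⁻¹ (π lam v)) → x = lam * z⁻¹ := by
    intro x hx hix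
    obtain ⟨h2, h3⟩ := hf x hx
    rw [← hv.mul _ h2 _ hlam] at hix
    have h4 : x⁻¹ * lam = z := by
      by_contra hne
      exact Finset.disjoint_left.1 (hd _ h3 _ hz hne) hix hi
    rw [← h4]
    group
  by_cases hx : f (lam * z⁻¹) = 1
  · rw [hx]
    refine gi_one fun x hx' hix => hx' ?_
    rw [h1 x hx' hix, hx]
  · refine gi_of hx ?_ h1
    obtain ⟨h2, h3⟩ := hf _ hx
    rw [← hv.mul _ h2 _ hlam]
    have : (lam * z⁻¹)⁻¹ * lam = z := by group
    rw [this]
    exact hi

theorem gi_good' {B U : Finset L} {π : L → Equiv.Perm V} {S : V → Finset D} {v : V} (hv : Gd B π v) {f : L → A} {lam : L}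
    (hlam : lam ∈ B) (hf : ∀ x, f x ≠ 1 → x⁻¹ ∈ B ∧ x⁻¹ * lam ∈ U) {i : D} (hi : ∀ z ∈ U, i ∉ S (π z v)) : gi π S f (π lam v) i = 1 := by
  refine gi_one fun x hx hix => ?_
  obtain ⟨h2, h3⟩ := hf x hx
  rw [← hv.mul _ h2 _ hlam] at hix
  exact hi _ h3 hix

/-- Multiplicativity at a good point. -/
theorem act_mul_good {B U : Finset L} {σ : A → Equiv.Perm Y} {π : L → Equiv.Perm V} {S : V → Finset D} {ρ : Δ → Equiv.Perm K} (hσ1 : σ 1 = 1)
    {g g' : RW A L × Δ} {v : V} {k : K} {m : D → Y} (hv : Gd B π v) (hd : Disj U π S v)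
    (hl : g.1.1.right ∈ B) (hl' : g'.1.1.right ∈ B) (hll : g.1.1.right * g'.1.1.right ∈ B)
    (h1 : ∀ x, g.1.1.left x ≠ 1 → x⁻¹ ∈ B ∧ x⁻¹ * (g.1.1.right * g'.1.1.right) ∈ U)
    (h2 : ∀ x, g'.1.1.left x ≠ 1 → x⁻¹ ∈ B ∧ x⁻¹ * g'.1.1.right ∈ U)
    (h3 : ∀ x, (g * g').1.1.left x ≠ 1 → x⁻¹ ∈ B ∧ x⁻¹ * (g.1.1.right * g'.1.1.right) ∈ U)
    (hk : ρ (g.2 * g'.2) k = ρ g.2 (ρ g'.2 k))
    (hm : ∀ z ∈ U, ∀ i ∈ S (π z v), σ (g.1.1.left (g.1.1.right * g'.1.1.right * z⁻¹) * g'.1.1.left (g'.1.1.right * z⁻¹)) (m i) =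
      σ (g.1.1.left (g.1.1.right * g'.1.1.right * z⁻¹)) (σ (g'.1.1.left (g'.1.1.right * z⁻¹)) (m i))) :
    act σ π S ρ (g * g') (m, (v, k)) = act σ π S ρ g (act σ π S ρ g' (m, (v, k))) := by
  rw [act_apply, act_apply, act_apply]
  have e1 : (g * g').1.1.right = g.1.1.right * g'.1.1.right := rfl
  have e2 : π (g * g').1.1.right v = π g.1.1.right (π g'.1.1.right v) := by rw [e1, hv.mul _ hl _ hl']
  have e3 : ρ (g * g').2 k = ρ g.2 (ρ g'.2 k) := hk
  refine Prod.ext ?_ (Prod.ext e2 e3)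
  funext i
  show σ (gi π S (g * g').1.1.left (π (g * g').1.1.right v) i) (m i) =
    σ (gi π S g.1.1.left (π g.1.1.right (π g'.1.1.right v)) i) (σ (gi π S g'.1.1.left (π g'.1.1.right v) i) (m i))
  rw [← e2, e1]
  by_cases hi : ∃ z ∈ U, i ∈ S (π z v)
  · obtain ⟨z, hz, hiz⟩ := hi
    rw [gi_good hv hd hll h3 z hz i hiz, gi_good hv hd hll h1 z hz i hiz, gi_good hv hd hl' h2 z hz i hiz, ← hm z hz i hiz]
    have e4 : (g * g').1.1.left (g.1.1.right * g'.1.1.right * z⁻¹) =
        g.1.1.left (g.1.1.right * g'.1.1.right * z⁻¹) * g'.1.1.left (g'.1.1.right * z⁻¹) := by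
      show g.1.1.left (g.1.1.right * g'.1.1.right * z⁻¹) * g'.1.1.left (g.1.1.right⁻¹ * (g.1.1.right * g'.1.1.right * z⁻¹)) = _
      rw [mul_assoc, inv_mul_cancel_left]
    rw [e4]
  · push Not at hi
    rw [gi_good' hv hll h3 hi, gi_good' hv hll h1 hi, gi_good' hv hl' h2 hi, hσ1]
    rfl

/-! ### windows -/

/-- All the points of the supports of elements of `F`. -/
def sup (F : Finset (RW A L × Δ)) : Finset L := F.biUnion (fun g => (RW_fin g.1).toFinset)

theorem mem_sup {F : Finset (RW A L × Δ)} {g : RW A L × Δ} (hg : g ∈ F) {x : L} (hx : g.1.1.left x ≠ 1) : x ∈ sup F := by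
  unfold sup
  rw [Finset.mem_biUnion]
  exact ⟨g, hg, (Set.Finite.mem_toFinset _).2 hx⟩

/-- The projection to `L`. -/
def rts (F : Finset (RW A L × Δ)) : Finset L := F.image (fun g => g.1.1.right)

theorem mem_rts {F : Finset (RW A L × Δ)} {g : RW A L × Δ} (hg : g ∈ F) : g.1.1.right ∈ rts F := Finset.mem_image_of_mem _ hg

/-- The window for disjointness. -/
def winU (F : Finset (RW A L × Δ)) : Finset L := (sup F)⁻¹ * rts F

/-- The window. -/
def winB (F : Finset (RW A L × Δ)) : Finset L := insert 1 ((sup F)⁻¹ ∪ rts F ∪ winU F)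

theorem win_left {F : Finset (RW A L × Δ)} {g : RW A L × Δ} (hg : g ∈ F) {x : L} (hx : g.1.1.left x ≠ 1) {lam : L} (hl : lam ∈ rts F) :
    x⁻¹ ∈ winB F ∧ x⁻¹ * lam ∈ winU F := by
  have h1 : x⁻¹ ∈ (sup F)⁻¹ := Finset.inv_mem_inv (mem_sup hg hx)
  exact ⟨Finset.mem_insert_of_mem (Finset.mem_union_left _ (Finset.mem_union_left _ h1)), Finset.mul_mem_mul h1 hl⟩

theorem rts_winB {F : Finset (RW A L × Δ)} {lam : L} (hl : lam ∈ rts F) : lam ∈ winB F :=
  Finset.mem_insert_of_mem (Finset.mem_union_left _ (Finset.mem_union_right _ hl))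

theorem winU_sub (F : Finset (RW A L × Δ)) : winU F ⊆ winB F :=
  fun _ hx => Finset.mem_insert_of_mem (Finset.mem_union_right _ hx)

/-- The values. -/
def vals (F : Finset (RW A L × Δ)) : Finset A := insert 1 (F.biUnion (fun g => (sup F).image g.1.1.left))

theorem mem_vals {F : Finset (RW A L × Δ)} {g : RW A L × Δ} (hg : g ∈ F) (x : L) : g.1.1.left x ∈ vals F := by
  unfold vals
  by_cases hx : g.1.1.left x = 1
  · rw [hx]
    exact Finset.mem_insert_self _ _
  · refine Finset.mem_insert_of_mem (Finset.mem_biUnion.2 ⟨g, hg, Finset.mem_image_of_mem _ (mem_sup hg hx)⟩)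

/-- The actions are approximations. -/
theorem appr_act (F : Finset (RW A L × Δ)) {ε : ℝ} (hε : 0 < ε) [Fintype V] [Nonempty V] [Fintype K] [Nonempty K] [Fintype Y] [Nonempty Y]
    [Fintype D] [Fintype (D → Y)]
    (σ : A → Equiv.Perm Y) (π : L → Equiv.Perm V) (S : V → Finset D) (ρ : Δ → Equiv.Perm K) (hσ1 : σ 1 = 1)
    {B : Finset L} (hB : winB (F ∪ F * F) ⊆ B)
    (hσ : Appr (vals F) (ε / (8 * ((winU (F ∪ F * F)).card + 1))) σ) (hρ : Appr (F.image Prod.snd) (ε / 4) ρ)
    (hS1 : ∀ v, (S v).Nonempty) (hS2 : ∀ v, (S v).card ≤ 2)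
    (hbad : (cnt (fun v => ¬ (Gd B π v ∧ Disj (winU (F ∪ F * F)) π S v)) : ℝ) ≤ ε / 4 * Fintype.card V) :
    Appr F ε (act σ π S ρ) := by
  have : Nonempty (D → Y) := ⟨fun _ => Classical.arbitrary Y⟩
  set F' := F ∪ F * F with hF'
  set U := winU F' with hU
  set εA : ℝ := ε / (8 * (U.card + 1)) with hεA
  have hεA0 : 0 < εA := by positivity
  have hεA1 : (U.card : ℝ) * (2 * εA) ≤ ε / 4 := by
    have : (U.card : ℝ) * (2 * εA) = ε / 4 * (U.card / (U.card + 1)) := by
      rw [hεA]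
      field_simp
      ring
    rw [this]
    have h2 : (U.card : ℝ) / (U.card + 1) ≤ 1 := by
      rw [div_le_one (by positivity)]
      linarith
    nlinarith
  have hFF : ∀ g ∈ F, g ∈ F' := fun g hg => Finset.mem_union_left _ hg
  have hFF2 : ∀ g ∈ F, ∀ g' ∈ F, g * g' ∈ F' := fun g hg g' hg' => Finset.mem_union_right _ (Finset.mul_mem_mul hg hg')
  have hbadV : pr (fun v => ¬ (Gd B π v ∧ Disj U π S v)) ≤ ε / 4 := pr_le_iff.2 hbad
  refine ⟨inferInstance, ?_, ?_⟩
  · intro g hg g' hg'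
    rw [← pr_le_iff]
    have hgg := hFF2 g hg g' hg'
    have hll : g.1.1.right * g'.1.1.right ∈ rts F' := mem_rts hgg
    have hl : g.1.1.right ∈ rts F' := mem_rts (hFF g hg)
    have hl' : g'.1.1.right ∈ rts F' := mem_rts (hFF g' hg')
    have h1 : pr (fun q : (D → Y) × (V × K) => act σ π S ρ (g * g') q ≠ act σ π S ρ g (act σ π S ρ g' q)) ≤
        pr (fun q : (D → Y) × (V × K) => (¬ (Gd B π q.2.1 ∧ Disj U π S q.2.1) ∨ ρ (g.2 * g'.2) q.2.2 ≠ ρ g.2 (ρ g'.2 q.2.2)) ∨
          ∃ z ∈ U, ∃ i ∈ S (π z q.2.1), σ (g.1.1.left (g.1.1.right * g'.1.1.right * z⁻¹) * g'.1.1.left (g'.1.1.right * z⁻¹)) (q.1 i) ≠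
            σ (g.1.1.left (g.1.1.right * g'.1.1.right * z⁻¹)) (σ (g'.1.1.left (g'.1.1.right * z⁻¹)) (q.1 i))) := by
      refine pr_mono fun q hq => ?_
      obtain ⟨m, v, k⟩ := q
      by_contra hcon
      push Not at hcon
      obtain ⟨⟨⟨hv, hd⟩, hk⟩, hm⟩ := hcon
      refine hq (act_mul_good hσ1 hv hd (hB (rts_winB hl)) (hB (rts_winB hl')) (hB (rts_winB hll)) ?_ ?_ ?_ hk hm)
      · intro x hx
        obtain ⟨h2, h3⟩ := win_left (hFF g hg) hx hll
        exact ⟨hB h2, h3⟩
      · intro x hx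
        obtain ⟨h2, h3⟩ := win_left (hFF g' hg') hx hl'
        exact ⟨hB h2, h3⟩
      · intro x hx
        obtain ⟨h2, h3⟩ := win_left hgg hx hll
        exact ⟨hB h2, h3⟩
    refine h1.trans ((pr_or _ _).trans ((add_le_add_left (pr_or _ _) _).trans ?_))
    have h2 : pr (fun q : (D → Y) × (V × K) => ¬ (Gd B π q.2.1 ∧ Disj U π S q.2.1)) ≤ ε / 4 :=
      pr_le_fst (by positivity) fun m => pr_le_snd (by positivity) fun k => hbadV
    have h3 : pr (fun q : (D → Y) × (V × K) => ρ (g.2 * g'.2) q.2.2 ≠ ρ g.2 (ρ g'.2 q.2.2)) ≤ ε / 4 :=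
      pr_le_fst (by positivity) fun m => pr_le_fst (by positivity) fun v =>
        pr_le_iff.2 (hρ.mul _ (Finset.mem_image_of_mem _ hg) _ (Finset.mem_image_of_mem _ hg'))
    have h4 : pr (fun q : (D → Y) × (V × K) => ∃ z ∈ U, ∃ i ∈ S (π z q.2.1),
        σ (g.1.1.left (g.1.1.right * g'.1.1.right * z⁻¹) * g'.1.1.left (g'.1.1.right * z⁻¹)) (q.1 i) ≠
            σ (g.1.1.left (g.1.1.right * g'.1.1.right * z⁻¹)) (σ (g'.1.1.left (g'.1.1.right * z⁻¹)) (q.1 i))) ≤ ε / 4 := by
      refine pr_le_snd (by positivity) fun e => le_trans ?_ hεA1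
      refine (pr_exists U (fun z (m : D → Y) => ∃ i ∈ S (π z e.1),
        σ (g.1.1.left (g.1.1.right * g'.1.1.right * z⁻¹) * g'.1.1.left (g'.1.1.right * z⁻¹)) (m i) ≠
            σ (g.1.1.left (g.1.1.right * g'.1.1.right * z⁻¹)) (σ (g'.1.1.left (g'.1.1.right * z⁻¹)) (m i)))).trans ?_
      rw [← nsmul_eq_mul]
      refine Finset.sum_le_card_nsmul _ _ _ fun z _ => ?_
      refine (pr_exists (S (π z e.1)) (fun i (m : D → Y) =>
        σ (g.1.1.left (g.1.1.right * g'.1.1.right * z⁻¹) * g'.1.1.left (g'.1.1.right * z⁻¹)) (m i) ≠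
            σ (g.1.1.left (g.1.1.right * g'.1.1.right * z⁻¹)) (σ (g'.1.1.left (g'.1.1.right * z⁻¹)) (m i)))).trans ?_
      have h5 : ∀ i ∈ S (π z e.1), pr (fun m : D → Y =>
        σ (g.1.1.left (g.1.1.right * g'.1.1.right * z⁻¹) * g'.1.1.left (g'.1.1.right * z⁻¹)) (m i) ≠
            σ (g.1.1.left (g.1.1.right * g'.1.1.right * z⁻¹)) (σ (g'.1.1.left (g'.1.1.right * z⁻¹)) (m i))) ≤ εA := by
        intro i _
        rw [pr_coord (fun y => σ (g.1.1.left (g.1.1.right * g'.1.1.right * z⁻¹) * g'.1.1.left (g'.1.1.right * z⁻¹)) y ≠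
            σ (g.1.1.left (g.1.1.right * g'.1.1.right * z⁻¹)) (σ (g'.1.1.left (g'.1.1.right * z⁻¹)) y)) i]
        exact pr_le_iff.2 (hσ.mul _ (mem_vals hg _) _ (mem_vals hg' _))
      refine (Finset.sum_le_card_nsmul _ _ _ h5).trans ?_
      rw [nsmul_eq_mul]
      refine mul_le_mul_of_nonneg_right ?_ hεA0.le
      exact_mod_cast hS2 _
    linarith
  · intro g hg hg1
    rw [← pr_le_iff]
    by_cases hδ : g.2 = 1
    · have hl : g.1.1.right ∈ rts F' := mem_rts (hFF g hg)
      have h0 : pr (fun q : (D → Y) × (V × K) => ¬ (Gd B π q.2.1 ∧ Disj U π S q.2.1)) ≤ ε / 4 :=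
        pr_le_fst (by positivity) fun m => pr_le_snd (by positivity) fun k => hbadV
      by_cases hlam : g.1.1.right = 1
      · obtain ⟨x, hx⟩ : ∃ x, g.1.1.left x ≠ 1 := by
          by_contra hcon
          push Not at hcon
          apply hg1
          refine Prod.ext (Subtype.ext (RegularWreathProduct.ext (funext hcon) hlam)) hδ
        obtain ⟨hxB, hxU⟩ := win_left (hFF g hg) hx hl
        rw [hlam, mul_one] at hxU
        have h1 : pr (fun q : (D → Y) × (V × K) => act σ π S ρ g q = q) ≤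
            pr (fun q : (D → Y) × (V × K) => ¬ (Gd B π q.2.1 ∧ Disj U π S q.2.1) ∨
              σ (g.1.1.left x) (q.1 (hS1 (π x⁻¹ q.2.1)).choose) = q.1 (hS1 (π x⁻¹ q.2.1)).choose) := by
          refine pr_mono fun q hq => ?_
          obtain ⟨m, v, k⟩ := q
          by_contra hcon
          push Not at hcon
          obtain ⟨⟨hv, hd⟩, hm⟩ := hcon
          apply hm
          show σ (g.1.1.left x) (m (hS1 (π x⁻¹ v)).choose) = m (hS1 (π x⁻¹ v)).choose
          set i := (hS1 (π x⁻¹ v)).choose with hi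
          have hiS : i ∈ S (π x⁻¹ v) := (hS1 (π x⁻¹ v)).choose_spec
          rw [act_apply] at hq
          have h2 := congrFun (congrArg Prod.fst hq) i
          have h3 : gi π S g.1.1.left (π g.1.1.right v) i = g.1.1.left x := by
            rw [gi_good hv hd (hB (rts_winB hl)) (fun y hy => by
              obtain ⟨h4, h5⟩ := win_left (hFF g hg) hy hl
              exact ⟨hB h4, h5⟩) x⁻¹ hxU i hiS, hlam, one_mul, inv_inv]
          have h4 : σ (gi π S g.1.1.left (π g.1.1.right v) i) (m i) = m i := h2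
          rwa [h3] at h4
        refine h1.trans ((pr_or _ _).trans ?_)
        have h2 : pr (fun q : (D → Y) × (V × K) =>
            σ (g.1.1.left x) (q.1 (hS1 (π x⁻¹ q.2.1)).choose) = q.1 (hS1 (π x⁻¹ q.2.1)).choose) ≤ ε / 8 := by
          refine pr_le_snd (by positivity) fun e => ?_
          have h3 := pr_coord (D := D) (fun y => σ (g.1.1.left x) y = y) (hS1 (π x⁻¹ e.1)).choose
          refine le_trans (le_of_eq h3) ?_
          refine (pr_le_iff.2 (hσ.free _ (mem_vals hg _) hx)).trans ?_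
          rw [hεA]
          have : (8 : ℝ) ≤ 8 * (U.card + 1) := by
            have : (0 : ℝ) ≤ U.card := Nat.cast_nonneg _
            linarith
          exact div_le_div_of_nonneg_left hε.le (by norm_num) this
        linarith
      · have h1 : pr (fun q : (D → Y) × (V × K) => act σ π S ρ g q = q) ≤
            pr (fun q : (D → Y) × (V × K) => ¬ (Gd B π q.2.1 ∧ Disj U π S q.2.1)) := by
          refine pr_mono fun q hq hcon => hlam ?_
          obtain ⟨m, v, k⟩ := q
          rw [act_apply] at hq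
          have h2 : π g.1.1.right v = v := congrArg (fun q => q.2.1) hq
          refine hcon.1.inj _ (hB (rts_winB hl)) 1 (hB (Finset.mem_insert_self _ _)) ?_
          rw [hcon.1.one]
          exact h2
        linarith
    · have h1 : pr (fun q : (D → Y) × (V × K) => act σ π S ρ g q = q) ≤ pr (fun q : (D → Y) × (V × K) => ρ g.2 q.2.2 = q.2.2) := by
        refine pr_mono fun q hq => ?_
        obtain ⟨m, v, k⟩ := q
        rw [act_apply] at hq
        exact congrArg (fun q => q.2.2) hq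
      have h2 : pr (fun q : (D → Y) × (V × K) => ρ g.2 q.2.2 = q.2.2) ≤ ε / 4 :=
        pr_le_fst (by positivity) fun m => pr_le_fst (by positivity) fun v =>
          pr_le_iff.2 (hρ.free _ (Finset.mem_image_of_mem _ hg) hδ)
      linarith

end

end Pool.Agent.helper74.WR
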