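import Mathlib

/-! WR-02: the discrete coarea inequality. -/

set_option autoImplicit false

open scoped Classical

namespace Pool.Agent.helper74.WR

/-- If all level sets have a large boundary, so does the function. -/
theorem coarea {V : Type} [Fintype V] {ι : Type} (S : Finset ι) (π : ι → V → V) (C : V → Prop) (A : ℝ) (hA : 0 ≤ A)
    (hE : ∀ E : Finset V, E.Nonempty → (E.card : ℝ) ≤
      A * (∑ s ∈ S, ((E.filter (fun v => π s v ∉ E)).card : ℝ) + ((E.filter (fun v => ¬ C v)).card : ℝ)))
    (n : ℕ) : ∀ (p : V → ℝ), (∀ v, 0 ≤ p v) → (Finset.univ.filter (fun v => p v ≠ 0)).card ≤ n →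
    ∑ v, p v ≤ A * (∑ s ∈ S, ∑ v, max (p v - p (π s v)) 0 + ∑ v, if C v then 0 else p v) := by
  induction n with
  | zero =>
    intro p hp hn
    have h1 : ∀ v, p v = 0 := by
      intro v
      by_contra h
      have h2 : v ∈ Finset.univ.filter (fun v => p v ≠ 0) := Finset.mem_filter.2 ⟨Finset.mem_univ _, h⟩
      have h3 := Finset.card_pos.2 ⟨v, h2⟩
      omega
    rw [Finset.sum_eq_zero fun v _ => h1 v]
    refine mul_nonneg hA (add_nonneg ?_ ?_)
    · exact Finset.sum_nonneg fun s _ => Finset.sum_nonneg fun v _ => le_max_right _ _
    · refine Finset.sum_nonneg fun v _ => ?_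
      split_ifs
      · exact le_rfl
      · exact hp v
  | succ n ih =>
    intro p hp hn
    set E := Finset.univ.filter (fun v => p v ≠ 0) with hEdef
    have hmem : ∀ v, v ∈ E ↔ p v ≠ 0 := fun v => by rw [hEdef, Finset.mem_filter]; simp
    rcases Finset.eq_empty_or_nonempty E with h0 | hne
    · refine ih p hp ?_
      rw [← hEdef, h0]
      simp
    obtain ⟨v0, hv0, hmin⟩ := Finset.exists_min_image E p hne
    set lam := p v0 with hlam
    have hlam0 : 0 < lam := lt_of_le_of_ne (hp v0) (Ne.symm ((hmem v0).1 hv0))
    set p' : V → ℝ := fun v => if v ∈ E then p v - lam else 0 with hp'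
    have hp'0 : ∀ v, 0 ≤ p' v := by
      intro v
      rw [hp']
      dsimp only
      split_ifs with h
      · linarith [hmin v h]
      · exact le_rfl
    have hcard : (Finset.univ.filter (fun v => p' v ≠ 0)).card ≤ n := by
      have h1 : Finset.univ.filter (fun v => p' v ≠ 0) ⊆ E.erase v0 := by
        intro v hv
        rw [Finset.mem_filter] at hv
        rw [Finset.mem_erase]
        refine ⟨?_, ?_⟩
        · rintro rfl
          apply hv.2
          rw [hp']
          simp [hlam]
        · by_contra h
          apply hv.2
          rw [hp']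
          simp [h]
      have h2 := Finset.card_le_card h1
      rw [Finset.card_erase_of_mem hv0] at h2
      omega
    have h1 := ih p' hp'0 hcard
    have h2 := hE E hne
    have e0 : ∀ v, v ∉ E → p v = 0 := fun v hv => by
      by_contra h
      exact hv ((hmem v).2 h)
    have e1 : ∑ v, p v = lam * E.card + ∑ v, p' v := by
      have : ∀ v, p v = lam * (if v ∈ E then 1 else 0) + p' v := by
        intro v
        rw [hp']
        by_cases h : v ∈ E
        · simp [h]
        · simp [h, e0 v h]
      rw [Finset.sum_congr rfl fun v _ => this v, Finset.sum_add_distrib, ← Finset.mul_sum]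
      simp
    have e2 : ∀ s, ∑ v, max (p v - p (π s v)) 0 = lam * ((E.filter (fun v => π s v ∉ E)).card : ℝ) +
        ∑ v, max (p' v - p' (π s v)) 0 := by
      intro s
      have : ∀ v, max (p v - p (π s v)) 0 = lam * (if v ∈ E ∧ π s v ∉ E then 1 else 0) + max (p' v - p' (π s v)) 0 := by
        intro v
        rw [hp']
        by_cases h : v ∈ E
        · by_cases h' : π s v ∈ E
          · simp [h, h']
          · have hpv : lam ≤ p v := hmin v h
            simp only [h, h', e0 _ h', not_false_eq_true, and_self, if_true, if_false, mul_one, sub_zero]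
            rw [max_eq_left (hp v), max_eq_left (by linarith)]
            ring
        · by_cases h' : π s v ∈ E
          · have hpv : lam ≤ p (π s v) := hmin _ h'
            simp only [h, h', e0 _ h, false_and, if_true, if_false, mul_zero, zero_sub, zero_add]
            rw [max_eq_right (by linarith), max_eq_right (by linarith)]
          · simp [h, h', e0 _ h, e0 _ h']
      rw [Finset.sum_congr rfl fun v _ => this v, Finset.sum_add_distrib, ← Finset.mul_sum]
      congr 2
      rw [Finset.sum_boole]
      congr 2
      ext v
      simp
    have e3 : (∑ v, if C v then 0 else p v) = lam * ((E.filter (fun v => ¬ C v)).card : ℝ) + ∑ v, if C v then 0 else p' v := by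
      have : ∀ v, (if C v then 0 else p v) = lam * (if v ∈ E ∧ ¬ C v then 1 else 0) + if C v then 0 else p' v := by
        intro v
        rw [hp']
        by_cases h : v ∈ E
        · by_cases h' : C v
          · simp [h, h']
          · simp [h, h']
        · by_cases h' : C v
          · simp [h, h']
          · simp [h, h', e0 v h]
      rw [Finset.sum_congr rfl fun v _ => this v, Finset.sum_add_distrib, ← Finset.mul_sum]
      congr 2
      rw [Finset.sum_boole]
      congr 2
      ext v
      simp
    rw [e1, Finset.sum_congr rfl fun s _ => e2 s, e3, Finset.sum_add_distrib, ← Finset.mul_sum]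
    have h3 := mul_le_mul_of_nonneg_left h2 hlam0.le
    nlinarith

end Pool.Agent.helper74.WR
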