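import Pool.Agent.helper41.SE.Upper
import Pool.Agent.helper41.SE.Lower
import Pool.Agent.helper41.SE.Seq

/-! WR-11: the subshifts with types in `ZMod q`. -/

set_option autoImplicit false

open Filter Topology

noncomputable section

namespace SofQ

open SofE

/-- `t` symbols of type `none`, `q * r` symbols of type `some z` -/
abbrev Al (q t r : ℕ) : Type := Fin t ⊕ (ZMod q × Fin r)

/-- type of a symbol -/
def tt {q t r : ℕ} : Al q t r → Option (ZMod q)
  | .inl _ => none
  | .inr a => some a.1

/-- shift of types -/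
def sh {q : ℕ} (z : ZMod q) (o : Option (ZMod q)) : Option (ZMod q) := o.map (fun w => w + z)

section
variable {Γ : Type*} [Group Γ] {q : ℕ}

/-- the subshift: on the coset `g N` the type is constantly `none` or changes according to `p` -/
@[ext]
structure XX (t r : ℕ) (N : Subgroup Γ) (p : Γ → ZMod q) where
  val : Γ → Al q t r
  prop : ∀ g, ∀ n ∈ N, tt (val (g * n)) = sh (p n) (tt (val g))

variable {t r : ℕ}

instance (N : Subgroup Γ) (p : Γ → ZMod q) : MulAction Γ (XX t r N p) where
  smul s x := ⟨fun g => x.val (s⁻¹ * g), fun g n hn => by rw [← mul_assoc]; exact x.prop (s⁻¹ * g) n hn⟩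
  one_smul x := XX.ext (funext fun g => by show x.val (1⁻¹ * g) = x.val g; rw [inv_one, one_mul])
  mul_smul s u x := XX.ext (funext fun g => by
    show x.val ((s * u)⁻¹ * g) = x.val (u⁻¹ * (s⁻¹ * g))
    rw [mul_inv_rev, mul_assoc])

theorem XX_smul (N : Subgroup Γ) (p : Γ → ZMod q) (s : Γ) (x : XX t r N p) (g : Γ) : (s • x).val g = x.val (s⁻¹ * g) := rfl

/-- the facts on the metric which are used -/
structure MOK (t r : ℕ) (N : Subgroup Γ) (p : Γ → ZMod q) [MetricSpace (XX t r N p)] : Prop where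
  comp : CompactSpace (XX t r N p)
  cont : ∀ s : Γ, Continuous (fun x : XX t r N p => s • x)
  near : ∀ ε : ℝ, 0 < ε → ∃ W : Finset Γ, ∀ x y : XX t r N p, (∀ g ∈ W, x.val g = y.val g) → dist x y < ε
  sep : ∀ g : Γ, ∃ ε : ℝ, 0 < ε ∧ ∀ x y : XX t r N p, x.val g ≠ y.val g → ε ≤ dist x y
  le1 : ∀ x y : XX t r N p, dist x y ≤ 1

end

/-- the type `c` satisfies the constraint for the permutation `A` and the shift `z` except at `δ |V|` points -/
def near {q : ℕ} (δ : ℝ) {V : Type} [Fintype V] (A : Equiv.Perm V) (z : ZMod q) (c : V → Option (ZMod q)) : Prop :=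
  (cnt (fun v => c (A v) ≠ sh z (c v)) : ℝ) ≤ δ * Fintype.card V

end SofQ
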