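import Pool.Agent.helper41.SE.Cnt

/-! WR-01: expansion in groups without the Følner condition. -/

set_option autoImplicit false

open scoped Classical Pointwise

namespace Pool.Agent.helper74.WR

open SofE

variable {L : Type} [Group L]

/-- `S0` is symmetric, contains `1` and expands finite sets. -/
structure Expander (S0 : Finset L) (h0 : ℝ) : Prop where
  pos : 0 < h0
  one : 1 ∈ S0
  inv : ∀ s ∈ S0, s⁻¹ ∈ S0
  exp : ∀ K : Finset L, h0 * K.card ≤ ((S0 * K) \ K).card

theorem exists_exp (h : ¬ Folner L) : ∃ (S0 : Finset L) (h0 : ℝ), Expander S0 h0 := by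
  unfold Folner at h
  push Not at h
  obtain ⟨F, ε, hε, hF⟩ := h
  refine ⟨insert 1 (F ∪ F.image (fun s => s⁻¹)), ε / 2, by positivity, Finset.mem_insert_self _ _, ?_, ?_⟩
  · intro s hs
    rw [Finset.mem_insert, Finset.mem_union, Finset.mem_image] at hs ⊢
    rcases hs with rfl | hs | ⟨t, ht, rfl⟩
    · left
      exact inv_one
    · right; right
      exact ⟨s, hs, rfl⟩
    · right; left
      rw [inv_inv]
      exact ht
  · intro K
    rcases Finset.eq_empty_or_nonempty K with rfl | hK
    · simp
    obtain ⟨s, hs, h1⟩ := hF K hK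
    have hcard : (K.image (fun a => s * a)).card = K.card :=
      Finset.card_image_of_injective _ (mul_right_injective s)
    have h2 : ((K.image (fun a => s * a)) \ K).card = (K \ (K.image (fun a => s * a))).card := by
      have e1 := Finset.card_sdiff_add_card_inter (K.image (fun a => s * a)) K
      have e2 := Finset.card_sdiff_add_card_inter K (K.image (fun a => s * a))
      rw [Finset.inter_comm] at e2
      omega
    have h3 : (symmDiff (K.image (fun a => s * a)) K).card ≤ 2 * ((K.image (fun a => s * a)) \ K).card := by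
      have e1 : symmDiff (K.image (fun a => s * a)) K ⊆ ((K.image (fun a => s * a)) \ K) ∪ (K \ (K.image (fun a => s * a))) := by
        intro x hx
        rw [Finset.mem_symmDiff] at hx
        rw [Finset.mem_union, Finset.mem_sdiff, Finset.mem_sdiff]
        exact hx
      have e2 := (Finset.card_le_card e1).trans (Finset.card_union_le _ _)
      omega
    have h4 : ((K.image (fun a => s * a)) \ K) ⊆ (insert 1 (F ∪ F.image (fun s => s⁻¹)) * K) \ K := by
      refine Finset.sdiff_subset_sdiff ?_ le_rfl
      intro x hx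
      obtain ⟨a, ha, rfl⟩ := Finset.mem_image.1 hx
      exact Finset.mul_mem_mul (Finset.mem_insert_of_mem (Finset.mem_union_left _ hs)) ha
    have h5 := Finset.card_le_card h4
    have h6 : ((symmDiff (K.image (fun a => s * a)) K).card : ℝ) ≤ 2 * ((insert 1 (F ∪ F.image (fun s => s⁻¹)) * K) \ K).card := by
      exact_mod_cast h3.trans (Nat.mul_le_mul_left 2 h5)
    linarith

theorem Expander.grow {S0 : Finset L} {h0 : ℝ} (h : Expander S0 h0) (n : ℕ) (K : Finset L) :
    (1 + h0) ^ n * K.card ≤ ((S0 ^ n) * K).card := by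
  induction n with
  | zero => simp
  | succ n ih =>
    have h1 := h.exp ((S0 ^ n) * K)
    have h2 : (S0 ^ n) * K ⊆ S0 * ((S0 ^ n) * K) := by
      intro x hx
      have := Finset.mul_mem_mul h.one hx
      rwa [one_mul] at this
    have h3 := Finset.card_sdiff_add_card_eq_card h2
    have h4 : ((S0 * ((S0 ^ n) * K)).card : ℝ) = ((S0 * ((S0 ^ n) * K)) \ ((S0 ^ n) * K)).card + ((S0 ^ n) * K).card := by
      exact_mod_cast h3.symm
    rw [pow_succ' S0, mul_assoc, h4, pow_succ]
    have h5 : 0 ≤ h0 := h.pos.le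
    nlinarith

/-- The data: `S0` expands by `h0`, `S1 ⊇ S0` expands by a large factor. -/
theorem exists_S {S0 : Finset L} {h0 : ℝ} (h : Expander S0 h0) (C : ℝ) :
    ∃ S1 : Finset L, S0 ⊆ S1 ∧ ∀ K : Finset L, C * K.card ≤ (S1 * K).card := by
  obtain ⟨n, hn⟩ := pow_unbounded_of_one_lt C (show (1 : ℝ) < 1 + h0 by linarith [h.pos])
  refine ⟨S0 ^ (n + 1), ?_, ?_⟩
  · intro x hx
    have h1 : ∀ m : ℕ, (1 : L) ∈ S0 ^ m := fun m => Finset.one_mem_pow h.one
    rw [pow_succ']
    have := Finset.mul_mem_mul hx (h1 n)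
    rwa [mul_one] at this
  · intro K
    refine le_trans ?_ (h.grow (n + 1) K)
    refine mul_le_mul_of_nonneg_right ?_ (Nat.cast_nonneg _)
    have h0 : (1 + h0) ^ n ≤ (1 + h0) ^ (n + 1) := pow_le_pow_right₀ (by linarith [h.pos]) (Nat.le_succ n)
    linarith

end Pool.Agent.helper74.WR
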