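import Mathlib

/-! WR-04: Fourier coefficients along the orbits of a finite abelian group. -/

set_option autoImplicit false

open scoped Classical ComplexConjugate

namespace Pool.Agent.helper74.WR

noncomputable section

variable {G M : Type} [AddCommGroup G] [Fintype G] [Fintype M]

/-- An action of `G` on the set `M`. -/
structure Act (act : G → M → M) : Prop where
  zero : ∀ m, act 0 m = m
  add : ∀ g h m, act (g + h) m = act g (act h m)

/-- The Fourier coefficient of `F` at `χ` along the orbit of `m`. -/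
def ftr (act : G → M → M) (F : M → ℂ) (χ : AddChar G ℂ) (m : M) : ℂ :=
  (Fintype.card G : ℂ)⁻¹ * ∑ g, F (act g m) * χ (-g)

variable {act : G → M → M}

omit [Fintype M] in
theorem ftr_sub (F F' : M → ℂ) (χ : AddChar G ℂ) (m : M) :
    ftr act (fun x => F x - F' x) χ m = ftr act F χ m - ftr act F' χ m := by
  unfold ftr
  rw [← mul_sub, ← Finset.sum_sub_distrib]
  congr 1
  refine Finset.sum_congr rfl fun g _ => ?_
  ring

omit [Fintype M] in
theorem ftr_smul (z : ℂ) (F : M → ℂ) (χ : AddChar G ℂ) (m : M) :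
    ftr act (fun x => z * F x) χ m = z * ftr act F χ m := by
  unfold ftr
  have h1 : ∑ g, z * F (act g m) * χ (-g) = z * ∑ g, F (act g m) * χ (-g) := by
    rw [Finset.mul_sum]
    refine Finset.sum_congr rfl fun g _ => ?_
    ring
  rw [h1]
  ring

omit [Fintype M] in
theorem ftr_shift (ha : Act act) (h : G) (F : M → ℂ) (χ : AddChar G ℂ) (m : M) :
    ftr act (fun x => F (act h x)) χ m = χ h * ftr act F χ m := by
  unfold ftr
  rw [mul_left_comm]
  congr 1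
  rw [Finset.mul_sum, ← Equiv.sum_comp (Equiv.addLeft h) (fun g => χ h * (F (act g m) * χ (-g)))]
  refine Finset.sum_congr rfl fun g _ => ?_
  simp only [Equiv.coe_addLeft]
  rw [ha.add, neg_add, AddChar.map_add_eq_mul]
  have h1 : χ h * χ (-h) = 1 := by
    rw [← AddChar.map_add_eq_mul, add_neg_cancel, AddChar.map_zero_eq_one]
  calc F (act h (act g m)) * χ (-g) = (χ h * χ (-h)) * (F (act h (act g m)) * χ (-g)) := by rw [h1, one_mul]
    _ = _ := by ring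

omit [Fintype M] in
theorem pars_orbit (F : M → ℂ) (m : M) :
    ∑ χ : AddChar G ℂ, ‖ftr act F χ m‖ ^ 2 = (Fintype.card G : ℝ)⁻¹ * ∑ g, ‖F (act g m)‖ ^ 2 := by
  have hG : (Fintype.card G : ℂ) ≠ 0 := by exact_mod_cast Fintype.card_ne_zero
  have key : ∑ χ : AddChar G ℂ, (ftr act F χ m) * conj (ftr act F χ m) =
      (Fintype.card G : ℂ)⁻¹ * ∑ g, F (act g m) * conj (F (act g m)) := by
    have e1 : ∀ χ : AddChar G ℂ, (ftr act F χ m) * conj (ftr act F χ m) =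
        ∑ g, ∑ g', (Fintype.card G : ℂ)⁻¹ ^ 2 * (F (act g m) * conj (F (act g' m))) * χ (g' - g) := by
      intro χ
      unfold ftr
      rw [map_mul, map_sum, map_inv₀, Complex.conj_natCast]
      rw [show ∀ a b : ℂ, ((Fintype.card G : ℂ)⁻¹ * a) * ((Fintype.card G : ℂ)⁻¹ * b) = (Fintype.card G : ℂ)⁻¹ ^ 2 * (a * b) by
        intro a b; ring]
      rw [Finset.sum_mul_sum, Finset.mul_sum]
      refine Finset.sum_congr rfl fun g _ => ?_
      rw [Finset.mul_sum]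
      refine Finset.sum_congr rfl fun g' _ => ?_
      rw [map_mul, ← AddChar.map_neg_eq_conj, neg_neg, sub_eq_add_neg, AddChar.map_add_eq_mul]
      ring
    rw [Finset.sum_congr rfl fun χ _ => e1 χ, Finset.sum_comm]
    rw [Finset.mul_sum]
    refine Finset.sum_congr rfl fun g _ => ?_
    rw [Finset.sum_comm]
    have e2 : ∀ g', ∑ χ : AddChar G ℂ, (Fintype.card G : ℂ)⁻¹ ^ 2 * (F (act g m) * conj (F (act g' m))) * χ (g' - g) =
        if g' = g then (Fintype.card G : ℂ)⁻¹ * (F (act g m) * conj (F (act g' m))) else 0 := by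
      intro g'
      rw [← Finset.mul_sum, AddChar.sum_apply_eq_ite]
      by_cases h : g' = g
      · rw [if_pos (sub_eq_zero.2 h), if_pos h]
        field_simp
      · rw [if_neg (fun h' => h (sub_eq_zero.1 h')), if_neg h, mul_zero]
    rw [Finset.sum_congr rfl fun g' _ => e2 g', Finset.sum_ite_eq']
    simp
  have e3 : ∀ z : ℂ, ((‖z‖ ^ 2 : ℝ) : ℂ) = z * conj z := by
    intro z
    rw [Complex.mul_conj, Complex.normSq_eq_norm_sq]
  apply Complex.ofReal_injective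
  push_cast
  simp only [← Complex.ofReal_pow, e3]
  exact key

/-- Parseval. -/
theorem pars (ha : Act act) (F : M → ℂ) :
    ∑ i : AddChar G ℂ × M, ‖ftr act F i.1 i.2‖ ^ 2 = ∑ m, ‖F m‖ ^ 2 := by
  rw [Fintype.sum_prod_type_right]
  simp only
  rw [Finset.sum_congr rfl fun m _ => pars_orbit (act := act) F m, ← Finset.mul_sum, Finset.sum_comm]
  have h1 : ∀ g : G, ∑ m, ‖F (act g m)‖ ^ 2 = ∑ m, ‖F m‖ ^ 2 := by
    intro g
    let e : M ≃ M :=
      { toFun := act g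
        invFun := act (-g)
        left_inv := fun m => by rw [← ha.add, neg_add_cancel, ha.zero]
        right_inv := fun m => by rw [← ha.add, add_neg_cancel, ha.zero] }
    exact Equiv.sum_comp e (fun m => ‖F m‖ ^ 2)
  rw [Finset.sum_congr rfl fun g _ => h1 g, Finset.sum_const, Finset.card_univ, nsmul_eq_mul]
  have hG : (Fintype.card G : ℝ) ≠ 0 := by exact_mod_cast Fintype.card_ne_zero
  field_simp

theorem pars_diff (ha : Act act) (F F' : M → ℂ) {κ : ℝ} (hκ : 0 < κ) :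
    ∑ i : AddChar G ℂ × M, |‖ftr act F i.1 i.2‖ ^ 2 - ‖ftr act F' i.1 i.2‖ ^ 2| ≤
      κ⁻¹ * ∑ m, ‖F m - F' m‖ ^ 2 + κ / 2 * (∑ m, ‖F m‖ ^ 2 + ∑ m, ‖F' m‖ ^ 2) := by
  have h1 : ∀ i : AddChar G ℂ × M, |‖ftr act F i.1 i.2‖ ^ 2 - ‖ftr act F' i.1 i.2‖ ^ 2| ≤
      κ⁻¹ * ‖ftr act (fun x => F x - F' x) i.1 i.2‖ ^ 2 +
        κ / 2 * (‖ftr act F i.1 i.2‖ ^ 2 + ‖ftr act F' i.1 i.2‖ ^ 2) := by
    intro i
    rw [ftr_sub]
    set a := ftr act F i.1 i.2
    set b := ftr act F' i.1 i.2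
    have h2 : |‖a‖ - ‖b‖| ≤ ‖a - b‖ := abs_norm_sub_norm_le a b
    have h3 : |‖a‖ ^ 2 - ‖b‖ ^ 2| = |‖a‖ - ‖b‖| * (‖a‖ + ‖b‖) := by
      rw [sq_sub_sq, abs_mul, abs_of_nonneg (add_nonneg (norm_nonneg a) (norm_nonneg b)), mul_comm]
    rw [h3]
    have h4 : |‖a‖ - ‖b‖| * (‖a‖ + ‖b‖) ≤ ‖a - b‖ * (‖a‖ + ‖b‖) :=
      mul_le_mul_of_nonneg_right h2 (add_nonneg (norm_nonneg a) (norm_nonneg b))
    refine h4.trans ?_
    have h5 : 0 ≤ κ⁻¹ * (‖a - b‖ - κ / 2 * (‖a‖ + ‖b‖)) ^ 2 := by positivity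
    have h6 : κ⁻¹ * (‖a - b‖ - κ / 2 * (‖a‖ + ‖b‖)) ^ 2 =
        κ⁻¹ * ‖a - b‖ ^ 2 - ‖a - b‖ * (‖a‖ + ‖b‖) + κ / 4 * (‖a‖ + ‖b‖) ^ 2 := by
      field_simp
      ring
    have h7 : κ / 4 * (‖a‖ + ‖b‖) ^ 2 ≤ κ / 2 * (‖a‖ ^ 2 + ‖b‖ ^ 2) := by
      nlinarith [sq_nonneg (‖a‖ - ‖b‖)]
    linarith
  refine (Finset.sum_le_sum fun i _ => h1 i).trans (le_of_eq ?_)
  rw [Finset.sum_add_distrib, ← Finset.mul_sum, ← Finset.mul_sum, Finset.sum_add_distrib, pars ha, pars ha, pars ha]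

theorem pars_shift (ha : Act act) (F : M → ℂ) (h : G) (z : ℂ) :
    ∑ i : AddChar G ℂ × M, ‖i.1 h - z‖ ^ 2 * ‖ftr act F i.1 i.2‖ ^ 2 = ∑ m, ‖F (act h m) - z * F m‖ ^ 2 := by
  rw [← pars ha (fun m => F (act h m) - z * F m)]
  refine Finset.sum_congr rfl fun i _ => ?_
  rw [ftr_sub, ftr_shift ha, ftr_smul, ← sub_mul, norm_mul, mul_pow]

end

end Pool.Agent.helper74.WR
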