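import Pool.Agent.helper74.WR.Exp

/-! WR-03: a subset of an approximation of a group with expansion which contains no long walk in its
interior has a large boundary. -/

set_option autoImplicit false

open scoped Classical Pointwise

namespace Pool.Agent.helper74.WR

open SofE

variable {L : Type} [Group L] {V : Type} [Fintype V]

/-- `v` is a good point for the window `B`. -/
structure Gd (B : Finset L) (π : L → Equiv.Perm V) (v : V) : Prop where
  one : π 1 v = v
  mul : ∀ s ∈ B, ∀ t ∈ B, π (s * t) v = π s (π t v)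
  inj : ∀ s ∈ B, ∀ t ∈ B, π s v = π t v → s = t

/-- Walks of length `k` from `1`: end point and set of points. -/
noncomputable def walks (S0 : Finset L) : ℕ → Finset (L × Finset L)
  | 0 => {(1, {1})}
  | k + 1 => (S0 ×ˢ walks S0 k).image (fun x => (x.1 * x.2.1, insert (x.1 * x.2.1) x.2.2))

theorem card_walks (S0 : Finset L) (k : ℕ) : (walks S0 k).card ≤ S0.card ^ k := by
  induction k with
  | zero => simp [walks]
  | succ k ih =>
    unfold walks
    refine Finset.card_image_le.trans ?_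
    rw [Finset.card_product, pow_succ']
    exact Nat.mul_le_mul_left _ ih

/-- The words which can be reached inside `E` from `v` by `k` steps. -/
noncomputable def reach (S0 : Finset L) (π : L → Equiv.Perm V) (E : Finset V) (v : V) : ℕ → Finset L
  | 0 => {1}
  | k + 1 => reach S0 π E v k ∪ (S0 * reach S0 π E v k).filter (fun x => π x v ∈ E)

variable {S0 : Finset L} {π : L → Equiv.Perm V} {E : Finset V} {v : V}

omit [Fintype V] in
theorem reach_succ (k : ℕ) : reach S0 π E v (k + 1) =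
    reach S0 π E v k ∪ (S0 * reach S0 π E v k).filter (fun x => π x v ∈ E) := rfl

theorem reach_mono {j k : ℕ} (h : j ≤ k) : reach S0 π E v j ⊆ reach S0 π E v k := by
  induction h with
  | refl => exact fun _ h => h
  | step _ ih => exact fun x hx => by rw [Nat.succ_eq_add_one, reach_succ]; exact Finset.mem_union_left _ (ih hx)

theorem one_mem_reach (k : ℕ) : (1 : L) ∈ reach S0 π E v k :=
  reach_mono (Nat.zero_le k) (by simp [reach])

theorem reach_sub (h1 : (1 : L) ∈ S0) (k : ℕ) : reach S0 π E v k ⊆ S0 ^ k := by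
  induction k with
  | zero => simp [reach]
  | succ k ih =>
    intro x hx
    rw [reach_succ, Finset.mem_union, Finset.mem_filter] at hx
    rw [pow_succ']
    rcases hx with hx | ⟨hx, -⟩
    · have := Finset.mul_mem_mul h1 (ih hx)
      rwa [one_mul] at this
    · exact Finset.mul_subset_mul le_rfl ih hx

theorem reach_mem (hv : π 1 v ∈ E) (k : ℕ) {x : L} (hx : x ∈ reach S0 π E v k) : π x v ∈ E := by
  induction k with
  | zero =>
    rw [reach, Finset.mem_singleton] at hx
    rw [hx]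
    exact hv
  | succ k ih =>
    rw [reach_succ, Finset.mem_union, Finset.mem_filter] at hx
    rcases hx with hx | ⟨-, hx⟩
    · exact ih hx
    · exact hx

theorem reach_step {k : ℕ} {s x : L} (hs : s ∈ S0) (hx : x ∈ reach S0 π E v k) (h : π (s * x) v ∈ E) :
    s * x ∈ reach S0 π E v (k + 1) := by
  rw [reach_succ, Finset.mem_union, Finset.mem_filter]
  exact Or.inr ⟨Finset.mul_mem_mul hs hx, h⟩

theorem reach_walk (k : ℕ) : ∀ x ∈ reach S0 π E v k, (∀ j < k, x ∉ reach S0 π E v j) →
    ∃ K, (x, K) ∈ walks S0 k ∧ K ⊆ reach S0 π E v k ∧ K.card = k + 1 := by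
  induction k with
  | zero =>
    intro x hx _
    rw [reach, Finset.mem_singleton] at hx
    subst hx
    exact ⟨{1}, by simp [walks], by simp [reach], by simp⟩
  | succ k ih =>
    intro x hx hj
    have hx0 : x ∉ reach S0 π E v k := hj k (Nat.lt_succ_self k)
    have hx1 := hx
    rw [reach_succ, Finset.mem_union, Finset.mem_filter] at hx1
    obtain ⟨hx2, hx3⟩ := hx1.resolve_left hx0
    obtain ⟨s, hs, y, hy, rfl⟩ := Finset.mem_mul.1 hx2
    have hy' : ∀ j < k, y ∉ reach S0 π E v j := by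
      intro j hjk hyj
      exact hj (j + 1) (by omega) (reach_step hs hyj hx3)
    obtain ⟨K, hK1, hK2, hK3⟩ := ih y hy hy'
    refine ⟨insert (s * y) K, ?_, ?_, ?_⟩
    · unfold walks
      rw [Finset.mem_image]
      exact ⟨(s, (y, K)), Finset.mem_product.2 ⟨hs, hK1⟩, rfl⟩
    · intro z hz
      rcases Finset.mem_insert.1 hz with rfl | hz
      · exact hx
      · exact reach_mono (Nat.le_succ k) (hK2 hz)
    · rw [Finset.card_insert_of_notMem (fun h => hx0 (hK2 h)), hK3]

/-- If all the components are small then the boundary is large. -/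
theorem comp_exp {h0 : ℝ} (hx : Expander S0 h0) {d : ℕ} {B : Finset L} (hB : S0 ^ (d + 1) ⊆ B) (E : Finset V)
    (hg : ∀ v ∈ E, Gd B π v) (hr : ∀ v ∈ E, reach S0 π E v (d + 1) = reach S0 π E v d) :
    h0 * E.card ≤ ∑ s ∈ S0, ((E.filter (fun v => π s v ∉ E)).card : ℝ) := by
  set P : Finset V → Prop := fun C => (∀ c ∈ C, ∀ s ∈ S0, π s c ∈ E → π s c ∈ C) ∧
    h0 * C.card ≤ ∑ s ∈ S0, ((C.filter (fun v => π s v ∉ E)).card : ℝ) with hP
  have hne : (E.powerset.filter P).Nonempty := by
    refine ⟨∅, Finset.mem_filter.2 ⟨Finset.empty_mem_powerset _, ?_⟩⟩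
    rw [hP]
    simp
  obtain ⟨C, hC, hmax⟩ := Finset.exists_max_image (E.powerset.filter P) Finset.card hne
  rw [Finset.mem_filter, Finset.mem_powerset] at hC
  obtain ⟨hCE, hC1, hC2⟩ := hC
  have hpow : ∀ k ≤ d + 1, S0 ^ k ⊆ B := fun k hk =>
    (Finset.pow_subset_pow_right hx.one hk).trans hB
  have hS0 : ∀ s ∈ S0, s ∈ B := fun s hs => hpow 1 (by omega) (by rwa [pow_one])
  by_cases hCeq : C = E
  · rw [hCeq] at hC2
    exact hC2
  exfalso
  obtain ⟨v, hvE, hvC⟩ : ∃ v, v ∈ E ∧ v ∉ C := by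
    by_contra h
    push Not at h
    exact hCeq (Finset.Subset.antisymm hCE h)
  have gv := hg v hvE
  have h1v : π 1 v ∈ E := by rw [gv.one]; exact hvE
  set F := reach S0 π E v d with hF
  have hFB : ∀ x ∈ F, x ∈ B := fun x hx' => hpow d (by omega) (reach_sub hx.one d hx')
  have hSF : ∀ s ∈ S0, ∀ x ∈ F, s * x ∈ B := by
    intro s hs x hx'
    refine hpow (d + 1) le_rfl ?_
    rw [pow_succ']
    exact Finset.mul_mem_mul hs (reach_sub hx.one d hx')
  have hmul : ∀ s ∈ S0, ∀ x ∈ F, π s (π x v) = π (s * x) v := fun s hs x hx' =>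
    (gv.mul s (hS0 s hs) x (hFB x hx')).symm
  have hback : ∀ s ∈ S0, ∀ x ∈ F, π s⁻¹ (π (s * x) v) = π x v := by
    intro s hs x hx'
    rw [← gv.mul s⁻¹ (hS0 _ (hx.inv s hs)) (s * x) (hSF s hs x hx'), inv_mul_cancel_left]
  have hclosed : ∀ s ∈ S0, ∀ x ∈ F, π (s * x) v ∈ E → s * x ∈ F := by
    intro s hs x hx' h
    rw [hF, ← hr v hvE]
    exact reach_step hs hx' h
  set F' := F.filter (fun x => π x v ∉ C) with hF'
  have hF'F : ∀ x ∈ F', x ∈ F := fun x h => (Finset.mem_filter.1 h).1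
  have hF'C : ∀ x ∈ F', π x v ∉ C := fun x h => (Finset.mem_filter.1 h).2
  set N := F'.image (fun x => π x v) with hN
  have hinj : Set.InjOn (fun x => π x v) (F' : Set L) := by
    intro x hx' y hy h
    exact gv.inj x (hFB x (hF'F x hx')) y (hFB y (hF'F y hy)) h
  have hNcard : N.card = F'.card := Finset.card_image_of_injOn hinj
  have hdisj : Disjoint C N := by
    rw [Finset.disjoint_left]
    intro c hc hcN
    obtain ⟨x, hx', rfl⟩ := Finset.mem_image.1 hcN
    exact hF'C x hx' hc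
  have hNE : ∀ c ∈ N, c ∈ E := by
    intro c hc
    obtain ⟨x, hx', rfl⟩ := Finset.mem_image.1 hc
    exact reach_mem h1v d (hF'F x hx')
  have hvN : v ∈ N := by
    rw [hN, Finset.mem_image]
    refine ⟨1, ?_, gv.one⟩
    rw [hF', Finset.mem_filter, gv.one]
    exact ⟨one_mem_reach d, hvC⟩
  have hout : ∀ s ∈ S0, ∀ x ∈ F', s * x ∉ F' → π s (π x v) ∉ E := by
    intro s hs x hx' hsx h
    have hxF := hF'F x hx'
    rw [hmul s hs x hxF] at h
    have h2 := hclosed s hs x hxF h
    have h3 : π (s * x) v ∈ C := by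
      by_contra h4
      exact hsx (Finset.mem_filter.2 ⟨h2, h4⟩)
    have h5 := hC1 _ h3 s⁻¹ (hx.inv s hs)
    rw [hback s hs x hxF] at h5
    exact hF'C x hx' (h5 (reach_mem h1v d hxF))
  have hPN : P (C ∪ N) := by
    refine ⟨?_, ?_⟩
    · intro c hc s hs h
      rcases Finset.mem_union.1 hc with hc | hc
      · exact Finset.mem_union_left _ (hC1 c hc s hs h)
      · obtain ⟨x, hx', rfl⟩ := Finset.mem_image.1 hc
        by_cases hsx : s * x ∈ F'
        · refine Finset.mem_union_right _ (Finset.mem_image.2 ⟨s * x, hsx, ?_⟩)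
          exact (hmul s hs x (hF'F x hx')).symm
        · exact absurd h (hout s hs x hx' hsx)
    · rw [Finset.card_union_of_disjoint hdisj, hNcard]
      have e1 : ∀ s ∈ S0, (((C ∪ N).filter (fun v => π s v ∉ E)).card : ℝ) =
          ((C.filter (fun v => π s v ∉ E)).card : ℝ) + ((N.filter (fun v => π s v ∉ E)).card : ℝ) := by
        intro s _
        rw [Finset.filter_union, Finset.card_union_of_disjoint (Finset.disjoint_filter_filter hdisj)]
        push_cast
        ring
      rw [Finset.sum_congr rfl e1, Finset.sum_add_distrib]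
      have e2 : h0 * F'.card ≤ ∑ s ∈ S0, ((N.filter (fun v => π s v ∉ E)).card : ℝ) := by
        refine (hx.exp F').trans ?_
        have e3 : (S0 * F') \ F' ⊆ S0.biUnion (fun s => (F'.filter (fun x => s * x ∉ F')).image (fun x => s * x)) := by
          intro z hz
          rw [Finset.mem_sdiff] at hz
          obtain ⟨s, hs, x, hx', rfl⟩ := Finset.mem_mul.1 hz.1
          rw [Finset.mem_biUnion]
          exact ⟨s, hs, Finset.mem_image.2 ⟨x, Finset.mem_filter.2 ⟨hx', hz.2⟩, rfl⟩⟩
        have e4 : ((S0 * F') \ F').card ≤ ∑ s ∈ S0, (N.filter (fun v => π s v ∉ E)).card := by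
          refine (Finset.card_le_card e3).trans (Finset.card_biUnion_le.trans (Finset.sum_le_sum fun s hs => ?_))
          refine Finset.card_image_le.trans ?_
          refine Finset.card_le_card_of_injOn (fun x => π x v) ?_ ?_
          · intro x hx'
            rw [Finset.mem_coe, Finset.mem_filter] at hx'
            rw [Finset.mem_coe, Finset.mem_filter]
            exact ⟨Finset.mem_image.2 ⟨x, hx'.1, rfl⟩, hout s hs x hx'.1 hx'.2⟩
          · intro x hx' y hy h
            rw [Finset.mem_coe, Finset.mem_filter] at hx' hy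
            exact hinj hx'.1 hy.1 h
        exact_mod_cast e4
      push_cast
      rw [mul_add]
      exact add_le_add hC2 e2
  have h6 := hmax (C ∪ N) (Finset.mem_filter.2 ⟨Finset.mem_powerset.2 (Finset.union_subset hCE hNE), hPN⟩)
  rw [Finset.card_union_of_disjoint hdisj] at h6
  have h7 : 0 < N.card := Finset.card_pos.2 ⟨v, hvN⟩
  omega

/-- The constant. -/
noncomputable def kcA (S0 S1 : Finset L) (h0 : ℝ) : ℝ := (S1.card + 2) + S0.card * (S1.card + 1) / h0

omit [Group L] in
theorem kcA_nonneg {h0 : ℝ} (h : 0 < h0) (S0 S1 : Finset L) : 0 ≤ kcA S0 S1 h0 := by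
  unfold kcA
  positivity

/-- The key estimate. -/
theorem kc {h0 : ℝ} {S1 : Finset L} (hx : Expander S0 h0) (hS : S0 ⊆ S1) {d : ℕ} {B : Finset L}
    (hB : S1 * S0 ^ (d + 1) ⊆ B) (C Bad : V → Prop) (hgood : ∀ v, ¬ Bad v → Gd B π v)
    (hstar : ∀ v, ¬ Bad v → ∀ x ∈ walks S0 (d + 1), x.2.card = d + 2 → ¬ ∀ y ∈ S1 * x.2, C (π y v))
    (E : Finset V) :
    (E.card : ℝ) ≤ kcA S0 S1 h0 * (∑ s ∈ S1, ((E.filter (fun v => π s v ∉ E)).card : ℝ) +
      ((E.filter (fun v => ¬ (C v ∧ ¬ Bad v))).card : ℝ)) := by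
  set X : ℝ := ∑ s ∈ S1, ((E.filter (fun v => π s v ∉ E)).card : ℝ) +
      ((E.filter (fun v => ¬ (C v ∧ ¬ Bad v))).card : ℝ) with hX
  have hsum0 : 0 ≤ ∑ s ∈ S1, ((E.filter (fun v => π s v ∉ E)).card : ℝ) :=
    Finset.sum_nonneg fun s _ => Nat.cast_nonneg _
  set E2 := E.filter (fun v => C v ∧ ¬ Bad v) with hE2
  set E3 := E2.filter (fun v => ∀ s ∈ S1, π s v ∈ E2) with hE3
  have h1S1 : (1 : L) ∈ S1 := hS hx.one
  have hS1B : ∀ s ∈ S1, s ∈ B := by
    intro s hs
    refine hB ?_
    have := Finset.mul_mem_mul hs (Finset.one_mem_pow (n := d + 1) hx.one)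
    rwa [mul_one] at this
  have hS0B : S0 ^ (d + 1) ⊆ B := by
    intro x hx'
    refine hB ?_
    have := Finset.mul_mem_mul h1S1 hx'
    rwa [one_mul] at this
  -- E without E2
  have a1 : ((E \ E2).card : ℝ) ≤ X := by
    have e1 : E \ E2 = E.filter (fun v => ¬ (C v ∧ ¬ Bad v)) := by
      rw [hE2]
      exact (Finset.filter_not _ _).symm
    rw [e1, hX]
    linarith
  -- E2 without E3
  have a2 : ((E2 \ E3).card : ℝ) ≤ (S1.card + 1) * X := by
    have e1 : E2 \ E3 ⊆ S1.biUnion (fun s => E2.filter (fun v => π s v ∉ E2)) := by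
      intro v hv
      obtain ⟨hv1, hv2⟩ := Finset.mem_sdiff.1 hv
      rw [Finset.mem_biUnion]
      have h2 : ¬ ∀ s ∈ S1, π s v ∈ E2 := fun h => hv2 (Finset.mem_filter.2 ⟨hv1, h⟩)
      push Not at h2
      obtain ⟨s, hs, h3⟩ := h2
      exact ⟨s, hs, Finset.mem_filter.2 ⟨hv1, h3⟩⟩
    have e2 : ∀ s ∈ S1, (E2.filter (fun v => π s v ∉ E2)).card ≤ (E.filter (fun v => π s v ∉ E)).card + (E \ E2).card := by
      intro s _
      have e3 : E2.filter (fun v => π s v ∉ E2) ⊆ E.filter (fun v => π s v ∉ E) ∪ (E \ E2).image (fun w => (π s).symm w) := by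
        intro v hv
        rw [Finset.mem_filter] at hv
        have hvE : v ∈ E := (Finset.mem_filter.1 hv.1).1
        rw [Finset.mem_union, Finset.mem_filter, Finset.mem_image]
        by_cases h : π s v ∈ E
        · right
          exact ⟨π s v, Finset.mem_sdiff.2 ⟨h, hv.2⟩, (π s).symm_apply_apply v⟩
        · left
          exact ⟨hvE, h⟩
      refine (Finset.card_le_card e3).trans ((Finset.card_union_le _ _).trans ?_)
      exact Nat.add_le_add_left Finset.card_image_le _
    have e4 : (E2 \ E3).card ≤ ∑ s ∈ S1, ((E.filter (fun v => π s v ∉ E)).card + (E \ E2).card) :=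
      (Finset.card_le_card e1).trans (Finset.card_biUnion_le.trans (Finset.sum_le_sum e2))
    rw [Finset.sum_add_distrib, Finset.sum_const, smul_eq_mul] at e4
    have e5 : ((E2 \ E3).card : ℝ) ≤ ∑ s ∈ S1, ((E.filter (fun v => π s v ∉ E)).card : ℝ) + S1.card * (E \ E2).card := by
      exact_mod_cast e4
    have e6 : (S1.card : ℝ) * (E \ E2).card ≤ S1.card * X := mul_le_mul_of_nonneg_left a1 (Nat.cast_nonneg _)
    have e7 : ∑ s ∈ S1, ((E.filter (fun v => π s v ∉ E)).card : ℝ) ≤ X := by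
      rw [hX]
      have : (0 : ℝ) ≤ ((E.filter (fun v => ¬ (C v ∧ ¬ Bad v))).card : ℝ) := Nat.cast_nonneg _
      linarith
    linarith
  -- E3
  have hE3E2 : ∀ v ∈ E3, v ∈ E2 := fun v hv => (Finset.mem_filter.1 hv).1
  have hE2p : ∀ v ∈ E2, C v ∧ ¬ Bad v := fun v hv => (Finset.mem_filter.1 hv).2
  have hgE3 : ∀ v ∈ E3, Gd B π v := fun v hv => hgood v (hE2p v (hE3E2 v hv)).2
  have hrE3 : ∀ v ∈ E3, reach S0 π E3 v (d + 1) = reach S0 π E3 v d := by
    intro v hv
    by_contra hne
    have gv := hgE3 v hv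
    have h1v : π 1 v ∈ E3 := by rw [gv.one]; exact hv
    have hsub : reach S0 π E3 v d ⊆ reach S0 π E3 v (d + 1) := reach_mono (Nat.le_succ d)
    obtain ⟨x, hx1, hx2⟩ : ∃ x, x ∈ reach S0 π E3 v (d + 1) ∧ x ∉ reach S0 π E3 v d := by
      by_contra h
      push Not at h
      exact hne (Finset.Subset.antisymm h hsub)
    obtain ⟨K, hK1, hK2, hK3⟩ := reach_walk (d + 1) x hx1 (fun j hj h => hx2 (reach_mono (by omega) h))
    refine hstar v (hE2p v (hE3E2 v hv)).2 (x, K) hK1 (by rw [hK3]) ?_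
    intro y hy
    obtain ⟨s, hs, z, hz, rfl⟩ := Finset.mem_mul.1 hy
    have hzr := hK2 hz
    have hzE : π z v ∈ E3 := reach_mem h1v (d + 1) hzr
    have hzB : z ∈ B := hS0B (reach_sub hx.one (d + 1) hzr)
    rw [gv.mul s (hS1B s hs) z hzB]
    exact (hE2p _ ((Finset.mem_filter.1 hzE).2 s hs)).1
  have a3 := comp_exp hx hS0B E3 hgE3 hrE3
  have a4 : ∑ s ∈ S0, ((E3.filter (fun v => π s v ∉ E3)).card : ℝ) ≤ S0.card * ((E2 \ E3).card : ℝ) := by
    have e1 : ∀ s ∈ S0, ((E3.filter (fun v => π s v ∉ E3)).card : ℝ) ≤ ((E2 \ E3).card : ℝ) := by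
      intro s hs
      have : (E3.filter (fun v => π s v ∉ E3)).card ≤ (E2 \ E3).card := by
        refine Finset.card_le_card_of_injOn (fun v => π s v) ?_ ?_
        · intro v hv
          rw [Finset.mem_coe, Finset.mem_filter] at hv
          rw [Finset.mem_coe, Finset.mem_sdiff]
          exact ⟨(Finset.mem_filter.1 hv.1).2 s (hS hs), hv.2⟩
        · intro x _ y _ h
          exact (π s).injective h
      exact_mod_cast this
    refine (Finset.sum_le_sum e1).trans (le_of_eq ?_)
    rw [Finset.sum_const, nsmul_eq_mul]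
  have hh := hx.pos
  have a5 : (E3.card : ℝ) ≤ S0.card * (S1.card + 1) / h0 * X := by
    have e1 : h0 * E3.card ≤ S0.card * ((S1.card + 1) * X) :=
      (a3.trans a4).trans (mul_le_mul_of_nonneg_left a2 (Nat.cast_nonneg _))
    rw [div_mul_eq_mul_div, le_div_iff₀ hh]
    linarith
  have a6 : (E.card : ℝ) = (E \ E2).card + ((E2 \ E3).card + E3.card) := by
    have e1 := Finset.card_sdiff_add_card_eq_card (Finset.filter_subset (fun v => C v ∧ ¬ Bad v) E)
    have e2 := Finset.card_sdiff_add_card_eq_card (Finset.filter_subset (fun v => ∀ s ∈ S1, π s v ∈ E2) E2)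
    rw [← hE2] at e1
    rw [← hE3] at e2
    rw [← e1, ← e2]
    push_cast
    ring
  rw [a6]
  unfold kcA
  nlinarith

end Pool.Agent.helper74.WR
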