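import Pool.Agent.helper74.WR.DefsQ

/-! WR-14: lower bounds for the entropy. -/

set_option autoImplicit false

open Filter Topology

namespace SofQ

open SofE hiding Al tt sh XX XX_smul MOK near ent_le lower_gen lower2 lower3

variable {Γ : Type} [Group Γ]

theorem lower_gen {q t r : ℕ} [NeZero q] {N : Subgroup Γ} {p : Γ → ZMod q} [MetricSpace (XX t r N p)] (hM : MOK t r N p)
    {k : ℕ → ℕ} {π : ∀ n, Γ → Equiv.Perm (Fin (k n))} (hk : ∀ n, 0 < k n) (Q : Type) [Fintype Q] [Nonempty Q]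
    (Φ : ∀ n, (Fin (k n) → Q) → Fin (k n) → XX t r N p)
    (sep : ∀ n (y y' : Fin (k n) → Q), y ≠ y' → ∃ v, (Φ n y v).val 1 ≠ (Φ n y' v).val 1)
    (eq : ∀ s g : Γ, Tendsto (fun n => (cnt (fun v => ∃ y, (Φ n y (π n s v)).val g ≠ (s • Φ n y v).val g) : ℝ) / (k n : ℝ)) atTop (𝓝 0)) :
    ((Real.log (Fintype.card Q) : ℝ) : EReal) ≤ ent (XX t r N p) k π := by
  classical
  obtain ⟨ε, hε, hsep⟩ := hM.sep 1
  refine le_ent_of hk _ ε hε fun F δ hδ => ?_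
  obtain ⟨W, hW⟩ := hM.near (δ / 2) (by positivity)
  have hbad : LowTZ k (fun n v => ∃ s ∈ F, ∃ g ∈ W, ∃ y, (Φ n y (π n s v)).val g ≠ (s • Φ n y v).val g) :=
    LowTZ.bex F fun s _ => LowTZ.bex W fun g _ => eq s g
  have hev := (tendsto_order.1 hbad).2 (δ ^ 2 / 4) (by positivity)
  filter_upwards [hev] with n hn
  have hkn : (0 : ℝ) < k n := by exact_mod_cast hk n
  rw [div_lt_iff₀ hkn] at hn
  have hinj : Function.Injective (Φ n) := by
    intro y y' hyy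
    by_contra hne
    obtain ⟨v, hv⟩ := sep n y y' hne
    exact hv (by rw [hyy])
  refine ⟨Finset.univ.image (Φ n), ?_, ?_, ?_⟩
  · intro φ hφ s hs
    obtain ⟨y, -, rfl⟩ := Finset.mem_image.1 hφ
    set B : Fin (k n) → Prop := fun v => ∃ s ∈ F, ∃ g ∈ W, ∃ y, (Φ n y (π n s v)).val g ≠ (s • Φ n y v).val g with hB
    have hpt : ∀ v, dist (Φ n y (π n s v)) (s • Φ n y v) ^ 2 ≤ δ ^ 2 / 4 + (if B v then 1 else 0) := by
      intro v
      by_cases hv : B v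
      · rw [if_pos hv]
        have h1 := hM.le1 (Φ n y (π n s v)) (s • Φ n y v)
        have h0 : 0 ≤ dist (Φ n y (π n s v)) (s • Φ n y v) := dist_nonneg
        have : dist (Φ n y (π n s v)) (s • Φ n y v) ^ 2 ≤ 1 := pow_le_one₀ h0 h1
        have : 0 ≤ δ ^ 2 / 4 := by positivity
        linarith
      · rw [if_neg hv, add_zero]
        have h1 : dist (Φ n y (π n s v)) (s • Φ n y v) < δ / 2 := by
          refine hW _ _ fun g hg => ?_
          by_contra hne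
          exact hv ⟨s, hs, g, hg, y, hne⟩
        have h0 : 0 ≤ dist (Φ n y (π n s v)) (s • Φ n y v) := dist_nonneg
        have h2 := pow_le_pow_left₀ h0 h1.le 2
        calc dist (Φ n y (π n s v)) (s • Φ n y v) ^ 2 ≤ (δ / 2) ^ 2 := h2
          _ = δ ^ 2 / 4 := by ring
    have hsum : ∑ v, dist (Φ n y (π n s v)) (s • Φ n y v) ^ 2 ≤ (δ ^ 2 / 4) * k n + cnt B := by
      refine (Finset.sum_le_sum fun v _ => hpt v).trans (le_of_eq ?_)
      rw [Finset.sum_add_distrib, Finset.sum_const, Finset.card_univ, Fintype.card_fin, nsmul_eq_mul,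
        cnt_sum B]
      push_cast
      ring
    rw [Real.sqrt_lt' hδ, div_lt_iff₀ hkn]
    have h5 : 0 < δ ^ 2 * k n := by positivity
    have h6 : (cnt B : ℝ) < δ ^ 2 / 4 * k n := hn
    nlinarith
  · intro φ hφ ψ hψ hne
    obtain ⟨y, -, rfl⟩ := Finset.mem_image.1 hφ
    obtain ⟨y', -, rfl⟩ := Finset.mem_image.1 hψ
    obtain ⟨v, hv⟩ := sep n y y' (fun h => hne (by rw [h]))
    exact ⟨v, hsep _ _ hv⟩
  · rw [Finset.card_image_of_injective _ hinj, Finset.card_univ, Fintype.card_fun, Fintype.card_fin]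
    have hQ : (0 : ℝ) < Fintype.card Q := by exact_mod_cast Fintype.card_pos
    rw [mul_comm, Real.exp_nat_mul, Real.exp_log hQ]
    push_cast
    exact le_rfl

theorem lower2 {q t r : ℕ} [NeZero q] [NeZero t] {N : Subgroup Γ} {p : Γ → ZMod q} [MetricSpace (XX t r N p)] (hM : MOK t r N p)
    {k : ℕ → ℕ} {π : ∀ n, Γ → Equiv.Perm (Fin (k n))} (hS : IsSofic k π) : ((Real.log t : ℝ) : EReal) ≤ ent (XX t r N p) k π := by
  have key := lower_gen (π := π) hM hS.pos (Fin t)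
    (fun n y v => ⟨fun g => Sum.inl (y (π n g⁻¹ v)), fun g m _ => by simp [tt, sh]⟩) ?_ ?_
  · simpa using key
  · intro n y y' hne
    obtain ⟨i, hi⟩ := Function.ne_iff.1 hne
    refine ⟨(π n (1 : Γ)⁻¹).symm i, fun h => hi ?_⟩
    have h' := Sum.inl_injective h
    simpa using h'
  · intro s g
    refine LowTZ.mono (Q := fun n v => π n (g⁻¹ * s) v ≠ π n g⁻¹ (π n s v)) (hS.mul g⁻¹ s) ?_
    rintro n v ⟨y, hy⟩ heq
    apply hy
    rw [XX_smul]
    have h1 : (s⁻¹ * g)⁻¹ = g⁻¹ * s := by group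
    show (Sum.inl (y (π n g⁻¹ (π n s v))) : (Al q t r)) = Sum.inl (y (π n (s⁻¹ * g)⁻¹ v))
    rw [h1, heq]

theorem lower3 {q t r : ℕ} [NeZero q] [NeZero r] {N : Subgroup Γ} {p : Γ → ZMod q} (hp : ∀ m ∈ N, ∀ n ∈ N, p (m * n) = p m + p n) [MetricSpace (XX t r N p)] (hM : MOK t r N p)
    {k : ℕ → ℕ} {π : ∀ n, Γ → Equiv.Perm (Fin (k n))} (hS : IsSofic k π) (c0 : ∀ n, Fin (k n) → ZMod q)
    (hc : ∀ s ∈ N, Tendsto (fun n => (cnt (fun v => c0 n (π n s v) ≠ c0 n v - p s) : ℝ) / (k n : ℝ)) atTop (𝓝 0)) :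
    ((Real.log r : ℝ) : EReal) ≤ ent (XX t r N p) k π := by
  classical
  let rr : Γ → Γ := fun g => (QuotientGroup.mk g : Γ ⧸ N).out
  have hr1 : ∀ g, (rr g)⁻¹ * g ∈ N := by
    intro g
    rw [← QuotientGroup.eq]
    exact QuotientGroup.out_eq' _
  have hr2 : ∀ g, ∀ m ∈ N, rr (g * m) = rr g := by
    intro g m hm
    show (QuotientGroup.mk (g * m) : Γ ⧸ N).out = (QuotientGroup.mk g : Γ ⧸ N).out
    rw [QuotientGroup.mk_mul_of_mem g hm]
  have hp1 : p 1 = 0 := by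
    have := hp 1 N.one_mem 1 N.one_mem
    rw [mul_one] at this
    simpa using this
  have hpinv : ∀ m ∈ N, p m⁻¹ = - p m := by
    intro m hm
    have h := hp m hm m⁻¹ (N.inv_mem hm)
    rw [mul_inv_cancel, hp1] at h
    have h2 : p m⁻¹ = - p m := (neg_eq_of_add_eq_zero_right h.symm).symm
    exact h2
  -- the first component is most of the time the value of c0
  have hb1 : ∀ g, LowTZ k (fun n v => c0 n (π n (rr g)⁻¹ v) + p ((rr g)⁻¹ * g) ≠ c0 n (π n g⁻¹ v)) := by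
    intro g
    have h1 : LowTZ k (fun n v => π n (((rr g)⁻¹ * g)⁻¹ * (rr g)⁻¹) v ≠ π n ((rr g)⁻¹ * g)⁻¹ (π n (rr g)⁻¹ v)) :=
      hS.mul _ _
    have h2 : LowTZ k (fun n v => c0 n (π n ((rr g)⁻¹ * g)⁻¹ v) ≠ c0 n v - p ((rr g)⁻¹ * g)⁻¹) :=
      hc _ (N.inv_mem (hr1 g))
    refine (h1.or (h2.comp (fun n => π n (rr g)⁻¹))).mono fun n v hv => ?_
    by_contra hcon
    push Not at hcon
    apply hv
    have e1 : ((rr g)⁻¹ * g)⁻¹ * (rr g)⁻¹ = g⁻¹ := by group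
    rw [e1] at hcon
    rw [hcon.1, hcon.2, hpinv _ (hr1 g), sub_neg_eq_add]
  have key := lower_gen (π := π) hM hS.pos (Fin r)
    (fun n y v => ⟨fun g => Sum.inr (c0 n (π n (rr g)⁻¹ v) + p ((rr g)⁻¹ * g), y (π n g⁻¹ v)), fun g m hm => by
      show some (c0 n (π n (rr (g * m))⁻¹ v) + p ((rr (g * m))⁻¹ * (g * m))) =
        some (c0 n (π n (rr g)⁻¹ v) + p ((rr g)⁻¹ * g) + p m)
      rw [hr2 g m hm, ← mul_assoc, hp _ (hr1 g) m hm, add_assoc]⟩) ?_ ?_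
  · simpa using key
  · intro n y y' hne
    obtain ⟨i, hi⟩ := Function.ne_iff.1 hne
    refine ⟨(π n (1 : Γ)⁻¹).symm i, fun h => hi ?_⟩
    have h' := congrArg Prod.snd (Sum.inr_injective h)
    simpa using h'
  · intro s g
    have hm : LowTZ k (fun n v => π n (g⁻¹ * s) v ≠ π n g⁻¹ (π n s v)) := hS.mul g⁻¹ s
    refine LowTZ.mono ((hm.or ((hb1 g).comp (fun n => π n s))).or (hb1 (s⁻¹ * g))) ?_
    rintro n v ⟨y, hy⟩
    by_contra hcon
    push Not at hcon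
    obtain ⟨⟨h1, h2⟩, h3⟩ := hcon
    apply hy
    rw [XX_smul]
    have e1 : (s⁻¹ * g)⁻¹ = g⁻¹ * s := by group
    show (Sum.inr (c0 n (π n (rr g)⁻¹ (π n s v)) + p ((rr g)⁻¹ * g), y (π n g⁻¹ (π n s v))) : (Al q t r)) =
      Sum.inr (c0 n (π n (rr (s⁻¹ * g))⁻¹ v) + p ((rr (s⁻¹ * g))⁻¹ * (s⁻¹ * g)), y (π n (s⁻¹ * g)⁻¹ v))
    rw [h2, h3, e1, h1]

end SofQ
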