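import Pool.Agent.helper74.WR.DefsQ

/-! WR-13: upper bound for the entropy by counting nearly constrained configurations. -/

set_option autoImplicit false

open Filter Topology

namespace SofQ

open SofE hiding Al tt sh XX XX_smul MOK near ent_le lower_gen lower2 lower3

variable {Γ : Type} [Group Γ]

theorem ent_le {q t r : ℕ} [NeZero q] {N : Subgroup Γ} {p : Γ → ZMod q} [MetricSpace (XX t r N p)] (hM : MOK t r N p) (hp : ∀ m ∈ N, ∀ n ∈ N, p (m * n) = p m + p n)
    {k : ℕ → ℕ} {π : ∀ n, Γ → Equiv.Perm (Fin (k n))} (hS : IsSofic k π) (h : ℝ) (h0 : 0 ≤ h)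
    (hc : ∀ η : ℝ, 0 < η → ∃ T : Finset Γ, (∀ s ∈ T, s ∈ N) ∧ ∃ δ : ℝ, 0 < δ ∧ ∀ᶠ n in atTop,
      (cnt (fun c : Fin (k n) → (Al q t r) => ∀ s ∈ T, near δ (π n s) (- p s) (fun v => tt (c v))) : ℝ) ≤ Real.exp ((h + η) * k n)) :
    ent (XX t r N p) k π ≤ ((h : ℝ) : EReal) := by
  classical
  refine ent_le_of hS.pos h h0 fun η hη ε hε => ?_
  obtain ⟨W, hW⟩ := hM.near ε hε
  obtain ⟨e1, he1, hsep⟩ := hM.sep 1
  obtain ⟨T, hTN, δ1, hδ1, hev⟩ := hc (η / 2) (by positivity)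
  obtain ⟨θ, hθ, -, hham⟩ := ham (Fintype.card (Option (W → (Al q t r)))) (η := η / 2) (by positivity)
  set t1 : ℝ := min δ1 (θ / (W.card + 1)) with ht
  have ht0 : 0 < t1 := lt_min hδ1 (by positivity)
  have htW : (W.card : ℝ) * t1 ≤ θ := by
    have h1 : t1 ≤ θ / (W.card + 1) := min_le_right _ _
    rw [le_div_iff₀ (by positivity)] at h1
    nlinarith
  refine ⟨T ∪ W.image (fun w => w⁻¹), e1 * Real.sqrt t1, by positivity, ?_⟩
  filter_upwards [hev] with n hn S hS1 hS2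
  have hkn : (0 : ℝ) < k n := by exact_mod_cast hS.pos n
  have hδ : (e1 * Real.sqrt t1) ^ 2 ≤ t1 * e1 ^ 2 := by
    rw [mul_pow, Real.sq_sqrt ht0.le, mul_comm]
  -- nearly equivariant
  have hbad : ∀ φ ∈ S, ∀ s ∈ T ∪ W.image (fun w => w⁻¹),
      (cnt (fun v => (φ (π n s v)).val 1 ≠ (φ v).val s⁻¹) : ℝ) ≤ t1 * k n := by
    intro φ hφ s hs
    have h1 := Upper_bad (hS.pos n) he1 hδ (hS1 φ hφ s hs)
    refine le_trans ?_ h1
    have h2 : cnt (fun v => (φ (π n s v)).val 1 ≠ (φ v).val s⁻¹) ≤ cnt (fun v => e1 ≤ dist (φ (π n s v)) (s • φ v)) := by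
      refine cnt_mono fun v hv => hsep _ _ ?_
      rw [XX_smul, mul_one]
      exact hv
    exact_mod_cast h2
  have hp1 : p 1 = 0 := by
    have := hp 1 N.one_mem 1 N.one_mem
    rw [mul_one] at this
    exact left_eq_add.1 this
  have hpinv : ∀ s ∈ N, p s⁻¹ = - p s := by
    intro s hs
    have h1 := hp s hs s⁻¹ (N.inv_mem hs)
    rw [mul_inv_cancel, hp1] at h1
    have h2 : p s⁻¹ = - p s := by
      rw [eq_neg_iff_add_eq_zero, add_comm]
      exact h1.symm
    exact h2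
  -- data
  let c : (Fin (k n) → XX t r N p) → Fin (k n) → (Al q t r) := fun φ v => (φ v).val 1
  let f : (Fin (k n) → XX t r N p) → Fin (k n) → Option (W → (Al q t r)) := fun φ v =>
    if ∀ w ∈ W, (φ v).val w = c φ (π n w⁻¹ v) then none else some (fun w => (φ v).val w)
  have hcgood : ∀ φ ∈ S, ∀ s ∈ T, near δ1 (π n s) (- p s) (fun v => tt (c φ v)) := by
    intro φ hφ s hs
    unfold near
    rw [Fintype.card_fin]
    have h1 := hbad φ hφ s (Finset.mem_union_left _ hs)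
    have h2 : t1 * (k n : ℝ) ≤ δ1 * k n := mul_le_mul_of_nonneg_right (min_le_left _ _) hkn.le
    refine le_trans ?_ (h1.trans h2)
    have h3 : cnt (fun v => tt (c φ (π n s v)) ≠ sh (- p s) (tt (c φ v))) ≤ cnt (fun v => (φ (π n s v)).val 1 ≠ (φ v).val s⁻¹) := by
      refine cnt_mono fun v hv hcon => hv ?_
      have h4 := (φ v).prop 1 s⁻¹ (N.inv_mem (hTN s hs))
      rw [one_mul, hpinv s (hTN s hs)] at h4
      show tt ((φ (π n s v)).val 1) = _
      rw [hcon, h4]
    exact_mod_cast h3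
  have hfgood : ∀ φ ∈ S, (cnt (fun v => f φ v ≠ none) : ℝ) ≤ θ * Fintype.card (Fin (k n)) := by
    intro φ hφ
    rw [Fintype.card_fin]
    have h1 : cnt (fun v => f φ v ≠ none) ≤ cnt (fun v => ∃ w ∈ W, (φ v).val w ≠ c φ (π n w⁻¹ v)) := by
      refine cnt_mono fun v hv => ?_
      by_contra hcon
      push Not at hcon
      exact hv (if_pos hcon)
    have h2 := h1.trans (cnt_exists_le W (fun w v => (φ v).val w ≠ c φ (π n w⁻¹ v)))
    have h3 : (cnt (fun v => f φ v ≠ none) : ℝ) ≤ ∑ w ∈ W, (cnt (fun v => (φ v).val w ≠ c φ (π n w⁻¹ v)) : ℝ) := by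
      exact_mod_cast h2
    refine h3.trans ?_
    have h4 : ∀ w ∈ W, (cnt (fun v => (φ v).val w ≠ c φ (π n w⁻¹ v)) : ℝ) ≤ t1 * k n := by
      intro w hw
      have h5 := hbad φ hφ w⁻¹ (Finset.mem_union_right _ (Finset.mem_image_of_mem _ hw))
      rw [inv_inv] at h5
      refine le_trans (le_of_eq ?_) h5
      congr 1
      exact cnt_congr fun v => ne_comm
    refine (Finset.sum_le_card_nsmul W _ _ h4).trans ?_
    rw [nsmul_eq_mul, ← mul_assoc]
    exact mul_le_mul_of_nonneg_right htW hkn.le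
  have hinj : ∀ φ ∈ S, ∀ ψ ∈ S, c φ = c ψ → f φ = f ψ → φ = ψ := by
    intro φ hφ ψ hψ h1 h2
    by_contra hne
    obtain ⟨v, hv⟩ := hS2 φ hφ ψ hψ hne
    refine absurd (hW (φ v) (ψ v) fun w hw => ?_) (not_lt.2 hv)
    have h3 : f φ v = f ψ v := congrFun h2 v
    by_cases hA : ∀ w ∈ W, (φ v).val w = c φ (π n w⁻¹ v)
    · by_cases hB : ∀ w ∈ W, (ψ v).val w = c ψ (π n w⁻¹ v)
      · rw [hA w hw, hB w hw, h1]
      · exfalso
        have e1 : f φ v = none := if_pos hA
        have e2 : f ψ v = some (fun w : W => (ψ v).val w) := if_neg hB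
        rw [e1, e2] at h3
        exact Option.some_ne_none _ h3.symm
    · by_cases hB : ∀ w ∈ W, (ψ v).val w = c ψ (π n w⁻¹ v)
      · exfalso
        have e1 : f φ v = some (fun w : W => (φ v).val w) := if_neg hA
        have e2 : f ψ v = none := if_pos hB
        rw [e1, e2] at h3
        exact Option.some_ne_none _ h3
      · have e1 : f φ v = some (fun w : W => (φ v).val w) := if_neg hA
        have e2 : f ψ v = some (fun w : W => (ψ v).val w) := if_neg hB
        rw [e1, e2] at h3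
        exact congrFun (Option.some_injective _ h3) ⟨w, hw⟩
  -- counting
  have hcard : S.card ≤ cnt (fun q : (Fin (k n) → (Al q t r)) × (Fin (k n) → Option (W → (Al q t r))) =>
      (∀ s ∈ T, near δ1 (π n s) (- p s) (fun v => tt (q.1 v))) ∧ (cnt (fun v => q.2 v ≠ none) : ℝ) ≤ θ * Fintype.card (Fin (k n))) := by
    rw [cnt_eq]
    refine Finset.card_le_card_of_injOn (fun φ => (c φ, f φ)) ?_ ?_
    · intro φ hφ
      rw [Finset.mem_coe] at hφ
      rw [Finset.mem_coe, Finset.mem_filter]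
      exact ⟨Finset.mem_univ _, hcgood φ hφ, hfgood φ hφ⟩
    · intro φ hφ ψ hψ heq
      rw [Finset.mem_coe] at hφ hψ
      exact hinj φ hφ ψ hψ (congrArg Prod.fst heq) (congrArg Prod.snd heq)
  have hprod := cnt_prod (fun c : Fin (k n) → (Al q t r) => ∀ s ∈ T, near δ1 (π n s) (- p s) (fun v => tt (c v)))
    (fun f : Fin (k n) → Option (W → (Al q t r)) => (cnt (fun v => f v ≠ none) : ℝ) ≤ θ * Fintype.card (Fin (k n)))
  rw [hprod] at hcard
  have hcard' : (S.card : ℝ) ≤ cnt (fun c : Fin (k n) → (Al q t r) => ∀ s ∈ T, near δ1 (π n s) (- p s) (fun v => tt (c v))) *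
      cnt (fun f : Fin (k n) → Option (W → (Al q t r)) => (cnt (fun v => f v ≠ none) : ℝ) ≤ θ * Fintype.card (Fin (k n))) := by
    exact_mod_cast hcard
  have hh := hham (Fin (k n)) (Option (W → (Al q t r))) none le_rfl
  refine hcard'.trans ((mul_le_mul hn hh (Nat.cast_nonneg _) (Real.exp_pos _).le).trans (le_of_eq ?_))
  rw [← Real.exp_add, Fintype.card_fin]
  congr 1
  ring

end SofQ
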