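import Pool.Agent.helper74.WR.Sig0
import Pool.Agent.helper74.WR.SpaceQ
import Pool.Agent.helper74.WR.UpperQ
import Pool.Agent.helper74.WR.LowerQ

/-! WR-16: a criterion, and wreath products. -/

set_option autoImplicit false

open scoped Classical Pointwise

namespace Pool.Agent.helper74.WR

open SofE hiding Al tt sh XX XX_smul MOK near ent_le lower_gen lower2 lower3
open SofQ Filter Topology

noncomputable section

/-- Few configurations are rarely of type `some z`. -/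
theorem count_types (q t r : ℕ) [NeZero q] [NeZero t] {η : ℝ} (hη : 0 < η) : ∃ θ : ℝ, 0 < θ ∧ ∀ k : ℕ,
    (cnt (fun c : Fin k → Al q t r => (cnt (fun v => tt (c v) ≠ none) : ℝ) ≤ θ * k) : ℝ) ≤ Real.exp ((Real.log t + η) * k) := by
  obtain ⟨θ, hθ, -, hham⟩ := ham (Fintype.card (Option (ZMod q × Fin r))) hη
  refine ⟨θ, hθ, fun k => ?_⟩
  have ht : 0 < t := NeZero.pos t
  let b : (Fin k → Al q t r) → Fin k → Fin t := fun c v => Sum.elim id (fun _ => ⟨0, ht⟩) (c v)
  let f : (Fin k → Al q t r) → Fin k → Option (ZMod q × Fin r) := fun c v => Sum.elim (fun _ => none) some (c v)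
  have hf : ∀ c v, tt (c v) ≠ none ↔ f c v ≠ none := by
    intro c v
    show tt (c v) ≠ none ↔ Sum.elim (fun _ => none) some (c v) ≠ none
    rcases c v with x | x
    · exact ⟨fun h => absurd rfl h, fun h => absurd rfl h⟩
    · exact ⟨fun _ => Option.some_ne_none _, fun _ => Option.some_ne_none _⟩
  have h1 : cnt (fun c : Fin k → Al q t r => (cnt (fun v => tt (c v) ≠ none) : ℝ) ≤ θ * k) ≤
      cnt (fun x : (Fin k → Fin t) × (Fin k → Option (ZMod q × Fin r)) => True ∧ (cnt (fun v => x.2 v ≠ none) : ℝ) ≤ θ * Fintype.card (Fin k)) := by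
    refine cnt_le_of_inj (fun c => (b c, f c)) ?_ ?_
    · intro c c' _ _ h
      have e1 : b c = b c' := congrArg Prod.fst h
      have e2 : f c = f c' := congrArg Prod.snd h
      funext v
      have e1v : Sum.elim id (fun _ => ⟨0, ht⟩) (c v) = Sum.elim id (fun _ => ⟨0, ht⟩) (c' v) := congrFun e1 v
      have e2v : Sum.elim (fun _ => none) some (c v) = (Sum.elim (fun _ => none) some (c' v) : Option (ZMod q × Fin r)) := congrFun e2 v
      rcases hc : c v with x | x <;> rcases hc' : c' v with y | y <;> rw [hc, hc'] at e1v e2v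
      · exact congrArg Sum.inl e1v
      · exact absurd e2v.symm (Option.some_ne_none _)
      · exact absurd e2v (Option.some_ne_none _)
      · exact congrArg Sum.inr (Option.some_injective _ e2v)
    · intro c hc
      refine ⟨trivial, ?_⟩
      rw [Fintype.card_fin, ← cnt_congr (hf c)]
      exact hc
  rw [cnt_prod (fun _ : Fin k → Fin t => True) (fun x : Fin k → Option (ZMod q × Fin r) => (cnt (fun v => x v ≠ none) : ℝ) ≤ θ * Fintype.card (Fin k)),
    cnt_true, Fintype.card_fun, Fintype.card_fin, Fintype.card_fin] at h1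
  have h2 := hham (Fin k) (Option (ZMod q × Fin r)) none le_rfl
  rw [Fintype.card_fin] at h2
  have h3 : (cnt (fun c : Fin k → Al q t r => (cnt (fun v => tt (c v) ≠ none) : ℝ) ≤ θ * k) : ℝ) ≤
      (t : ℝ) ^ k * (cnt (fun x : Fin k → Option (ZMod q × Fin r) => (cnt (fun v => x v ≠ none) : ℝ) ≤ θ * k) : ℝ) := by
    exact_mod_cast h1
  refine h3.trans ?_
  have ht' : (0 : ℝ) < t := by exact_mod_cast ht
  have h4 : (t : ℝ) ^ k = Real.exp (Real.log t * k) := by
    rw [← Real.rpow_natCast, Real.rpow_def_of_pos ht']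
  rw [h4, add_mul, Real.exp_add]
  exact mul_le_mul_of_nonneg_left h2 (Real.exp_pos _).le

/-- The conclusion: two sofic approximations and actions with different entropies. -/
def Concl (G : Type) [Group G] : Prop :=
  ∃ (k : ℕ → ℕ) (π : ∀ n, G → Equiv.Perm (Fin (k n))) (k' : ℕ → ℕ) (π' : ∀ n, G → Equiv.Perm (Fin (k' n))) (q : ℕ), IsSofic k π ∧ IsSofic k' π' ∧
    ∀ t r : ℕ, 1 ≤ t → 1 ≤ r → ∃ (X : Type) (_ : MetricSpace X) (_ : CompactSpace X) (_ : MulAction G X),
      (∀ s : G, Continuous (fun x : X => s • x)) ∧ ent X k π = ((Real.log t : ℝ) : EReal) ∧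
      ((Real.log r : ℝ) : EReal) ≤ ent X k' π' ∧ ent X k' π' ≤ ((Real.log (t + q * r) : ℝ) : EReal)

/-- The criterion. -/
theorem crit {G : Type} [Group G] [Countable G] {q : ℕ} [NeZero q] (N : Subgroup G) (p : G → ZMod q)
    (hp : ∀ m ∈ N, ∀ n ∈ N, p (m * n) = p m + p n) (T : Finset G) (hT : ∀ g ∈ T, g ∈ N) (del : ℝ → ℝ) (hdel : ∀ θ, 0 < θ → 0 < del θ)
    (h0 : ∀ (F : Finset G) (ε : ℝ), 0 < ε → ∀ Θ : Finset ℝ, (∀ θ ∈ Θ, 0 < θ) →
      ∃ (k : ℕ) (π : G → Equiv.Perm (Fin k)), Appr F ε π ∧ ∀ θ ∈ Θ, ∀ τ : Fin k → Option (ZMod q),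
        (∀ g ∈ T, Near (del θ) (π g) (- p g) τ) → (cnt (fun v => τ v ≠ none) : ℝ) ≤ θ * k)
    (h1 : ∀ (F : Finset G) (ε : ℝ), 0 < ε → ∃ (k : ℕ) (π : G → Equiv.Perm (Fin k)), Appr F ε π ∧
      ∃ c0 : Fin k → ZMod q, ∀ g ∈ F, g ∈ N → (cnt (fun v => c0 (π g v) ≠ c0 v - p g) : ℝ) ≤ ε * k) : Concl G := by
  -- the first approximation
  obtain ⟨k, π, F, hF, hS, hQ⟩ := seq_of_fin (Γ := G)
    (fun _ _ j k π => ∀ i : ℕ, i ≤ j → ∀ τ : Fin k → Option (ZMod q),
      (∀ g ∈ T, Near (del (1 / ((i : ℝ) + 1))) (π g) (- p g) τ) → (cnt (fun v => τ v ≠ none) : ℝ) ≤ 1 / ((i : ℝ) + 1) * k) (by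
    intro F ε j hε
    obtain ⟨k, π, h2, h3⟩ := h0 F ε hε ((Finset.range (j + 1)).image (fun i : ℕ => 1 / ((i : ℝ) + 1))) (by
      intro η hη
      rw [Finset.mem_image] at hη
      obtain ⟨i, -, rfl⟩ := hη
      positivity)
    exact ⟨k, π, h2, fun i hi => h3 _ (Finset.mem_image_of_mem _ (Finset.mem_range.2 (by omega)))⟩)
  -- the second approximation
  obtain ⟨k', π', F', hF', hS', hQ'⟩ := seq_of_fin (Γ := G)
    (fun F ε _ k π => ∃ c0 : Fin k → ZMod q, ∀ g ∈ F, g ∈ N → (cnt (fun v => c0 (π g v) ≠ c0 v - p g) : ℝ) ≤ ε * k) (by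
    intro F ε j hε
    exact h1 F ε hε)
  choose c0 hc0 using hQ'
  refine ⟨k, π, k', π', q, hS, hS', fun t r ht hr => ?_⟩
  have : NeZero t := ⟨by omega⟩
  have : NeZero r := ⟨by omega⟩
  obtain ⟨mm, hM⟩ := exists_MOK t r N p
  have hlog : 0 ≤ Real.log t := Real.log_nonneg (by exact_mod_cast ht)
  refine ⟨XX t r N p, mm, hM.comp, inferInstance, hM.cont, ?_, ?_, ?_⟩
  · refine le_antisymm ?_ (lower2 hM hS)
    refine ent_le hM hp hS (Real.log t) hlog ?_
    intro η hη
    obtain ⟨θ, hθ, hcount⟩ := count_types q t r hη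
    obtain ⟨i, hi⟩ := exists_nat_one_div_lt hθ
    refine ⟨T, hT, del (1 / ((i:ℝ) + 1)), hdel _ (by positivity), ?_⟩
    filter_upwards [eventually_ge_atTop i] with n hn
    refine le_trans ?_ (hcount (k n))
    have h2 : cnt (fun c : Fin (k n) → Al q t r => ∀ s ∈ T, near (del (1 / ((i:ℝ) + 1))) (π n s) (- p s) (fun v => tt (c v))) ≤
        cnt (fun c : Fin (k n) → Al q t r => (cnt (fun v => tt (c v) ≠ none) : ℝ) ≤ θ * k n) := by
      refine cnt_mono fun c hc => ?_
      have h3 := hQ n i hn (fun v => tt (c v)) (fun g hg => by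
        have h4 := hc g hg
        unfold near sh at h4
        rw [Fintype.card_fin] at h4
        exact h4)
      exact h3.trans (mul_le_mul_of_nonneg_right hi.le (Nat.cast_nonneg _))
    exact_mod_cast h2
  · refine lower3 hp hM hS' c0 ?_
    intro s hs
    have h1 : ∀ᶠ n in atTop, (cnt (fun v => c0 n (π' n s v) ≠ c0 n v - p s) : ℝ) / (k' n : ℝ) ≤ 1 / ((n:ℝ) + 1) := by
      filter_upwards [hF' s] with n hn
      have h2 := hc0 n s hn hs
      have h3 : (0:ℝ) < k' n := by exact_mod_cast hS'.pos n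
      rw [div_le_iff₀ h3]
      exact h2
    refine tendsto_of_tendsto_of_tendsto_of_le_of_le' tendsto_const_nhds tendsto_one_div_add_atTop_nhds_zero_nat
      (Eventually.of_forall fun n => by positivity) h1
  · have hpos : (1 : ℝ) ≤ t + q * r := by
      have h2 : (1 : ℝ) ≤ t := by exact_mod_cast ht
      have h3 : (0 : ℝ) ≤ q * r := by positivity
      linarith
    refine ent_le hM hp hS' (Real.log (t + q * r)) (Real.log_nonneg hpos) ?_
    intro η hη
    refine ⟨∅, fun s hs => absurd hs (Finset.notMem_empty _), 1, one_pos, Eventually.of_forall fun n => ?_⟩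
    have h1 : (cnt (fun c : Fin (k' n) → Al q t r => ∀ s ∈ (∅ : Finset G), near 1 (π' n s) (- p s) (fun v => tt (c v))) : ℝ) ≤
        ((t : ℝ) + q * r) ^ (k' n) := by
      have h2 := cnt_le_card (fun c : Fin (k' n) → Al q t r => ∀ s ∈ (∅ : Finset G), near 1 (π' n s) (- p s) (fun v => tt (c v)))
      have h3 : Fintype.card (Fin (k' n) → Al q t r) = (t + q * r) ^ (k' n) := by
        rw [Fintype.card_fun, Fintype.card_fin, Fintype.card_sum, Fintype.card_prod, Fintype.card_fin, Fintype.card_fin, ZMod.card]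
      rw [h3] at h2
      exact_mod_cast h2
    refine h1.trans ?_
    have h4 : ((t : ℝ) + q * r) ^ (k' n) = Real.exp (Real.log (t + q * r) * k' n) := by
      rw [← Real.rpow_natCast, Real.rpow_def_of_pos (by linarith)]
    rw [h4]
    refine Real.exp_le_exp.2 (mul_le_mul_of_nonneg_right (by linarith) (Nat.cast_nonneg _))

/-- Wreath products. -/
theorem wreath (A L Δ : Type) [Group A] [Group L] [Group Δ] [Countable A] [Countable L] [Countable Δ] [Nontrivial A]
    (hA : ∃ (k : ℕ → ℕ) (π : ∀ n, A → Equiv.Perm (Fin (k n))), IsSofic k π)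
    (hL : ∃ (k : ℕ → ℕ) (π : ∀ n, L → Equiv.Perm (Fin (k n))), IsSofic k π)
    (hΔ : ∃ (k : ℕ → ℕ) (π : ∀ n, Δ → Equiv.Perm (Fin (k n))), IsSofic k π) (hF : ¬ Folner L) : Concl (RW A L × Δ) := by
  obtain ⟨a, ha⟩ := exists_ne (1 : A)
  -- the prime
  set q := (orderOf a).minFac with hqdef
  have hq : q ∣ orderOf a := Nat.minFac_dvd _
  have hqp : q.Prime := Nat.minFac_prime (fun h => ha (orderOf_eq_one_iff.1 h))
  have : NeZero q := ⟨hqp.ne_zero⟩
  have : Fact (1 < q) := ⟨hqp.one_lt⟩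
  have hq1 : (-1 : ZMod q) ≠ 0 := by
    rw [neg_ne_zero]
    exact one_ne_zero
  -- the expander
  obtain ⟨S0, h0, hx⟩ := exists_exp hF
  obtain ⟨C, hC'⟩ : ∃ C : ℕ, 4 * (S0.card : ℝ) * (2 / 3 : ℝ) ^ C ≤ 1 / 2 := by
    have t1 : Tendsto (fun C : ℕ => 4 * (S0.card : ℝ) * (2 / 3 : ℝ) ^ C) atTop (𝓝 (4 * (S0.card : ℝ) * 0)) :=
      (tendsto_pow_atTop_nhds_zero_of_lt_one (by norm_num) (by norm_num)).const_mul _
    rw [mul_zero] at t1
    obtain ⟨C, hC⟩ := (t1.eventually_lt_const (show (0 : ℝ) < 1 / 2 by norm_num)).exists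
    exact ⟨C, hC.le⟩
  obtain ⟨S1, hS, hS1⟩ := exists_S hx (C : ℝ)
  have hC : ∀ K : Finset L, C * K.card ≤ (S1 * K).card := by
    intro K
    exact_mod_cast hS1 K
  obtain ⟨del, hdel, hsig0⟩ := sig0 (Δ := Δ) hA hL hΔ ha hq hq1 hx hS hC hC'
  refine crit (NN a) (pp a q) (pp_mul hq) (TS S1 a) ?_ del hdel hsig0 fun F ε hε => sig1 hA hL hΔ hq F hε
  intro g hg x
  unfold TS at hg
  rcases Finset.mem_insert.1 hg with rfl | hg
  · rw [gA_left]
    by_cases hx1 : x = 1
    · rw [hx1, Pi.mulSingle_eq_same]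
      exact Subgroup.mem_zpowers a
    · rw [Pi.mulSingle_eq_of_ne hx1]
      exact one_mem _
  · obtain ⟨s, -, rfl⟩ := Finset.mem_image.1 hg
    rw [gS_left]
    exact one_mem _

end

end Pool.Agent.helper74.WR
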