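import Pool.Agent.helper74.WR.Gp

/-! WR-09: functions which count modulo `q` along a cyclic subgroup. -/

set_option autoImplicit false

open scoped Classical Pointwise

namespace Pool.Agent.helper74.WR

open SofE Filter Topology

noncomputable section

/-! ### one permutation -/

/-- Representative of the cycle. -/
def rep {Y : Type} (t : Equiv.Perm Y) (y : Y) : Y := Quotient.out (Quotient.mk (Equiv.Perm.SameCycle.setoid t) y)

theorem rep_same {Y : Type} (t : Equiv.Perm Y) (y : Y) : t.SameCycle (rep t y) y :=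
  @Quotient.exact _ (Equiv.Perm.SameCycle.setoid t) _ _ (Quotient.out_eq _)

theorem rep_eq {Y : Type} {t : Equiv.Perm Y} {y y' : Y} (h : t.SameCycle y y') : rep t y = rep t y' := by
  unfold rep
  rw [@Quotient.sound _ (Equiv.Perm.SameCycle.setoid t) _ _ h]

theorem rep_apply {Y : Type} (t : Equiv.Perm Y) (y : Y) : rep t (t y) = rep t y :=
  (rep_eq ⟨1, by simp⟩).symm

theorem exists_idx {Y : Type} [Finite Y] (t : Equiv.Perm Y) (y : Y) : ∃ i : ℕ, (t ^ i) (rep t y) = y := by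
  obtain ⟨i, -, hi⟩ := (rep_same t y).exists_pow_eq'
  exact ⟨i, hi⟩

/-- Distance from the representative. -/
def idx {Y : Type} [Finite Y] (t : Equiv.Perm Y) (y : Y) : ℕ := Nat.find (exists_idx t y)

theorem idx_spec {Y : Type} [Finite Y] (t : Equiv.Perm Y) (y : Y) : (t ^ (idx t y)) (rep t y) = y := Nat.find_spec (exists_idx t y)

theorem idx_le {Y : Type} [Finite Y] {t : Equiv.Perm Y} {y : Y} {i : ℕ} (h : (t ^ i) (rep t y) = y) : idx t y ≤ i := Nat.find_min' _ h

theorem idx_apply {Y : Type} [Finite Y] {t : Equiv.Perm Y} {y : Y} (h : t y ≠ rep t y) : idx t (t y) = idx t y + 1 := by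
  apply le_antisymm
  · apply idx_le
    rw [rep_apply, pow_succ', Equiv.Perm.mul_apply, idx_spec]
  · have h1 := idx_spec t (t y)
    rw [rep_apply] at h1
    rcases Nat.eq_zero_or_pos (idx t (t y)) with h0 | h0
    · rw [h0, pow_zero, Equiv.Perm.one_apply] at h1
      exact absurd h1.symm h
    · obtain ⟨j, hj⟩ := Nat.exists_eq_succ_of_ne_zero h0.ne'
      rw [hj, Nat.succ_eq_add_one, pow_succ', Equiv.Perm.mul_apply] at h1
      have h2 := idx_le (t.injective h1)
      rw [hj, Nat.succ_eq_add_one]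
      omega

theorem idx_dvd {Y : Type} [Finite Y] {t : Equiv.Perm Y} {y : Y} (h : t y = rep t y) : Function.minimalPeriod t y ∣ idx t y + 1 := by
  apply Function.IsPeriodicPt.minimalPeriod_dvd
  show t^[idx t y + 1] y = y
  rw [← Equiv.Perm.coe_pow, pow_succ, Equiv.Perm.mul_apply, h, idx_spec]

theorem mp_pos {Y : Type} [Finite Y] (t : Equiv.Perm Y) (y : Y) : 0 < Function.minimalPeriod t y := by
  have h : Function.IsPeriodicPt t (orderOf t) y := by
    show t^[orderOf t] y = y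
    rw [← Equiv.Perm.coe_pow, pow_orderOf_eq_one]
    rfl
  exact h.minimalPeriod_pos (orderOf_pos t)

theorem exists_h {Y : Type} [Fintype Y] (t : Equiv.Perm Y) (q : ℕ) (n : ℕ) (hn : 0 < n) : ∃ h : Y → ZMod q,
    pr (fun y => h (t y) ≠ h y + 1) ≤ pr (fun y => Function.minimalPeriod t y < n ∧ ¬ q ∣ Function.minimalPeriod t y) + 1 / n := by
  refine ⟨fun y => (idx t y : ZMod q), ?_⟩
  have h1 : pr (fun y => ((idx t (t y) : ℕ) : ZMod q) ≠ (idx t y : ZMod q) + 1) ≤
      pr (fun y => (Function.minimalPeriod t y < n ∧ ¬ q ∣ Function.minimalPeriod t y) ∨ (t y = rep t y ∧ n ≤ Function.minimalPeriod t y)) := by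
    refine pr_mono fun y hy => ?_
    by_cases h : t y = rep t y
    · rcases lt_or_ge (Function.minimalPeriod t y) n with h2 | h2
      · refine Or.inl ⟨h2, fun hq => hy ?_⟩
        have h3 : idx t (t y) = 0 := by
          apply Nat.le_zero.1
          apply idx_le
          rw [rep_apply, pow_zero, Equiv.Perm.one_apply, h]
        have h4 := hq.trans (idx_dvd h)
        have h5 : (((idx t y + 1 : ℕ)) : ZMod q) = 0 := (ZMod.natCast_eq_zero_iff _ _).2 h4
        rw [h3, Nat.cast_zero]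
        push_cast at h5
        exact h5.symm
      · exact Or.inr ⟨h, h2⟩
    · exfalso
      apply hy
      rw [idx_apply h]
      push_cast
      rfl
  refine h1.trans ((pr_or _ _).trans (add_le_add le_rfl ?_))
  have h2 : cnt (fun q : Y × Fin n => (t q.1 = rep t q.1 ∧ n ≤ Function.minimalPeriod t q.1)) ≤ cnt (fun _ : Y => True) := by
    refine cnt_le_of_inj (fun q => t^[(q.2 : ℕ)] q.1) ?_ (fun _ _ => trivial)
    rintro ⟨y, i⟩ ⟨y', i'⟩ ⟨e1, e2⟩ ⟨e1', e2'⟩ he
    dsimp only at e1 e2 e1' e2' he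
    have hs : t.SameCycle y y' := by
      have a1 : t.SameCycle y (t^[(i : ℕ)] y) := ⟨(i : ℕ), by rw [zpow_natCast, Equiv.Perm.coe_pow]⟩
      have a2 : t.SameCycle y' (t^[(i' : ℕ)] y') := ⟨(i' : ℕ), by rw [zpow_natCast, Equiv.Perm.coe_pow]⟩
      rw [← he] at a2
      exact a1.trans a2.symm
    have hy : y = y' := by
      apply t.injective
      rw [e1, e1', rep_eq hs]
    subst hy
    have hi : (i : ℕ) = i' := (Function.iterate_eq_iterate_iff_of_lt_minimalPeriod (i.2.trans_le e2) (i'.2.trans_le e2)).1 he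
    exact Prod.ext rfl (Fin.ext hi)
  rw [cnt_fst (fun y : Y => t y = rep t y ∧ n ≤ Function.minimalPeriod t y), cnt_true, Fintype.card_fin] at h2
  have h3 : (cnt (fun y : Y => t y = rep t y ∧ n ≤ Function.minimalPeriod t y) : ℝ) * n ≤ Fintype.card Y := by exact_mod_cast h2
  have hn' : (0 : ℝ) < n := by exact_mod_cast hn
  rcases isEmpty_or_nonempty Y with h0 | h0
  · unfold pr
    rw [Fintype.card_eq_zero (α := Y)]
    simp
  · rw [pr_le_iff]
    rw [one_div, inv_mul_eq_div, le_div_iff₀ hn']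
    exact h3

/-! ### sequences -/

theorem pr_fin {k : ℕ} (P : Fin k → Prop) : pr P = (cnt P : ℝ) / k := by
  unfold pr
  rw [Fintype.card_fin]

theorem pr_comp {Y : Type} [Fintype Y] (t : Equiv.Perm Y) (P : Y → Prop) : pr (fun y => P (t y)) = pr P := by
  unfold pr
  rw [cnt_equiv t P]

section
variable {A : Type} [Group A] {k : ℕ → ℕ} {σ : ∀ n, A → Equiv.Perm (Fin (k n))}

theorem IsSofic_shift (h : IsSofic k σ) (n0 : ℕ) : IsSofic (fun n => k (n + n0)) (fun n => σ (n + n0)) :=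
  ⟨fun n => h.pos _, fun s t => (h.mul s t).comp (tendsto_add_atTop_nat n0), fun s hs => (h.free s hs).comp (tendsto_add_atTop_nat n0)⟩

theorem tendsto_mul (h : IsSofic k σ) (s t : A) : Tendsto (fun n => pr (fun i => σ n (s * t) i ≠ σ n s (σ n t i))) atTop (𝓝 0) := by
  simp only [pr_fin]
  exact h.mul s t

theorem tendsto_free (h : IsSofic k σ) {s : A} (hs : s ≠ 1) : Tendsto (fun n => pr (fun i => σ n s i = i)) atTop (𝓝 0) := by
  have h1 := (h.free s hs).const_sub 1
  rw [sub_self] at h1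
  refine h1.congr fun n => ?_
  have hk : (0 : ℝ) < k n := by exact_mod_cast h.pos n
  have h2 := cnt_add_not (fun i => σ n s i = i)
  rw [Fintype.card_fin] at h2
  have h3 : (cnt (fun i => σ n s i = i) : ℝ) + cnt (fun i => ¬ σ n s i = i) = k n := by exact_mod_cast h2
  rw [pr_fin]
  have h4 : (cnt (fun i => σ n s i = i) : ℝ) = k n - cnt (fun i => σ n s i ≠ i) := by
    rw [← h3]
    ring
  rw [h4]
  field_simp

theorem tendsto_sq {P : ∀ n, Fin (k n) → Prop} {f : ℕ → ℝ} (hf : Tendsto f atTop (𝓝 0)) (h : ∀ n, pr (P n) ≤ f n) :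
    Tendsto (fun n => pr (P n)) atTop (𝓝 0) :=
  squeeze_zero (fun n => pr_nonneg _) h hf

/-- Powers. -/
theorem tendsto_pow (h : IsSofic k σ) (h1 : ∀ n, σ n 1 = 1) (a : A) (j : ℕ) :
    Tendsto (fun n => pr (fun i => σ n (a ^ j) i ≠ ((σ n a) ^ j) i)) atTop (𝓝 0) := by
  induction j with
  | zero =>
    refine tendsto_sq tendsto_const_nhds fun n => ?_
    have : pr (fun i : Fin (k n) => σ n (a ^ 0) i ≠ ((σ n a) ^ 0) i) ≤ pr (fun _ : Fin (k n) => False) := by
      refine pr_mono fun i hi => hi ?_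
      rw [pow_zero, pow_zero, h1]
    refine this.trans (le_of_eq ?_)
    unfold pr
    rw [cnt_false]
    simp
  | succ j ih =>
    have h2 := (tendsto_mul h a (a ^ j)).add ih
    rw [add_zero] at h2
    refine tendsto_sq h2 fun n => ?_
    refine le_trans (pr_mono fun i hi => ?_) (pr_or _ _)
    by_contra hcon
    push Not at hcon
    apply hi
    rw [pow_succ', hcon.1, hcon.2, pow_succ', Equiv.Perm.mul_apply]

theorem tendsto_mp (h : IsSofic k σ) (h1 : ∀ n, σ n 1 = 1) {a : A} {q : ℕ} (hq : q ∣ orderOf a) (N : ℕ) :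
    Tendsto (fun n => pr (fun y => Function.minimalPeriod (σ n a) y < N ∧ ¬ q ∣ Function.minimalPeriod (σ n a) y)) atTop (𝓝 0) := by
  set J : Finset ℕ := (Finset.range N).filter (fun j => a ^ j ≠ 1) with hJ
  have h2 : Tendsto (fun n => ∑ j ∈ Finset.range N, pr (fun i => σ n (a ^ j) i ≠ ((σ n a) ^ j) i) + ∑ j ∈ J, pr (fun i => σ n (a ^ j) i = i))
      atTop (𝓝 0) := by
    have e : (0 : ℝ) = ∑ j ∈ Finset.range N, (0 : ℝ) + ∑ j ∈ J, (0 : ℝ) := by simp
    rw [e]
    refine (tendsto_finset_sum _ fun j _ => tendsto_pow h h1 a j).add (tendsto_finset_sum _ fun j hj => ?_)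
    exact tendsto_free h (Finset.mem_filter.1 hj).2
  refine tendsto_sq h2 fun n => ?_
  have h3 : pr (fun y => Function.minimalPeriod (σ n a) y < N ∧ ¬ q ∣ Function.minimalPeriod (σ n a) y) ≤
      pr (fun y => (∃ j ∈ Finset.range N, σ n (a ^ j) y ≠ ((σ n a) ^ j) y) ∨ ∃ j ∈ J, σ n (a ^ j) y = y) := by
    refine pr_mono fun y hy => ?_
    by_contra hcon
    push Not at hcon
    set l := Function.minimalPeriod (σ n a) y with hl
    have e1 : ((σ n a) ^ l) y = y := by
      rw [Equiv.Perm.coe_pow]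
      exact Function.isPeriodicPt_minimalPeriod _ _
    have e2 := hcon.1 l (Finset.mem_range.2 hy.1)
    rw [e1] at e2
    have e3 : a ^ l = 1 := by
      by_contra hne
      exact hcon.2 l (Finset.mem_filter.2 ⟨Finset.mem_range.2 hy.1, hne⟩) e2
    exact hy.2 (hq.trans (orderOf_dvd_of_pow_eq_one e3))
  refine h3.trans ((pr_or _ _).trans (add_le_add ?_ ?_))
  · exact pr_exists _ _
  · exact pr_exists _ _

/-- The functions. -/
theorem exists_hseq (h : IsSofic k σ) (h1 : ∀ n, σ n 1 = 1) {a : A} {q : ℕ} [NeZero q] (hq : q ∣ orderOf a) :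
    ∃ hh : ∀ n, Fin (k n) → ZMod q, ∀ j : ℤ, Tendsto (fun n => pr (fun y => hh n (σ n (a ^ j) y) ≠ hh n y + (j : ZMod q))) atTop (𝓝 0) := by
  have hmin : ∀ n, ∃ h0 : Fin (k n) → ZMod q, ∀ h' : Fin (k n) → ZMod q,
      pr (fun y => h0 (σ n a y) ≠ h0 y + 1) ≤ pr (fun y => h' (σ n a y) ≠ h' y + 1) := fun n =>
    Finite.exists_min (fun h0 : Fin (k n) → ZMod q => pr (fun y => h0 (σ n a y) ≠ h0 y + 1))
  choose hh hhmin using hmin
  refine ⟨hh, ?_⟩
  have t1 : Tendsto (fun n => pr (fun y => hh n (σ n a y) ≠ hh n y + 1)) atTop (𝓝 0) := by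
    rw [Metric.tendsto_nhds]
    intro ε hε
    obtain ⟨N, hN⟩ := exists_nat_one_div_lt (show (0 : ℝ) < ε / 2 by positivity)
    have h2 := (tendsto_mp h h1 hq (N + 1)).eventually_lt_const (show (0 : ℝ) < ε / 2 by positivity)
    filter_upwards [h2] with n hn
    obtain ⟨h', hh'⟩ := exists_h (σ n a) q (N + 1) (Nat.succ_pos N)
    have h3 := (hhmin n h').trans hh'
    push_cast at h3
    rw [Real.dist_eq, sub_zero, abs_of_nonneg (pr_nonneg _)]
    linarith
  have step : ∀ j : ℤ, Tendsto (fun n => pr (fun y => hh n (σ n (a ^ j) y) ≠ hh n y + (j : ZMod q))) atTop (𝓝 0) →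
      Tendsto (fun n => pr (fun y => hh n (σ n (a ^ (j + 1)) y) ≠ hh n y + ((j + 1 : ℤ) : ZMod q))) atTop (𝓝 0) := by
    intro j ih
    have h2 := ((tendsto_mul h a (a ^ j)).add t1).add ih
    rw [add_zero, add_zero] at h2
    refine tendsto_sq h2 fun n => ?_
    have h3 : pr (fun y => hh n (σ n (a ^ (j + 1)) y) ≠ hh n y + ((j + 1 : ℤ) : ZMod q)) ≤
        pr (fun y => (σ n (a * a ^ j) y ≠ σ n a (σ n (a ^ j) y) ∨ hh n (σ n a (σ n (a ^ j) y)) ≠ hh n (σ n (a ^ j) y) + 1) ∨
          hh n (σ n (a ^ j) y) ≠ hh n y + (j : ZMod q)) := by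
      refine pr_mono fun y hy => ?_
      by_contra hcon
      push Not at hcon
      obtain ⟨⟨e1, e2⟩, e3⟩ := hcon
      apply hy
      rw [zpow_add_one, (Commute.zpow_left (Commute.refl a) j).eq, e1, e2, e3]
      push_cast
      ring
    refine h3.trans ((pr_or _ _).trans ?_)
    have h4 := pr_or (fun y => σ n (a * a ^ j) y ≠ σ n a (σ n (a ^ j) y)) (fun y => hh n (σ n a (σ n (a ^ j) y)) ≠ hh n (σ n (a ^ j) y) + 1)
    rw [pr_comp (σ n (a ^ j)) (fun y => hh n (σ n a y) ≠ hh n y + 1)] at h4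
    linarith
  have step' : ∀ j : ℤ, Tendsto (fun n => pr (fun y => hh n (σ n (a ^ j) y) ≠ hh n y + (j : ZMod q))) atTop (𝓝 0) →
      Tendsto (fun n => pr (fun y => hh n (σ n (a ^ (j - 1)) y) ≠ hh n y + ((j - 1 : ℤ) : ZMod q))) atTop (𝓝 0) := by
    intro j ih
    have h2 := ((tendsto_mul h a (a ^ (j - 1))).add t1).add ih
    rw [add_zero, add_zero] at h2
    refine tendsto_sq h2 fun n => ?_
    have h3 : pr (fun y => hh n (σ n (a ^ (j - 1)) y) ≠ hh n y + ((j - 1 : ℤ) : ZMod q)) ≤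
        pr (fun y => (σ n (a * a ^ (j - 1)) y ≠ σ n a (σ n (a ^ (j - 1)) y) ∨
          hh n (σ n a (σ n (a ^ (j - 1)) y)) ≠ hh n (σ n (a ^ (j - 1)) y) + 1) ∨ hh n (σ n (a ^ j) y) ≠ hh n y + (j : ZMod q)) := by
      refine pr_mono fun y hy => ?_
      by_contra hcon
      push Not at hcon
      obtain ⟨⟨e1, e2⟩, e3⟩ := hcon
      apply hy
      have e4 : a * a ^ (j - 1) = a ^ j := by
        rw [← zpow_one_add]
        congr 1
        ring
      rw [e4] at e1
      rw [← e1, e3] at e2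
      push_cast
      rw [eq_sub_of_add_eq e2.symm]
      ring
    refine h3.trans ((pr_or _ _).trans ?_)
    have h4 := pr_or (fun y => σ n (a * a ^ (j - 1)) y ≠ σ n a (σ n (a ^ (j - 1)) y))
      (fun y => hh n (σ n a (σ n (a ^ (j - 1)) y)) ≠ hh n (σ n (a ^ (j - 1)) y) + 1)
    rw [pr_comp (σ n (a ^ (j - 1))) (fun y => hh n (σ n a y) ≠ hh n y + 1)] at h4
    linarith
  intro j
  induction j using Int.induction_on with
  | zero =>
    refine tendsto_sq tendsto_const_nhds fun n => ?_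
    have : pr (fun y : Fin (k n) => hh n (σ n (a ^ (0 : ℤ)) y) ≠ hh n y + ((0 : ℤ) : ZMod q)) ≤ pr (fun _ : Fin (k n) => False) := by
      refine pr_mono fun i hi => hi ?_
      rw [zpow_zero, h1, Int.cast_zero, add_zero]
      rfl
    refine this.trans (le_of_eq ?_)
    unfold pr
    rw [cnt_false]
    simp
  | succ i ih => exact step _ ih
  | pred i ih => exact step' _ ih

end

/-- Approximations of `A` with a counting function. -/
theorem exists_par {A : Type} [Group A] [Countable A] (hA : ∃ (k : ℕ → ℕ) (π : ∀ n, A → Equiv.Perm (Fin (k n))), IsSofic k π) (a : A)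
    {q : ℕ} [NeZero q] (hq : q ∣ orderOf a) (F : Finset A) (J : Finset ℤ) {ε : ℝ} (hε : 0 < ε) :
    ∃ (k : ℕ) (σ : A → Equiv.Perm (Fin k)) (h : Fin k → ZMod q), Appr F ε σ ∧ σ 1 = 1 ∧
      ∀ j ∈ J, pr (fun y => h (σ (a ^ j) y) ≠ h y + (j : ZMod q)) ≤ ε := by
  obtain ⟨k, σ, -, -, hS, h1⟩ := seq_of_fin (Γ := A) (fun _ _ _ k π => π 1 = 1) (by
    intro F ε j hε
    exact exists_norm hA F hε)
  obtain ⟨hh, hhj⟩ := exists_hseq hS h1 hq
  have h2 : ∀ᶠ n in atTop, ∀ j ∈ J, pr (fun y => hh n (σ n (a ^ j) y) ≠ hh n y + (j : ZMod q)) < ε := by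
    rw [eventually_all_finset]
    intro j _
    exact (hhj j).eventually_lt_const hε
  obtain ⟨n0, hn0⟩ := eventually_atTop.1 h2
  obtain ⟨n, hn⟩ := (IsSofic_shift hS n0).appr F hε
  exact ⟨k (n + n0), σ (n + n0), hh (n + n0), hn, h1 _, fun j hj => (hn0 (n + n0) (Nat.le_add_left _ _) j hj).le⟩

end

end Pool.Agent.helper74.WR
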