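import Pool.Agent.helper74.WR.KC
import Pool.Agent.helper74.WR.Coarea
import Pool.Agent.helper74.WR.Four

/-! WR-05: robust invisibility of the parity. -/

set_option autoImplicit false

open scoped Classical Pointwise

namespace Pool.Agent.helper74.WR

open SofE

noncomputable section

theorem ite_inst {α : Type} (P : Prop) (h1 h2 : Decidable P) (x y : α) : @ite α P h1 x y = @ite α P h2 x y := by
  by_cases h : P
  · rw [if_pos h, if_pos h]
  · rw [if_neg h, if_neg h]

theorem filter_inst {α : Type} (P : α → Prop) (h1 h2 : DecidablePred P) (E : Finset α) :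
    @Finset.filter α P h1 E = @Finset.filter α P h2 E := by
  have h : h1 = h2 := Subsingleton.elim h1 h2
  rw [h]

/-! ### values of types -/

variable {q : ℕ} [NeZero q]

/-- The complex number of a type. -/
def Fq : Option (ZMod q) → ℂ
  | none => 0
  | some z => ZMod.stdAddChar z

theorem norm_std (z : ZMod q) : ‖(ZMod.stdAddChar z : ℂ)‖ = 1 := AddChar.norm_apply _ _

theorem norm_Fq (o : Option (ZMod q)) : ‖Fq o‖ ^ 2 = if o ≠ none then 1 else 0 := by
  cases o with
  | none => simp [Fq]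
  | some z => simp [Fq, norm_std]

theorem norm_Fq_le (o : Option (ZMod q)) : ‖Fq o‖ ≤ 1 := by
  cases o with
  | none => simp [Fq]
  | some z => simp [Fq, norm_std]

theorem Fq_map (o : Option (ZMod q)) (u : ZMod q) :
    Fq (o.map (fun w => w + u)) = ZMod.stdAddChar u * Fq o := by
  cases o with
  | none => simp [Fq]
  | some z =>
    show (ZMod.stdAddChar (z + u) : ℂ) = _
    rw [AddChar.map_add_eq_mul, mul_comm]
    rfl

theorem norm_sub_le_four {a b : ℂ} (ha : ‖a‖ ≤ 1) (hb : ‖b‖ ≤ 1) : ‖a - b‖ ^ 2 ≤ 4 := by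
  have h1 : ‖a - b‖ ≤ 2 := (norm_sub_le a b).trans (by linarith)
  have h2 : 0 ≤ ‖a - b‖ := norm_nonneg _
  nlinarith

theorem Fq_diff (o o' : Option (ZMod q)) : ‖Fq o - Fq o'‖ ^ 2 ≤ if o' ≠ o then 4 else 0 := by
  by_cases h : o' = o
  · rw [h]
    simp
  · rw [if_pos h]
    exact norm_sub_le_four (norm_Fq_le _) (norm_Fq_le _)

theorem Fq_diff' (o o' : Option (ZMod q)) (u : ZMod q) :
    ‖Fq o' - ZMod.stdAddChar u * Fq o‖ ^ 2 ≤ if o' ≠ o.map (fun w => w + u) then 4 else 0 := by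
  rw [← Fq_map]
  by_cases h : o' = o.map (fun w => w + u)
  · rw [h]
    simp
  · rw [if_pos h]
    exact norm_sub_le_four (norm_Fq_le _) (norm_Fq_le _)

/-! ### the lamps -/

/-- The lamp at a point acts on the coordinates in `T`. -/
def lampT {D Y : Type} (b : Equiv.Perm Y) (T : Finset D) (m : D → Y) : D → Y :=
  fun i => if i ∈ T then b (m i) else m i

/-- The action of the products of cyclic groups. -/
def cact {D Y : Type} (b : Equiv.Perm Y) (g : D → ZMod (orderOf b)) (m : D → Y) : D → Y :=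
  fun i => (b ^ (g i).val) (m i)

theorem pow_val_add {Y : Type} [Fintype Y] (b : Equiv.Perm Y) (x y : ZMod (orderOf b)) :
    b ^ (x + y).val = b ^ x.val * b ^ y.val := by
  have : NeZero (orderOf b) := ⟨(orderOf_pos b).ne'⟩
  rw [ZMod.val_add, pow_mod_orderOf, pow_add]

theorem cact_act {D Y : Type} [Fintype Y] (b : Equiv.Perm Y) : Act (cact (D := D) b) := by
  constructor
  · intro m
    funext i
    have : NeZero (orderOf b) := ⟨(orderOf_pos b).ne'⟩
    simp [cact]
  · intro g h m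
    funext i
    show (b ^ (g i + h i).val) (m i) = (b ^ (g i).val) ((b ^ (h i).val) (m i))
    rw [pow_val_add, Equiv.Perm.mul_apply]

/-- The element of the product of cyclic groups. -/
def ind {D : Type} {n : ℕ} (T : Finset D) : D → ZMod n := fun i => if i ∈ T then 1 else 0

theorem cact_ind {D Y : Type} [Fintype Y] (b : Equiv.Perm Y) (T : Finset D) (m : D → Y) :
    cact b (ind T) m = lampT b T m := by
  funext i
  have : NeZero (orderOf b) := ⟨(orderOf_pos b).ne'⟩
  unfold cact ind lampT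
  by_cases h : i ∈ T
  · rw [if_pos h, if_pos h, ZMod.val_one_eq_one_mod, pow_mod_orderOf, pow_one]
  · rw [if_neg h, if_neg h, ZMod.val_zero, pow_zero, Equiv.Perm.one_apply]

/-- A pattern of the characters is consistent with the set `T` of coordinates. -/
def Cons {D : Type} (T : Finset D) (β : D → Prop) : Prop :=
  (∀ i, T = {i} → β i) ∧ ∀ i j, i ≠ j → T = {i, j} → ¬ (β i ∧ β j)

theorem ind_single {D : Type} {n : ℕ} (i : D) : (ind {i} : D → ZMod n) = Pi.single i 1 := by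
  funext k
  unfold ind
  by_cases h : k = i
  · subst h
    simp
  · simp [h]

theorem ind_pair {D : Type} {n : ℕ} {i j : D} (hij : i ≠ j) :
    (ind {i, j} : D → ZMod n) = Pi.single i 1 + Pi.single j 1 := by
  funext k
  unfold ind
  by_cases h : k = i
  · subst h
    simp [hij]
  · by_cases h' : k = j
    · subst h'
      simp [h]
    · simp [h, h']

/-- The character is consistent. -/
theorem cons_of {D : Type} {n : ℕ} [Fintype D] [NeZero n] (χ : AddChar (D → ZMod n) ℂ) {z : ℂ} (hz : ‖z‖ = 1) {c : ℝ}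
    (hc : 4 * c ≤ ‖1 - z‖) (hc0 : 0 < c) (T : Finset D) (h : ‖χ (ind T) - z‖ < c) :
    Cons T (fun i => ‖χ (Pi.single i 1) - z‖ < c) := by
  refine ⟨?_, ?_⟩
  · rintro i rfl
    rwa [ind_single] at h
  · rintro i j hij rfl ⟨h1, h2⟩
    rw [ind_pair hij, AddChar.map_add_eq_mul] at h
    set x := χ (Pi.single i 1)
    set y := χ (Pi.single j 1)
    have hx : ‖x‖ = 1 := AddChar.norm_apply _ _
    have e1 : z * (z - 1) = (x * y - z) - ((x - z) * z + x * (y - z)) := by ring
    have e2 : ‖z * (z - 1)‖ = ‖1 - z‖ := by rw [norm_mul, hz, one_mul, norm_sub_rev]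
    have e3 : ‖z * (z - 1)‖ ≤ ‖x * y - z‖ + (‖x - z‖ + ‖y - z‖) := by
      rw [e1]
      refine (norm_sub_le _ _).trans (add_le_add le_rfl ?_)
      refine (norm_add_le _ _).trans (add_le_add ?_ ?_)
      · rw [norm_mul, hz, mul_one]
      · rw [norm_mul, hx, one_mul]
    rw [e2] at e3
    linarith

/-- No long walk has a consistent neighbourhood. -/
def Star {L V D : Type} [Group L] (S0 S1 : Finset L) (d : ℕ) (π : L → Equiv.Perm V) (S : V → Finset D) (v : V) : Prop :=
  ∀ x ∈ walks S0 (d + 1), x.2.card = d + 2 → ∀ β : D → Prop, ¬ ∀ y ∈ S1 * x.2, Cons (S (π y v)) β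

theorem cnt_dbl {M V : Type} [Fintype M] [Fintype V] (P : M × V → Prop) :
    (cnt P : ℝ) = ∑ v, ∑ m, if P (m, v) then (1 : ℝ) else 0 := by
  rw [cnt_prod_right]
  push_cast
  refine Finset.sum_congr rfl fun v _ => ?_
  rw [cnt_sum]
  push_cast
  rfl

theorem sum_sq_le {M V : Type} [Fintype M] [Fintype V] (P : M × V → Prop) (f : V → M → ℝ)
    (h : ∀ v m, f v m ≤ if P (m, v) then 4 else 0) : ∑ v, ∑ m, f v m ≤ 4 * (cnt P : ℝ) := by
  rw [cnt_dbl, Finset.mul_sum]
  refine Finset.sum_le_sum fun v _ => ?_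
  rw [Finset.mul_sum]
  refine Finset.sum_le_sum fun m _ => (h v m).trans (le_of_eq ?_)
  split_ifs <;> ring

theorem ri {L : Type} [Group L] {S0 S1 : Finset L} {h0 : ℝ} (hx : Expander S0 h0) (hS : S0 ⊆ S1) (u : ZMod q) (hu : u ≠ 0)
    {θ : ℝ} (hθ : 0 < θ) : ∃ δ β : ℝ, 0 < δ ∧ 0 < β ∧ ∀ (V D Y : Type) [Fintype V] [Fintype D] [Fintype Y]
      [Fintype (D → Y)] (π : L → Equiv.Perm V) (S : V → Finset D) (b : Equiv.Perm Y) (d : ℕ) (B : Finset L) (Bad : V → Prop),
      S1 * S0 ^ (d + 1) ⊆ B → (∀ v, ¬ Bad v → Gd B π v) → (∀ v, ¬ Bad v → Star S0 S1 d π S v) →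
      (cnt Bad : ℝ) ≤ β * Fintype.card V → ∀ τ : (D → Y) → V → Option (ZMod q),
      (∀ s ∈ S1, (cnt (fun p : (D → Y) × V => τ p.1 (π s p.2) ≠ τ p.1 p.2) : ℝ) ≤
        δ * (Fintype.card (D → Y) * Fintype.card V)) →
      (cnt (fun p : (D → Y) × V => τ (lampT b (S p.2) p.1) p.2 ≠ (τ p.1 p.2).map (fun w => w + u)) : ℝ) ≤
        δ * (Fintype.card (D → Y) * Fintype.card V) →
      (cnt (fun p : (D → Y) × V => τ p.1 p.2 ≠ none) : ℝ) ≤ θ * (Fintype.card (D → Y) * Fintype.card V) := by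
  set ζ : ℂ := ZMod.stdAddChar u with hζdef
  have hζ1 : ‖ζ‖ = 1 := norm_std u
  have hζne : ζ ≠ 1 := by
    intro h
    apply hu
    apply ZMod.injective_stdAddChar
    rw [← hζdef, h, AddChar.map_zero_eq_one]
  set c : ℝ := ‖1 - ζ‖ / 4 with hc
  have hc0 : 0 < c := by
    have : 0 < ‖1 - ζ‖ := norm_pos_iff.2 (sub_ne_zero.2 (Ne.symm hζne))
    positivity
  set A := kcA S0 S1 h0 with hA
  have hA0 : 0 ≤ A := kcA_nonneg hx.pos S0 S1
  set n1 : ℝ := (S1.card : ℝ) with hn1
  have hn10 : 0 ≤ n1 := Nat.cast_nonneg _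
  set κ : ℝ := θ / (4 * (A + 1) * (n1 + 1)) with hκ
  have hκ0 : 0 < κ := by positivity
  refine ⟨min (κ * θ / (16 * (A + 1) * (n1 + 1))) (c ^ 2 * θ / (16 * (A + 1))), θ / (4 * (A + 1)),
    lt_min (by positivity) (by positivity), by positivity, ?_⟩
  intro V D Y _ _ _ _ π S b d B Bad hB hgood hstar hBad τ h1 h2
  set δ : ℝ := min (κ * θ / (16 * (A + 1) * (n1 + 1))) (c ^ 2 * θ / (16 * (A + 1))) with hδ
  have hδ1 : δ ≤ κ * θ / (16 * (A + 1) * (n1 + 1)) := min_le_left _ _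
  have hδ2 : δ ≤ c ^ 2 * θ / (16 * (A + 1)) := min_le_right _ _
  set Z : ℝ := (Fintype.card (D → Y) : ℝ) * Fintype.card V with hZ
  have hZ0 : 0 ≤ Z := by positivity
  have : NeZero (orderOf b) := ⟨(orderOf_pos b).ne'⟩
  have ha := cact_act (D := D) b
  set F : V → (D → Y) → ℂ := fun v m => Fq (τ m v) with hF
  set p : AddChar (D → ZMod (orderOf b)) ℂ × (D → Y) → V → ℝ := fun i v => ‖ftr (cact b) (F v) i.1 i.2‖ ^ 2 with hp
  set C : AddChar (D → ZMod (orderOf b)) ℂ × (D → Y) → V → Prop := fun i v => ‖i.1 (ind (S v)) - ζ‖ < c with hC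
  have hp0 : ∀ i v, 0 ≤ p i v := fun i v => by rw [hp]; positivity
  -- the coarea inequality for every index
  have step1 : ∀ i, ∑ v, p i v ≤ A * (∑ s ∈ S1, ∑ v, max (p i v - p i (π s v)) 0 +
      ∑ v, if C i v ∧ ¬ Bad v then 0 else p i v) := by
    intro i
    rw [Finset.sum_congr rfl fun v (_ : v ∈ Finset.univ) =>
      ite_inst (C i v ∧ ¬ Bad v) _ (Classical.propDecidable (C i v ∧ ¬ Bad v)) (0 : ℝ) (p i v)]
    refine coarea S1 (fun s v => π s v) (fun v => C i v ∧ ¬ Bad v) A hA0 ?_ (Finset.univ.filter (fun v => p i v ≠ 0)).card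
      (p i) (hp0 i) le_rfl
    intro E _
    have h3 := kc hx hS hB (C i) Bad hgood (fun v hv x hx1 hx2 hy => hstar v hv x hx1 hx2
      (fun k => ‖i.1 (Pi.single k 1) - ζ‖ < c) (fun y hy1 => cons_of i.1 hζ1 (by rw [hc]; linarith) hc0 _ (hy y hy1))) E
    rw [filter_inst (fun v => ¬ (C i v ∧ ¬ Bad v)) _ (fun v => Classical.propDecidable _)] at h3 ⊢
    exact h3
  -- sum over the indices
  have step2 := Finset.sum_le_sum fun i (_ : i ∈ Finset.univ) => step1 i
  rw [← Finset.mul_sum, Finset.sum_add_distrib] at step2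
  have hM1 : ∀ v, ∑ m, ‖F v m‖ ^ 2 ≤ Fintype.card (D → Y) := by
    intro v
    have : ∀ m, ‖F v m‖ ^ 2 ≤ 1 := fun m => by
      rw [hF]
      dsimp only
      rw [norm_Fq]
      split_ifs <;> norm_num
    refine (Finset.sum_le_sum fun m _ => this m).trans (le_of_eq ?_)
    simp
  have tot : ∀ v, ∑ i, p i v = ∑ m, ‖F v m‖ ^ 2 := fun v => pars ha (F v)
  have e0 : ∑ i, ∑ v, p i v = (cnt (fun p : (D → Y) × V => τ p.1 p.2 ≠ none) : ℝ) := by
    rw [Finset.sum_comm, cnt_dbl]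
    refine Finset.sum_congr rfl fun v _ => ?_
    rw [tot v]
    refine Finset.sum_congr rfl fun m _ => ?_
    rw [hF]
    dsimp only
    rw [norm_Fq]
    exact ite_inst _ _ _ _ _
  have e1 : ∑ i, ∑ s ∈ S1, ∑ v, max (p i v - p i (π s v)) 0 ≤ n1 * ((κ⁻¹ * (4 * δ) + κ) * Z) := by
    rw [Finset.sum_comm]
    have : ∀ s ∈ S1, ∑ i, ∑ v, max (p i v - p i (π s v)) 0 ≤ (κ⁻¹ * (4 * δ) + κ) * Z := by
      intro s hs
      rw [Finset.sum_comm]
      have h3 : ∀ v, ∑ i, max (p i v - p i (π s v)) 0 ≤ κ⁻¹ * ∑ m, ‖F v m - F (π s v) m‖ ^ 2 + κ * Fintype.card (D → Y) := by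
        intro v
        have h4 := pars_diff ha (F v) (F (π s v)) hκ0
        have h5 : ∑ i, max (p i v - p i (π s v)) 0 ≤ ∑ i : AddChar (D → ZMod (orderOf b)) ℂ × (D → Y),
            |‖ftr (cact b) (F v) i.1 i.2‖ ^ 2 - ‖ftr (cact b) (F (π s v)) i.1 i.2‖ ^ 2| :=
          Finset.sum_le_sum fun i _ => max_le (le_abs_self _) (abs_nonneg _)
        have h6 := hM1 v
        have h7 := hM1 (π s v)
        have h8 : κ / 2 * (∑ m, ‖F v m‖ ^ 2 + ∑ m, ‖F (π s v) m‖ ^ 2) ≤ κ / 2 * (Fintype.card (D → Y) + Fintype.card (D → Y)) :=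
          mul_le_mul_of_nonneg_left (add_le_add h6 h7) (by positivity)
        linarith
      refine (Finset.sum_le_sum fun v _ => h3 v).trans ?_
      rw [Finset.sum_add_distrib, ← Finset.mul_sum, Finset.sum_const, Finset.card_univ, nsmul_eq_mul]
      have h9 : ∑ v, ∑ m, ‖F v m - F (π s v) m‖ ^ 2 ≤ 4 * (cnt (fun p : (D → Y) × V => τ p.1 (π s p.2) ≠ τ p.1 p.2) : ℝ) :=
        sum_sq_le _ _ fun v m => (Fq_diff (τ m v) (τ m (π s v))).trans (le_of_eq (ite_inst _ _ _ _ _))
      have h10 := h1 s hs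
      have h11 : κ⁻¹ * ∑ v, ∑ m, ‖F v m - F (π s v) m‖ ^ 2 ≤ κ⁻¹ * (4 * (δ * Z)) :=
        mul_le_mul_of_nonneg_left (by linarith) (by positivity)
      have h12 : (Fintype.card V : ℝ) * (κ * Fintype.card (D → Y)) = κ * Z := by rw [hZ]; ring
      rw [h12]
      linarith
    refine (Finset.sum_le_sum this).trans (le_of_eq ?_)
    rw [Finset.sum_const, nsmul_eq_mul]
  have e2 : ∑ i, ∑ v, (if C i v ∧ ¬ Bad v then 0 else p i v) ≤ (c ^ 2)⁻¹ * (4 * (δ * Z)) + θ / (4 * (A + 1)) * Z := by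
    have h3 : ∀ i v, (if C i v ∧ ¬ Bad v then 0 else p i v) ≤
        (c ^ 2)⁻¹ * (‖i.1 (ind (S v)) - ζ‖ ^ 2 * p i v) + if Bad v then p i v else 0 := by
      intro i v
      have hpi := hp0 i v
      have h4 : 0 ≤ (c ^ 2)⁻¹ * (‖i.1 (ind (S v)) - ζ‖ ^ 2 * p i v) := by positivity
      by_cases hb : Bad v
      · rw [if_neg (fun h => h.2 hb), if_pos hb]
        linarith
      · rw [if_neg hb, add_zero]
        by_cases hcv : C i v
        · rw [if_pos ⟨hcv, hb⟩]
          exact h4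
        · rw [if_neg (fun h => hcv h.1)]
          have h5 : c ≤ ‖i.1 (ind (S v)) - ζ‖ := not_lt.1 hcv
          have h6 : c ^ 2 ≤ ‖i.1 (ind (S v)) - ζ‖ ^ 2 := pow_le_pow_left₀ hc0.le h5 2
          have h7 : c ^ 2 * p i v ≤ ‖i.1 (ind (S v)) - ζ‖ ^ 2 * p i v := mul_le_mul_of_nonneg_right h6 hpi
          rw [inv_mul_eq_div, le_div_iff₀ (by positivity)]
          linarith
    refine (Finset.sum_le_sum fun i _ => Finset.sum_le_sum fun v _ => h3 i v).trans ?_
    simp only [Finset.sum_add_distrib, ← Finset.mul_sum]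
    refine add_le_add ?_ ?_
    · refine mul_le_mul_of_nonneg_left ?_ (by positivity)
      rw [Finset.sum_comm]
      have h4 : ∀ v, ∑ i, ‖i.1 (ind (S v)) - ζ‖ ^ 2 * p i v = ∑ m, ‖F v (lampT b (S v) m) - ζ * F v m‖ ^ 2 := by
        intro v
        have h5 := pars_shift ha (F v) (ind (S v)) ζ
        simp only [cact_ind] at h5
        exact h5
      rw [Finset.sum_congr rfl fun v _ => h4 v]
      have h5 : ∑ v, ∑ m, ‖F v (lampT b (S v) m) - ζ * F v m‖ ^ 2 ≤
          4 * (cnt (fun p : (D → Y) × V => τ (lampT b (S p.2) p.1) p.2 ≠ (τ p.1 p.2).map (fun w => w + u)) : ℝ) :=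
        sum_sq_le _ _ fun v m => (Fq_diff' (τ m v) (τ (lampT b (S v) m) v) u).trans (le_of_eq (ite_inst _ _ _ _ _))
      linarith
    · rw [Finset.sum_comm]
      have h4 : ∀ v, (∑ i, if Bad v then p i v else 0) ≤ if Bad v then (Fintype.card (D → Y) : ℝ) else 0 := by
        intro v
        by_cases hb : Bad v
        · simp only [hb, if_true]
          rw [tot v]
          exact hM1 v
        · simp [hb]
      refine (Finset.sum_le_sum fun v _ => h4 v).trans ?_
      have h5 : (∑ v, if Bad v then (Fintype.card (D → Y) : ℝ) else 0) = (cnt Bad : ℝ) * Fintype.card (D → Y) := by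
        rw [cnt_sum Bad]
        push_cast
        rw [Finset.sum_mul]
        refine Finset.sum_congr rfl fun v _ => ?_
        split_ifs <;> ring
      rw [h5, hZ]
      have h6 := mul_le_mul_of_nonneg_right hBad (Nat.cast_nonneg (α := ℝ) (Fintype.card (D → Y)))
      linarith
  rw [e0] at step2
  have h3 : A * (n1 * ((κ⁻¹ * (4 * δ) + κ) * Z) + ((c ^ 2)⁻¹ * (4 * (δ * Z)) + θ / (4 * (A + 1)) * Z)) ≤ θ * Z := by
    have b1 : κ⁻¹ * (4 * δ) ≤ θ / (4 * (A + 1) * (n1 + 1)) := by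
      rw [inv_mul_eq_div, div_le_iff₀ hκ0]
      have : θ / (4 * (A + 1) * (n1 + 1)) * κ = 4 * (κ * θ / (16 * (A + 1) * (n1 + 1))) := by
        field_simp
        ring
      rw [this]
      linarith
    have b2 : (c ^ 2)⁻¹ * (4 * δ) ≤ θ / (4 * (A + 1)) := by
      rw [inv_mul_eq_div, div_le_iff₀ (by positivity)]
      have : θ / (4 * (A + 1)) * c ^ 2 = 4 * (c ^ 2 * θ / (16 * (A + 1))) := by
        field_simp
        ring
      rw [this]
      linarith
    have b3 : A * (n1 * (κ⁻¹ * (4 * δ) + κ) + ((c ^ 2)⁻¹ * (4 * δ) + θ / (4 * (A + 1)))) ≤ θ := by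
      have c1 : n1 * (κ⁻¹ * (4 * δ) + κ) ≤ (n1 + 1) * (θ / (4 * (A + 1) * (n1 + 1)) + θ / (4 * (A + 1) * (n1 + 1))) := by
        have : 0 ≤ κ⁻¹ * (4 * δ) + κ := by
          have : 0 ≤ δ := le_min (by positivity) (by positivity)
          positivity
        refine mul_le_mul (by linarith) ?_ this (by linarith)
        rw [hκ]
        rw [hκ] at b1
        linarith
      have c2 : (n1 + 1) * (θ / (4 * (A + 1) * (n1 + 1)) + θ / (4 * (A + 1) * (n1 + 1))) = θ / (2 * (A + 1)) := by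
        field_simp
        ring
      have c3 : n1 * (κ⁻¹ * (4 * δ) + κ) + ((c ^ 2)⁻¹ * (4 * δ) + θ / (4 * (A + 1))) ≤ θ / (A + 1) := by
        have : θ / (A + 1) = θ / (2 * (A + 1)) + (θ / (4 * (A + 1)) + θ / (4 * (A + 1))) := by
          field_simp
          ring
        rw [this]
        linarith
      have c4 : A * (θ / (A + 1)) ≤ θ := by
        rw [mul_div_assoc', div_le_iff₀ (by linarith)]
        nlinarith
      exact (mul_le_mul_of_nonneg_left c3 hA0).trans c4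
    have b4 := mul_le_mul_of_nonneg_right b3 hZ0
    refine le_trans (le_of_eq ?_) b4
    ring
  refine step2.trans (le_trans ?_ h3)
  exact mul_le_mul_of_nonneg_left (add_le_add e1 e2) hA0

end

end Pool.Agent.helper74.WR
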