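import Pool.Agent.helper74.WR.RI

/-! WR-06: the random choice of the sets of coordinates. -/

set_option autoImplicit false

open scoped Classical Pointwise

namespace Pool.Agent.helper74.WR

open SofE

noncomputable section

/-! ### probabilities -/

/-- Probability of `P` for the uniform measure. -/
def pr {α : Type} [Fintype α] (P : α → Prop) : ℝ := (cnt P : ℝ) / Fintype.card α

theorem pr_nonneg {α : Type} [Fintype α] (P : α → Prop) : 0 ≤ pr P := by unfold pr; positivity

theorem pr_mono {α : Type} [Fintype α] {P Q : α → Prop} (h : ∀ a, P a → Q a) : pr P ≤ pr Q := by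
  unfold pr
  have : (cnt P : ℝ) ≤ cnt Q := by exact_mod_cast cnt_mono h
  gcongr

theorem pr_or {α : Type} [Fintype α] (P Q : α → Prop) : pr (fun a => P a ∨ Q a) ≤ pr P + pr Q := by
  unfold pr
  rw [← add_div]
  have : (cnt (fun a => P a ∨ Q a) : ℝ) ≤ cnt P + cnt Q := by exact_mod_cast cnt_or_le P Q
  gcongr

theorem pr_exists {α ι : Type} [Fintype α] (s : Finset ι) (P : ι → α → Prop) :
    pr (fun a => ∃ i ∈ s, P i a) ≤ ∑ i ∈ s, pr (P i) := by
  unfold pr
  rw [← Finset.sum_div]
  have : (cnt (fun a => ∃ i ∈ s, P i a) : ℝ) ≤ ∑ i ∈ s, (cnt (P i) : ℝ) := by exact_mod_cast cnt_exists_le s P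
  gcongr

theorem pr_pi {V Ω : Type} [Fintype V] [Fintype Ω] [Nonempty Ω] (P : Finset V) (Q : V → Ω → Prop) :
    pr (fun r : V → Ω => ∀ u ∈ P, Q u (r u)) = ∏ u ∈ P, pr (Q u) := by
  have h1 : (Finset.univ.filter (fun r : V → Ω => ∀ u ∈ P, Q u (r u))) =
      Fintype.piFinset (fun u => Finset.univ.filter (fun w => u ∈ P → Q u w)) := by
    ext r
    rw [Finset.mem_filter, Fintype.mem_piFinset]
    simp
  have h0 : (Fintype.card Ω : ℝ) ≠ 0 := by
    have := Fintype.card_pos (α := Ω)
    positivity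
  have h2 : (cnt (fun r : V → Ω => ∀ u ∈ P, Q u (r u)) : ℝ) = ∏ u, (cnt (fun w => u ∈ P → Q u w) : ℝ) := by
    rw [cnt_eq, h1, Fintype.card_piFinset]
    push_cast
    refine Finset.prod_congr rfl fun u _ => ?_
    rw [cnt_eq]
  unfold pr
  rw [h2, Fintype.card_fun]
  push_cast
  rw [← Finset.card_univ (α := V), ← Finset.prod_const, ← Finset.prod_div_distrib]
  rw [← Finset.prod_subset (Finset.subset_univ P)]
  · refine Finset.prod_congr rfl fun u hu => ?_
    have : cnt (fun w => u ∈ P → Q u w) = cnt (Q u) := cnt_congr fun w => by simp [hu]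
    rw [this]
  · intro u _ hu
    have : cnt (fun w => u ∈ P → Q u w) = Fintype.card Ω := by
      rw [← cnt_true (α := Ω)]
      exact cnt_congr fun w => by simp [hu]
    rw [this, div_self h0]

/-- There is a good choice. -/
theorem exists_choice {V R : Type} [Fintype V] [Fintype R] [Nonempty R] (Bad : V → R → Prop) {t : ℝ}
    (h : ∀ v, pr (Bad v) ≤ t) : ∃ r, (cnt (fun v => Bad v r) : ℝ) ≤ t * Fintype.card V := by
  have h0 : (0 : ℝ) < Fintype.card R := by
    have := Fintype.card_pos (α := R)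
    positivity
  have h1 : ∑ r : R, (cnt (fun v => Bad v r) : ℝ) ≤ ∑ _r : R, t * Fintype.card V := by
    have h2 : ∑ r : R, (cnt (fun v => Bad v r) : ℝ) = ∑ v : V, (cnt (Bad v) : ℝ) := by
      exact_mod_cast (cnt_comm (fun v r => Bad v r)).symm
    rw [h2, Finset.sum_const, Finset.card_univ, nsmul_eq_mul]
    have h3 : ∀ v ∈ Finset.univ, (cnt (Bad v) : ℝ) ≤ t * Fintype.card R := fun v _ => (div_le_iff₀ h0).1 (h v)
    refine (Finset.sum_le_card_nsmul _ _ _ h3).trans (le_of_eq ?_)
    rw [Finset.card_univ, nsmul_eq_mul]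
    ring
  obtain ⟨r, -, hr⟩ := Finset.exists_le_of_sum_le Finset.univ_nonempty h1
  exact ⟨r, hr⟩

/-! ### the sets -/

/-- The set of coordinates. -/
def TT (d : ℕ) (w : Fin 3 × Fin d × Fin d) : Finset (Fin d ⊕ Fin d) :=
  if w.1 = 0 then {Sum.inl w.2.1} else if w.1 = 1 then {Sum.inr w.2.2} else {Sum.inl w.2.1, Sum.inr w.2.2}

theorem TT_sub {d : ℕ} (w : Fin 3 × Fin d × Fin d) : TT d w ⊆ {Sum.inl w.2.1, Sum.inr w.2.2} := by
  unfold TT
  split_ifs
  · intro x hx
    rw [Finset.mem_singleton] at hx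
    simp [hx]
  · intro x hx
    rw [Finset.mem_singleton] at hx
    simp [hx]
  · exact fun x hx => hx

theorem TT_ne {d : ℕ} (w : Fin 3 × Fin d × Fin d) : (TT d w).Nonempty := by
  unfold TT
  split_ifs
  · exact Finset.singleton_nonempty _
  · exact Finset.singleton_nonempty _
  · exact Finset.insert_nonempty _ _

theorem TT_card {d : ℕ} (w : Fin 3 × Fin d × Fin d) : (TT d w).card ≤ 2 :=
  (Finset.card_le_card (TT_sub w)).trans Finset.card_le_two

theorem TT_dis {d : ℕ} {w w' : Fin 3 × Fin d × Fin d} (h : ¬ Disjoint (TT d w) (TT d w')) :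
    w.2.1 = w'.2.1 ∨ w.2.2 = w'.2.2 := by
  rw [Finset.not_disjoint_iff] at h
  obtain ⟨a, ha, ha'⟩ := h
  have h1 := TT_sub w ha
  have h2 := TT_sub w' ha'
  rw [Finset.mem_insert, Finset.mem_singleton] at h1 h2
  rcases h1 with rfl | rfl
  · rcases h2 with h2 | h2
    · exact Or.inl (Sum.inl_injective h2)
    · exact absurd h2 Sum.inl_ne_inr
  · rcases h2 with h2 | h2
    · exact absurd h2 Sum.inr_ne_inl
    · exact Or.inr (Sum.inr_injective h2)

theorem TT_cons {d : ℕ} (β : Fin d ⊕ Fin d → Prop) (i j : Fin d) (h0 : Cons (TT d (0, i, j)) β) (h1 : Cons (TT d (1, i, j)) β)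
    (h2 : Cons (TT d (2, i, j)) β) : False := by
  have e0 := h0.1 (Sum.inl i) (by simp [TT])
  have e1 := h1.1 (Sum.inr j) (by simp [TT])
  exact h2.2 (Sum.inl i) (Sum.inr j) Sum.inl_ne_inr (by ext k; simp [TT]) ⟨e0, e1⟩

theorem pr_cons {d : ℕ} (hd : 0 < d) (β : Fin d ⊕ Fin d → Prop) : pr (fun w => Cons (TT d w) β) ≤ 2 / 3 := by
  have h1 : cnt (fun w : Fin 3 × Fin d × Fin d => Cons (TT d w) β) ≤ 2 * d ^ 2 := by
    rw [cnt_prod_right]
    have h2 : ∀ x ∈ (Finset.univ : Finset (Fin d × Fin d)), cnt (fun a : Fin 3 => Cons (TT d (a, x)) β) ≤ 2 := by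
      intro x _
      have h3 := cnt_add_not (fun a : Fin 3 => Cons (TT d (a, x)) β)
      have h4 : 0 < cnt (fun a : Fin 3 => ¬ Cons (TT d (a, x)) β) := by
        rw [cnt_pos]
        by_contra hcon
        push Not at hcon
        exact TT_cons β x.1 x.2 (hcon 0) (hcon 1) (hcon 2)
      rw [Fintype.card_fin] at h3
      omega
    refine (Finset.sum_le_card_nsmul _ _ _ h2).trans (le_of_eq ?_)
    rw [Finset.card_univ, Fintype.card_prod, Fintype.card_fin, smul_eq_mul]
    ring
  have h2 : (cnt (fun w : Fin 3 × Fin d × Fin d => Cons (TT d w) β) : ℝ) ≤ 2 * (d : ℝ) ^ 2 := by exact_mod_cast h1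
  have hd' : (0 : ℝ) < d := by exact_mod_cast hd
  unfold pr
  rw [Fintype.card_prod, Fintype.card_prod, Fintype.card_fin, Fintype.card_fin]
  push_cast
  rw [div_le_div_iff₀ (by positivity) (by norm_num)]
  nlinarith

theorem pr_fst {d : ℕ} (hd : 0 < d) (i : Fin d) : pr (fun w : Fin 3 × Fin d × Fin d => w.2.1 = i) = 1 / d := by
  have hd' : (0 : ℝ) < d := by exact_mod_cast hd
  have h1 : cnt (fun w : Fin 3 × Fin d × Fin d => w.2.1 = i) = 3 * d := by
    rw [cnt_snd (fun x : Fin d × Fin d => x.1 = i), cnt_fst (fun x : Fin d => x = i)]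
    have : cnt (fun x : Fin d => x = i) = 1 := by
      rw [cnt_eq]
      exact Finset.card_eq_one.2 ⟨i, by ext; simp⟩
    rw [this, Fintype.card_fin, Fintype.card_fin]
    ring
  unfold pr
  rw [h1, Fintype.card_prod, Fintype.card_prod, Fintype.card_fin, Fintype.card_fin]
  push_cast
  field_simp

theorem pr_snd {d : ℕ} (hd : 0 < d) (i : Fin d) : pr (fun w : Fin 3 × Fin d × Fin d => w.2.2 = i) = 1 / d := by
  have hd' : (0 : ℝ) < d := by exact_mod_cast hd
  have h1 : cnt (fun w : Fin 3 × Fin d × Fin d => w.2.2 = i) = 3 * d := by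
    rw [cnt_snd (fun x : Fin d × Fin d => x.2 = i), cnt_snd (fun x : Fin d => x = i)]
    have : cnt (fun x : Fin d => x = i) = 1 := by
      rw [cnt_eq]
      exact Finset.card_eq_one.2 ⟨i, by ext; simp⟩
    rw [this, Fintype.card_fin, Fintype.card_fin]
    ring
  unfold pr
  rw [h1, Fintype.card_prod, Fintype.card_prod, Fintype.card_fin, Fintype.card_fin]
  push_cast
  field_simp

theorem pr_dis {V : Type} [Fintype V] {d : ℕ} (hd : 0 < d) {u u' : V} (h : u ≠ u') :
    pr (fun r : V → Fin 3 × Fin d × Fin d => ¬ Disjoint (TT d (r u)) (TT d (r u'))) ≤ 2 / d := by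
  have : Nonempty (Fin d) := ⟨⟨0, hd⟩⟩
  have hd' : (0 : ℝ) < d := by exact_mod_cast hd
  have h1 : pr (fun r : V → Fin 3 × Fin d × Fin d => ¬ Disjoint (TT d (r u)) (TT d (r u'))) ≤
      pr (fun r : V → Fin 3 × Fin d × Fin d => (∃ i ∈ (Finset.univ : Finset (Fin d)), ∀ v ∈ ({u, u'} : Finset V), (r v).2.1 = i) ∨
        (∃ i ∈ (Finset.univ : Finset (Fin d)), ∀ v ∈ ({u, u'} : Finset V), (r v).2.2 = i)) := by
    refine pr_mono fun r hr => ?_
    rcases TT_dis hr with h | h
    · refine Or.inl ⟨_, Finset.mem_univ (r u).2.1, fun v hv => ?_⟩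
      rw [Finset.mem_insert, Finset.mem_singleton] at hv
      rcases hv with rfl | rfl
      · rfl
      · exact h.symm
    · refine Or.inr ⟨_, Finset.mem_univ (r u).2.2, fun v hv => ?_⟩
      rw [Finset.mem_insert, Finset.mem_singleton] at hv
      rcases hv with rfl | rfl
      · rfl
      · exact h.symm
  refine h1.trans ((pr_or _ _).trans ?_)
  have h2 : (2 : ℝ) / d = ∑ _i : Fin d, (1 / (d : ℝ)) ^ 2 + ∑ _i : Fin d, (1 / (d : ℝ)) ^ 2 := by
    rw [Finset.sum_const, Finset.card_univ, Fintype.card_fin, nsmul_eq_mul]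
    field_simp
    ring
  rw [h2]
  refine add_le_add ?_ ?_
  · refine (pr_exists _ _).trans (Finset.sum_le_sum fun i _ => le_of_eq ?_)
    rw [pr_pi ({u, u'} : Finset V) (fun (_ : V) (w : Fin 3 × Fin d × Fin d) => w.2.1 = i), Finset.prod_congr rfl fun v _ => pr_fst hd i, Finset.prod_const,
      Finset.card_pair h]
  · refine (pr_exists _ _).trans (Finset.sum_le_sum fun i _ => le_of_eq ?_)
    rw [pr_pi ({u, u'} : Finset V) (fun (_ : V) (w : Fin 3 × Fin d × Fin d) => w.2.2 = i), Finset.prod_congr rfl fun v _ => pr_snd hd i, Finset.prod_const,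
      Finset.card_pair h]

theorem walks_sub {L : Type} [Group L] {S0 : Finset L} (h1 : (1 : L) ∈ S0) (k : ℕ) : ∀ x ∈ walks S0 k, x.1 ∈ S0 ^ k ∧ x.2 ⊆ S0 ^ k := by
  induction k with
  | zero =>
    intro x hx
    rw [walks, Finset.mem_singleton] at hx
    subst hx
    simp
  | succ k ih =>
    intro x hx
    rw [walks, Finset.mem_image] at hx
    obtain ⟨⟨s, y⟩, hy, rfl⟩ := hx
    rw [Finset.mem_product] at hy
    obtain ⟨h2, h3⟩ := ih y hy.2
    have h4 : s * y.1 ∈ S0 ^ (k + 1) := by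
      rw [pow_succ']
      exact Finset.mul_mem_mul hy.1 h2
    refine ⟨h4, ?_⟩
    intro z hz
    rcases Finset.mem_insert.1 hz with rfl | hz
    · exact h4
    · exact Finset.pow_subset_pow_right h1 (Nat.le_succ k) (h3 hz)

/-- The sets of coordinates of a good point are disjoint. -/
def Disj {L V D : Type} (U : Finset L) (π : L → Equiv.Perm V) (S : V → Finset D) (v : V) : Prop :=
  ∀ x ∈ U, ∀ y ∈ U, x ≠ y → Disjoint (S (π x v)) (S (π y v))

theorem exists_rand {L : Type} [Group L] {S0 S1 : Finset L} (h1 : (1 : L) ∈ S0) {C : ℕ} (hC : ∀ K : Finset L, C * K.card ≤ (S1 * K).card)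
    (hC' : 4 * (S0.card : ℝ) * (2 / 3 : ℝ) ^ C ≤ 1 / 2) {U B : Finset L} {d : ℕ} (hd : 0 < d) (hB : S1 * S0 ^ (d + 1) ⊆ B) (hU : U ⊆ B)
    {V : Type} [Fintype V] (π : L → Equiv.Perm V) : ∃ S : V → Finset (Fin d ⊕ Fin d), (∀ v, (S v).Nonempty) ∧ (∀ v, (S v).card ≤ 2) ∧
      (cnt (fun v => Gd B π v ∧ ¬ (Star S0 S1 d π S v ∧ Disj U π S v)) : ℝ) ≤
        ((1 / 2) ^ d + (U.card : ℝ) ^ 2 * (2 / d)) * Fintype.card V := by
  have : Nonempty (Fin d) := ⟨⟨0, hd⟩⟩
  have hd' : (0 : ℝ) < d := by exact_mod_cast hd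
  have key : ∀ v, pr (fun r : V → Fin 3 × Fin d × Fin d => Gd B π v ∧ ¬ (Star S0 S1 d π (fun v => TT d (r v)) v ∧
      Disj U π (fun v => TT d (r v)) v)) ≤ (1 / 2) ^ d + (U.card : ℝ) ^ 2 * (2 / d) := by
    intro v
    by_cases hv : Gd B π v
    · have h2 : pr (fun r : V → Fin 3 × Fin d × Fin d => Gd B π v ∧ ¬ (Star S0 S1 d π (fun v => TT d (r v)) v ∧
          Disj U π (fun v => TT d (r v)) v)) ≤
          pr (fun r : V → Fin 3 × Fin d × Fin d =>
            (∃ x ∈ (walks S0 (d + 1)).filter (fun x => x.2.card = d + 2), ∃ β ∈ (Finset.univ : Finset (Finset (Fin d ⊕ Fin d))),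
              ∀ u ∈ (S1 * x.2).image (fun y => π y v), Cons (TT d (r u)) (fun i => i ∈ β)) ∨
            (∃ x ∈ (U ×ˢ U).filter (fun x => x.1 ≠ x.2), ¬ Disjoint (TT d (r (π x.1 v))) (TT d (r (π x.2 v))))) := by
        refine pr_mono fun r hr => ?_
        rcases not_and_or.1 hr.2 with h | h
        · left
          unfold Star at h
          push Not at h
          obtain ⟨x, hx, hx2, β, hβ⟩ := h
          refine ⟨x, Finset.mem_filter.2 ⟨hx, hx2⟩, Finset.univ.filter (fun i => β i), Finset.mem_univ _, ?_⟩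
          intro u hu
          rw [Finset.mem_image] at hu
          obtain ⟨y, hy, rfl⟩ := hu
          have := hβ y hy
          simpa using this
        · right
          unfold Disj at h
          push Not at h
          obtain ⟨x, hx, y, hy, hxy, h⟩ := h
          exact ⟨(x, y), Finset.mem_filter.2 ⟨Finset.mem_product.2 ⟨hx, hy⟩, hxy⟩, h⟩
      refine h2.trans ((pr_or _ _).trans (add_le_add ?_ ?_))
      · -- walks
        have h3 : ∀ x ∈ (walks S0 (d + 1)).filter (fun x => x.2.card = d + 2), ∀ β : Finset (Fin d ⊕ Fin d),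
            pr (fun r : V → Fin 3 × Fin d × Fin d => ∀ u ∈ (S1 * x.2).image (fun y => π y v), Cons (TT d (r u)) (fun i => i ∈ β)) ≤
              (2 / 3 : ℝ) ^ (C * (d + 2)) := by
          intro x hx β
          rw [Finset.mem_filter] at hx
          have hxB : S1 * x.2 ⊆ B := (Finset.mul_subset_mul_left (walks_sub h1 _ x hx.1).2).trans hB
          rw [pr_pi _ (fun _ w => Cons (TT d w) (fun i => i ∈ β)), Finset.prod_const]
          have h4 : ((S1 * x.2).image (fun y => π y v)).card = (S1 * x.2).card :=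
            Finset.card_image_of_injOn fun y hy z hz hyz => hv.inj y (hxB hy) z (hxB hz) hyz
          rw [h4]
          refine (pow_le_pow_left₀ (pr_nonneg _) (pr_cons hd _) _).trans ?_
          refine pow_le_pow_of_le_one (by norm_num) (by norm_num) ?_
          have := hC x.2
          rwa [hx.2] at this
        refine (pr_exists _ _).trans ?_
        have h4 : ∀ x ∈ (walks S0 (d + 1)).filter (fun x => x.2.card = d + 2),
            pr (fun r : V → Fin 3 × Fin d × Fin d => ∃ β ∈ (Finset.univ : Finset (Finset (Fin d ⊕ Fin d))),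
              ∀ u ∈ (S1 * x.2).image (fun y => π y v), Cons (TT d (r u)) (fun i => i ∈ β)) ≤
              4 ^ d * (2 / 3 : ℝ) ^ (C * (d + 2)) := by
          intro x hx
          refine (pr_exists _ _).trans ?_
          refine (Finset.sum_le_card_nsmul _ _ _ fun β _ => h3 x hx β).trans (le_of_eq ?_)
          rw [nsmul_eq_mul, Finset.card_univ, Fintype.card_finset, Fintype.card_sum, Fintype.card_fin]
          push_cast
          rw [← two_mul, pow_mul]
          norm_num
        refine (Finset.sum_le_card_nsmul _ _ _ h4).trans ?_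
        rw [nsmul_eq_mul]
        have h5 : (((walks S0 (d + 1)).filter (fun x => x.2.card = d + 2)).card : ℝ) ≤ (S0.card : ℝ) ^ (d + 1) := by
          exact_mod_cast (Finset.card_filter_le _ _).trans (card_walks S0 (d + 1))
        have hs : (1 : ℝ) ≤ S0.card := by
          have : 0 < S0.card := Finset.card_pos.2 ⟨1, h1⟩
          exact_mod_cast this
        calc (((walks S0 (d + 1)).filter (fun x => x.2.card = d + 2)).card : ℝ) * (4 ^ d * (2 / 3 : ℝ) ^ (C * (d + 2)))
            ≤ (S0.card : ℝ) ^ (d + 2) * (4 ^ (d + 2) * (2 / 3 : ℝ) ^ (C * (d + 2))) := by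
              have e1 : (S0.card : ℝ) ^ (d + 1) ≤ (S0.card : ℝ) ^ (d + 2) := pow_le_pow_right₀ hs (by omega)
              have e2 : (4 : ℝ) ^ d ≤ 4 ^ (d + 2) := pow_le_pow_right₀ (by norm_num) (by omega)
              exact mul_le_mul (h5.trans e1) (mul_le_mul_of_nonneg_right e2 (by positivity)) (by positivity) (by positivity)
          _ = (4 * (S0.card : ℝ) * (2 / 3 : ℝ) ^ C) ^ (d + 2) := by
              rw [mul_pow, mul_pow, ← pow_mul]
              ring
          _ ≤ (1 / 2) ^ (d + 2) := pow_le_pow_left₀ (by positivity) hC' _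
          _ ≤ (1 / 2) ^ d := pow_le_pow_of_le_one (by norm_num) (by norm_num) (by omega)
      · refine (pr_exists _ _).trans ?_
        have h4 : ∀ x ∈ (U ×ˢ U).filter (fun x => x.1 ≠ x.2),
            pr (fun r : V → Fin 3 × Fin d × Fin d => ¬ Disjoint (TT d (r (π x.1 v))) (TT d (r (π x.2 v)))) ≤ 2 / d := by
          intro x hx
          rw [Finset.mem_filter, Finset.mem_product] at hx
          exact pr_dis hd fun h => hx.2 (hv.inj _ (hU hx.1.1) _ (hU hx.1.2) h)
        refine (Finset.sum_le_card_nsmul _ _ _ h4).trans ?_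
        rw [nsmul_eq_mul]
        refine mul_le_mul_of_nonneg_right ?_ (by positivity)
        have : ((U ×ˢ U).filter (fun x => x.1 ≠ x.2)).card ≤ U.card ^ 2 := by
          refine (Finset.card_filter_le _ _).trans (le_of_eq ?_)
          rw [Finset.card_product, sq]
        exact_mod_cast this
    · have h2 : pr (fun r : V → Fin 3 × Fin d × Fin d => Gd B π v ∧ ¬ (Star S0 S1 d π (fun v => TT d (r v)) v ∧
          Disj U π (fun v => TT d (r v)) v)) = 0 := by
        unfold pr
        have : cnt (fun r : V → Fin 3 × Fin d × Fin d => Gd B π v ∧ ¬ (Star S0 S1 d π (fun v => TT d (r v)) v ∧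
          Disj U π (fun v => TT d (r v)) v)) = 0 := cnt_eq_zero.2 fun r hr => hv hr.1
        rw [this]
        simp
      rw [h2]
      positivity
  obtain ⟨r, hr⟩ := exists_choice (fun v (r : V → Fin 3 × Fin d × Fin d) => Gd B π v ∧ ¬ (Star S0 S1 d π (fun v => TT d (r v)) v ∧
      Disj U π (fun v => TT d (r v)) v)) key
  exact ⟨fun v => TT d (r v), fun v => TT_ne _, fun v => TT_card _, hr⟩

end

end Pool.Agent.helper74.WR
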