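import Pool.Agent.helper74.WR.Sig1

/-! WR-15: the first sofic approximation: the parity is invisible. -/

set_option autoImplicit false

open scoped Classical Pointwise

namespace Pool.Agent.helper74.WR

open SofE Filter Topology

noncomputable section

variable {A L Δ : Type} [Group A] [Group L] [Group Δ]

/-- An element of `L`. -/
def gS (s : L) : RW A L × Δ := (⟨RegularWreathProduct.inl s, (RW A L).one_mem⟩, 1)

/-- The lamp `a` at `1`. -/
def gA (a : A) : RW A L × Δ := (⟨⟨Pi.mulSingle 1 a, 1⟩, (Set.finite_singleton 1).subset (Pi.mulSupport_mulSingle_subset)⟩, 1)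

theorem gS_left (s x : L) : (gS s : RW A L × Δ).1.1.left x = 1 := rfl

theorem gS_right (s : L) : (gS s : RW A L × Δ).1.1.right = s := rfl

theorem gA_left (a : A) (x : L) : (gA a : RW A L × Δ).1.1.left x = (Pi.mulSingle 1 a : L → A) x := rfl

theorem gA_right (a : A) : (gA a : RW A L × Δ).1.1.right = 1 := rfl

theorem pp_gS {a : A} {q : ℕ} (hq : q ∣ orderOf a) (s : L) : pp a q (gS s : RW A L × Δ) = 0 := by
  unfold pp
  rw [finsum_congr (fun x => by rw [gS_left, th_one hq] : ∀ x, th a q ((gS s : RW A L × Δ).1.1.left x) = 0)]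
  exact finsum_zero

theorem pp_gA {a : A} {q : ℕ} (hq : q ∣ orderOf a) : pp a q (gA a : RW A L × Δ) = 1 := by
  unfold pp
  rw [finsum_eq_single _ (1 : L)]
  · rw [gA_left, Pi.mulSingle_eq_same, th_self hq]
  · intro x hx
    rw [gA_left, Pi.mulSingle_eq_of_ne hx, th_one hq]

theorem act_gS {V K Y D : Type} {σ : A → Equiv.Perm Y} {π : L → Equiv.Perm V} {S : V → Finset D} {ρ : Δ → Equiv.Perm K} (hσ1 : σ 1 = 1)
    (hρ1 : ρ 1 = 1) (s : L) (m : D → Y) (v : V) (k : K) : act σ π S ρ (gS s) (m, (v, k)) = (m, (π s v, k)) := by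
  rw [act_apply]
  refine Prod.ext ?_ (Prod.ext rfl ?_)
  · funext i
    show σ (gi π S (gS s : RW A L × Δ).1.1.left (π (gS s : RW A L × Δ).1.1.right v) i) (m i) = m i
    rw [gi_one (fun x hx => absurd (gS_left s x) hx), hσ1]
    rfl
  · show ρ 1 k = k
    rw [hρ1]
    rfl

theorem act_gA {V K Y D : Type} {σ : A → Equiv.Perm Y} {π : L → Equiv.Perm V} {S : V → Finset D} {ρ : Δ → Equiv.Perm K} (hσ1 : σ 1 = 1)
    (hπ1 : π 1 = 1) (hρ1 : ρ 1 = 1) {a : A} (ha : a ≠ 1) (m : D → Y) (v : V) (k : K) :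
    act σ π S ρ (gA a) (m, (v, k)) = (lampT (σ a) (S v) m, (v, k)) := by
  rw [act_apply]
  have h1 : π 1 v = v := by rw [hπ1]; rfl
  refine Prod.ext ?_ (Prod.ext h1 ?_)
  · funext i
    show σ (gi π S (gA a : RW A L × Δ).1.1.left (π 1 v) i) (m i) = lampT (σ a) (S v) m i
    rw [h1]
    have h2 : ∀ x, (gA a : RW A L × Δ).1.1.left x ≠ 1 → x = 1 := by
      intro x hx
      by_contra hne
      exact hx (Pi.mulSingle_eq_of_ne hne _)
    unfold lampT
    by_cases hi : i ∈ S v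
    · rw [if_pos hi]
      have h3 : gi π S (gA a : RW A L × Δ).1.1.left v i = (gA a : RW A L × Δ).1.1.left 1 := by
        refine gi_of ?_ ?_ ?_
        · rw [gA_left, Pi.mulSingle_eq_same]
          exact ha
        · rw [inv_one, h1]
          exact hi
        · exact fun y hy _ => h2 y hy
      rw [h3, gA_left, Pi.mulSingle_eq_same]
    · rw [if_neg hi, gi_one, hσ1]
      · rfl
      · intro x hx
        rw [h2 x hx, inv_one, h1]
        exact hi
  · show ρ 1 k = k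
    rw [hρ1]
    rfl

/-- The elements which are used for the upper bound. -/
def TS (S1 : Finset L) (a : A) : Finset (RW A L × Δ) := insert (gA a) (S1.image gS)

/-- The condition on the types. -/
def Near {q : ℕ} {k : ℕ} (δ : ℝ) (A : Equiv.Perm (Fin k)) (z : ZMod q) (c : Fin k → Option (ZMod q)) : Prop :=
  (cnt (fun v => c (A v) ≠ (c v).map (fun w => w + z)) : ℝ) ≤ δ * k

theorem exists_lower (Θ : Finset ℝ) (f : ℝ → ℝ) (hf : ∀ θ ∈ Θ, 0 < f θ) {ε : ℝ} (hε : 0 < ε) : ∃ b : ℝ, 0 < b ∧ b ≤ ε ∧ ∀ θ ∈ Θ, b ≤ f θ := by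
  induction Θ using Finset.induction_on with
  | empty => exact ⟨ε, hε, le_rfl, fun θ hθ => absurd hθ (Finset.notMem_empty _)⟩
  | insert x s hx ih =>
    obtain ⟨b, hb0, hb1, hb2⟩ := ih fun θ hθ => hf θ (Finset.mem_insert_of_mem hθ)
    refine ⟨min b (f x), lt_min hb0 (hf x (Finset.mem_insert_self _ _)), (min_le_left _ _).trans hb1, ?_⟩
    intro θ hθ
    rcases Finset.mem_insert.1 hθ with rfl | hθ
    · exact min_le_right _ _
    · exact (min_le_left _ _).trans (hb2 θ hθ)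

/-- The first approximation. -/
theorem sig0 (hA : ∃ (k : ℕ → ℕ) (π : ∀ n, A → Equiv.Perm (Fin (k n))), IsSofic k π)
    (hL : ∃ (k : ℕ → ℕ) (π : ∀ n, L → Equiv.Perm (Fin (k n))), IsSofic k π)
    (hΔ : ∃ (k : ℕ → ℕ) (π : ∀ n, Δ → Equiv.Perm (Fin (k n))), IsSofic k π) {a : A} (ha : a ≠ 1) {q : ℕ} [NeZero q]
    (hq : q ∣ orderOf a) (hq1 : (-1 : ZMod q) ≠ 0) {S0 S1 : Finset L} {h0 : ℝ} (hx : Expander S0 h0) (hS : S0 ⊆ S1) {C : ℕ}
    (hC : ∀ K : Finset L, C * K.card ≤ (S1 * K).card) (hC' : 4 * (S0.card : ℝ) * (2 / 3 : ℝ) ^ C ≤ 1 / 2) :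
    ∃ del : ℝ → ℝ, (∀ θ, 0 < θ → 0 < del θ) ∧ ∀ (F : Finset (RW A L × Δ)) (ε : ℝ), 0 < ε → ∀ Θ : Finset ℝ, (∀ θ ∈ Θ, 0 < θ) →
      ∃ (k : ℕ) (π : RW A L × Δ → Equiv.Perm (Fin k)), Appr F ε π ∧ ∀ θ ∈ Θ, ∀ τ : Fin k → Option (ZMod q),
        (∀ g ∈ (TS S1 a : Finset (RW A L × Δ)), Near (del θ) (π g) (- pp a q g) τ) → (cnt (fun v => τ v ≠ none) : ℝ) ≤ θ * k := by
  have hri := fun (θ : ℝ) (hθ : 0 < θ) => ri hx hS (-1 : ZMod q) hq1 hθ
  choose δ β hδ hβ hri using hri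
  refine ⟨fun θ => if h : 0 < θ then δ θ h else 1, fun θ hθ => by dsimp only; rw [dif_pos hθ]; exact hδ θ hθ, ?_⟩
  intro F ε hε Θ hΘ
  obtain ⟨b, hb0, hb1, hb2⟩ := exists_lower Θ (fun θ => if h : 0 < θ then β θ h else 1) (fun θ hθ => by
    rw [dif_pos (hΘ θ hθ)]; exact hβ θ (hΘ θ hθ)) (show (0 : ℝ) < ε / 4 by positivity)
  set U := winU (F ∪ F * F) with hU
  set B1 := winB (F ∪ F * F) with hB1
  have hUB : U ⊆ B1 := winU_sub _
  obtain ⟨d, B, kV, π, S, hd0, hkV, hπ1, hBB, hB, hS1, hS2, hbad⟩ := exists_good hL hx.one hC hC' hUB hb0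
  obtain ⟨kK, ρ, hρ, hρ1⟩ := exists_norm hΔ (F.image Prod.snd) (show (0 : ℝ) < ε / 4 by positivity)
  obtain ⟨kY, σ, hσ, hσ1⟩ := exists_norm hA (vals F) (show (0 : ℝ) < ε / (8 * (U.card + 1)) by positivity)
  have hneV : Nonempty (Fin kV) := Fin.pos_iff_nonempty.1 hkV
  have hneK := hρ.ne
  have hneY := hσ.ne
  have hbad' : (cnt (fun v => ¬ (Gd B π v ∧ Disj U π S v)) : ℝ) ≤ ε / 4 * Fintype.card (Fin kV) := by
    have h1 : (cnt (fun v => ¬ (Gd B π v ∧ Disj U π S v)) : ℝ) ≤ cnt (fun v => ¬ (Gd B π v ∧ Star S0 S1 d π S v ∧ Disj U π S v)) := by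
      exact_mod_cast cnt_mono (P := fun v => ¬ (Gd B π v ∧ Disj U π S v)) (Q := fun v => ¬ (Gd B π v ∧ Star S0 S1 d π S v ∧ Disj U π S v))
        fun v hv h => hv ⟨h.1, h.2.2⟩
    rw [Fintype.card_fin]
    exact h1.trans (hbad.trans (mul_le_mul_of_nonneg_right hb1 (Nat.cast_nonneg _)))
  have happ : Appr F ε (act σ π S ρ) := appr_act F hε σ π S ρ hσ1 (B := B) hBB hσ hρ hS1 hS2 hbad'
  set W := ((Fin d ⊕ Fin d) → Fin kY) × (Fin kV × Fin kK) with hW
  set e : W ≃ Fin (Fintype.card W) := Fintype.equivFin W with he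
  refine ⟨Fintype.card W, fun g => e.permCongr (act σ π S ρ g), happ.transport e, ?_⟩
  intro θ hθ τ hτ
  have hθ0 := hΘ θ hθ
  have hW1 : (Fintype.card W : ℝ) = Fintype.card ((Fin d ⊕ Fin d) → Fin kY) * Fintype.card (Fin kV × Fin kK) := by
    exact_mod_cast Fintype.card_prod ((Fin d ⊕ Fin d) → Fin kY) (Fin kV × Fin kK)
  have hnear : ∀ (g : RW A L × Δ), g ∈ (TS S1 a : Finset (RW A L × Δ)) →
      (cnt (fun w : W => τ (e (act σ π S ρ g w)) ≠ (τ (e w)).map (fun x => x + (- pp a q g))) : ℝ) ≤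
        δ θ hθ0 * (Fintype.card ((Fin d ⊕ Fin d) → Fin kY) * Fintype.card (Fin kV × Fin kK)) := by
    intro g hg
    have h1 := hτ g hg
    unfold Near at h1
    dsimp only at h1
    rw [dif_pos hθ0, hW1] at h1
    refine le_trans (le_of_eq ?_) h1
    have h2 : cnt (fun v : Fin (Fintype.card W) => τ (e.permCongr (act σ π S ρ g) v) ≠ (τ v).map (fun x => x + (- pp a q g))) =
        cnt (fun w : W => τ (e (act σ π S ρ g w)) ≠ (τ (e w)).map (fun x => x + (- pp a q g))) := by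
      rw [← cnt_equiv e]
      refine cnt_congr fun w => ?_
      rw [Equiv.permCongr_apply, Equiv.symm_apply_apply]
    rw [h2]
  have key := hri θ hθ0 (Fin kV × Fin kK) (Fin d ⊕ Fin d) (Fin kY) (fun s => Equiv.prodCongr (π s) 1) (fun v => S v.1) (σ a) d B
    (fun v => ¬ (Gd B π v.1 ∧ Star S0 S1 d π S v.1 ∧ Disj U π S v.1)) hB ?_ ?_ ?_ (fun m v => τ (e (m, v))) ?_ ?_
  · rw [← hW1] at key
    refine le_trans (le_of_eq ?_) key
    have h2 : cnt (fun v : Fin (Fintype.card W) => τ v ≠ none) = cnt (fun w : W => τ (e w) ≠ none) := (cnt_equiv e _).symm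
    rw [h2]
  · rintro ⟨v, k⟩ hv
    have hg : Gd B π v := (not_not.1 hv).1
    refine ⟨Prod.ext hg.one rfl, fun s hs t ht => Prod.ext (hg.mul s hs t ht) rfl, fun s hs t ht h => hg.inj s hs t ht (congrArg Prod.fst h)⟩
  · rintro ⟨v, k⟩ hv
    exact (not_not.1 hv).2.1
  · rw [cnt_fst (fun v : Fin kV => ¬ (Gd B π v ∧ Star S0 S1 d π S v ∧ Disj U π S v)), Fintype.card_prod, Fintype.card_fin, Fintype.card_fin]
    push_cast
    have h1 := hb2 θ hθ
    rw [dif_pos hθ0] at h1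
    have h2 : (cnt (fun v => ¬ (Gd B π v ∧ Star S0 S1 d π S v ∧ Disj U π S v)) : ℝ) ≤ β θ hθ0 * kV :=
      hbad.trans (mul_le_mul_of_nonneg_right h1 (Nat.cast_nonneg _))
    rw [← mul_assoc]
    exact mul_le_mul_of_nonneg_right h2 (Nat.cast_nonneg _)
  · intro s hs
    have h1 := hnear (gS s) (Finset.mem_insert_of_mem (Finset.mem_image_of_mem _ hs))
    refine le_trans (le_of_eq ?_) h1
    have h2 : cnt (fun p : ((Fin d ⊕ Fin d) → Fin kY) × (Fin kV × Fin kK) => τ (e (p.1, (Equiv.prodCongr (π s) 1) p.2)) ≠ τ (e (p.1, p.2))) =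
        cnt (fun w : W => τ (e (act σ π S ρ (gS s) w)) ≠ (τ (e w)).map (fun x => x + (- pp a q (gS s : RW A L × Δ)))) := by
      refine cnt_congr fun w => ?_
      obtain ⟨m, v, k⟩ := w
      rw [act_gS hσ1 hρ1, pp_gS hq]
      have h3 : (τ (e (m, (v, k)))).map (fun x => x + (-0)) = τ (e (m, (v, k))) := by
        simp only [neg_zero, add_zero]
        exact Option.map_id'
      rw [h3]
      rfl
    rw [h2]
  · have h1 := hnear (gA a) (Finset.mem_insert_self _ _)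
    refine le_trans (le_of_eq ?_) h1
    have h2 : cnt (fun p : ((Fin d ⊕ Fin d) → Fin kY) × (Fin kV × Fin kK) => τ (e (lampT (σ a) (S p.2.1) p.1, p.2)) ≠
        (τ (e (p.1, p.2))).map (fun w => w + (-1))) =
        cnt (fun w : W => τ (e (act σ π S ρ (gA a) w)) ≠ (τ (e w)).map (fun x => x + (- pp a q (gA a : RW A L × Δ)))) := by
      refine cnt_congr fun w => ?_
      obtain ⟨m, v, k⟩ := w
      rw [act_gA hσ1 hπ1 hρ1 ha, pp_gA hq]
    rw [h2]

end

end Pool.Agent.helper74.WR
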