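import Pool.Agent.helper74.WR.Par

/-! WR-10: the second sofic approximation: the parity exists. -/

set_option autoImplicit false

open scoped Classical Pointwise

namespace Pool.Agent.helper74.WR

open SofE Filter Topology

noncomputable section

variable {A L Δ : Type} [Group A] [Group L] [Group Δ]

/-! ### the homomorphism -/

/-- The exponent of a power of `a`, modulo `q`. -/
def th (a : A) (q : ℕ) (x : A) : ZMod q := if h : ∃ j : ℤ, a ^ j = x then (h.choose : ZMod q) else 0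

theorem th_pow {a : A} {q : ℕ} (hq : q ∣ orderOf a) (j : ℤ) : th a q (a ^ j) = (j : ZMod q) := by
  have h : ∃ i : ℤ, a ^ i = a ^ j := ⟨j, rfl⟩
  unfold th
  rw [dif_pos h]
  have h1 := h.choose_spec
  rw [eq_comm, ZMod.intCast_eq_intCast_iff_dvd_sub]
  have h2 : a ^ (h.choose - j) = 1 := by rw [zpow_sub, h1, mul_inv_cancel]
  have h3 := orderOf_dvd_iff_zpow_eq_one.2 h2
  exact (Int.natCast_dvd_natCast.2 hq).trans h3

theorem th_one {a : A} {q : ℕ} (hq : q ∣ orderOf a) : th a q 1 = 0 := by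
  have := th_pow hq 0
  rwa [zpow_zero, Int.cast_zero] at this

theorem th_self {a : A} {q : ℕ} (hq : q ∣ orderOf a) : th a q a = 1 := by
  have := th_pow hq 1
  rwa [zpow_one, Int.cast_one] at this

theorem th_mul {a : A} {q : ℕ} (hq : q ∣ orderOf a) {x y : A} (hx : x ∈ Subgroup.zpowers a) (hy : y ∈ Subgroup.zpowers a) :
    th a q (x * y) = th a q x + th a q y := by
  obtain ⟨i, rfl⟩ := hx
  obtain ⟨j, rfl⟩ := hy
  simp only
  rw [← zpow_add, th_pow hq, th_pow hq, th_pow hq]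
  push_cast
  rfl

/-- The subgroup. -/
def NN (a : A) : Subgroup (RW A L × Δ) where
  carrier := {g | ∀ x, g.1.1.left x ∈ Subgroup.zpowers a}
  one_mem' := fun _ => (Subgroup.zpowers a).one_mem
  mul_mem' := fun {g g'} hg hg' x => (Subgroup.zpowers a).mul_mem (hg x) (hg' _)
  inv_mem' := fun {g} hg x => (Subgroup.zpowers a).inv_mem (hg _)

/-- The homomorphism. -/
def pp (a : A) (q : ℕ) (g : RW A L × Δ) : ZMod q := ∑ᶠ x, th a q (g.1.1.left x)

theorem pp_fin {a : A} {q : ℕ} (hq : q ∣ orderOf a) (g : RW A L × Δ) : (Function.support (fun x => th a q (g.1.1.left x))).Finite := by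
  refine (RW_fin g.1).subset fun x hx => ?_
  rw [Function.mem_mulSupport]
  intro h
  apply hx
  show th a q (g.1.1.left x) = 0
  rw [h, th_one hq]

theorem pp_mul {a : A} {q : ℕ} (hq : q ∣ orderOf a) : ∀ g ∈ (NN a : Subgroup (RW A L × Δ)), ∀ g' ∈ (NN a : Subgroup (RW A L × Δ)),
    pp a q (g * g') = pp a q g + pp a q g' := by
  intro g hg g' hg'
  have h1 : ∀ x, th a q ((g * g').1.1.left x) = th a q (g.1.1.left x) + th a q (g'.1.1.left (g.1.1.right⁻¹ * x)) := fun x =>
    th_mul hq (hg x) (hg' _)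
  have h2 : ∑ᶠ x, th a q (g'.1.1.left (g.1.1.right⁻¹ * x)) = pp a q g' :=
    finsum_comp_equiv (Equiv.mulLeft g.1.1.right⁻¹) (f := fun x => th a q (g'.1.1.left x))
  have h3 : (Function.support (fun x => th a q (g'.1.1.left (g.1.1.right⁻¹ * x)))).Finite := by
    have : (fun x => th a q (g'.1.1.left (g.1.1.right⁻¹ * x))) = (fun x => th a q (g'.1.1.left x)) ∘ (Equiv.mulLeft g.1.1.right⁻¹) := rfl
    rw [this, Function.support_comp_eq_preimage]
    exact (pp_fin hq g').preimage (Equiv.injective _).injOn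
  unfold pp at h2 ⊢
  rw [finsum_congr h1, finsum_add_distrib (pp_fin hq g) h3, h2]

/-! ### the parity of a point -/

/-- The change of the parity at a good point. -/
theorem par_good {q : ℕ} {kY kV kK : ℕ} {a : A} (hq : q ∣ orderOf a) {B U : Finset L} {σ : A → Equiv.Perm (Fin kY)} {π : L → Equiv.Perm (Fin kV)}
    {ρ : Δ → Equiv.Perm (Fin kK)} (hσ1 : σ 1 = 1) (h : Fin kY → ZMod q) {g : RW A L × Δ} {v : Fin kV} {k : Fin kK} {m : Fin kV → Fin kY}
    (hv : Gd B π v) (hUB : U ⊆ B) (hl : g.1.1.right ∈ B) (h1 : ∀ x, g.1.1.left x ≠ 1 → x⁻¹ ∈ B ∧ x⁻¹ * g.1.1.right ∈ U)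
    (hm : ∀ z ∈ U, h (σ (g.1.1.left (g.1.1.right * z⁻¹)) (m (π z v))) = h (m (π z v)) + th a q (g.1.1.left (g.1.1.right * z⁻¹))) :
    ∑ i, h ((act σ π (fun v => ({v} : Finset (Fin kV))) ρ g (m, (v, k))).1 i) = ∑ i, h (m i) + pp a q g := by
  set S : Fin kV → Finset (Fin kV) := fun v => {v} with hS
  have hd : Disj U π S v := by
    intro x hx y hy hxy
    rw [hS]
    simp only [Finset.disjoint_singleton]
    exact fun h => hxy (hv.inj _ (hUB hx) _ (hUB hy) h)
  set G : Fin kV → A := fun i => gi π S g.1.1.left (π g.1.1.right v) i with hG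
  have h2 : ∀ i, h (σ (G i) (m i)) = h (m i) + th a q (G i) := by
    intro i
    by_cases hi : ∃ z ∈ U, i ∈ S (π z v)
    · obtain ⟨z, hz, hiz⟩ := hi
      have h3 : G i = g.1.1.left (g.1.1.right * z⁻¹) := gi_good hv hd hl h1 z hz i hiz
      have h4 : i = π z v := Finset.mem_singleton.1 hiz
      rw [h3, h4]
      exact hm z hz
    · push Not at hi
      have h3 : G i = 1 := gi_good' hv hl h1 hi
      rw [h3, hσ1, th_one hq, add_zero]
      rfl
  have h3 : ∑ i, h ((act σ π S ρ g (m, (v, k))).1 i) = ∑ i, (h (m i) + th a q (G i)) := Finset.sum_congr rfl fun i _ => h2 i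
  rw [h3, Finset.sum_add_distrib]
  congr 1
  -- the sum of the exponents
  set X := (RW_fin g.1).toFinset with hX
  have h4 : pp a q g = ∑ x ∈ X, th a q (g.1.1.left x) := by
    refine finsum_eq_sum_of_support_subset _ fun x hx => ?_
    rw [hX, Set.Finite.coe_toFinset, Function.mem_mulSupport]
    intro h
    apply hx
    show th a q (g.1.1.left x) = 0
    rw [h, th_one hq]
  have hXx : ∀ x ∈ X, g.1.1.left x ≠ 1 := fun x hx => (Set.Finite.mem_toFinset _).1 hx
  rw [h4]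
  have h5 : ∑ i ∈ X.image (fun x => π (x⁻¹ * g.1.1.right) v), th a q (G i) = ∑ x ∈ X, th a q (g.1.1.left x) := by
    rw [Finset.sum_image]
    · refine Finset.sum_congr rfl fun x hx => ?_
      have h6 : G (π (x⁻¹ * g.1.1.right) v) = g.1.1.left (g.1.1.right * (x⁻¹ * g.1.1.right)⁻¹) :=
        gi_good hv hd hl h1 _ (h1 x (hXx x hx)).2 _ (Finset.mem_singleton_self _)
      have h7 : g.1.1.right * (x⁻¹ * g.1.1.right)⁻¹ = x := by group
      rw [h6, h7]
    · intro x hx y hy hxy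
      have h6 := hv.inj _ (hUB (h1 x (hXx x hx)).2) _ (hUB (h1 y (hXx y hy)).2) hxy
      exact inv_injective (mul_right_cancel h6)
  rw [← h5]
  symm
  apply Finset.sum_subset (Finset.subset_univ _)
  intro i _ hi
  have h6 : G i = 1 := by
    refine gi_one fun x hx hix => hi ?_
    rw [Finset.mem_image]
    refine ⟨x, (Set.Finite.mem_toFinset _).2 hx, ?_⟩
    have h7 : i = π x⁻¹ (π g.1.1.right v) := Finset.mem_singleton.1 hix
    rw [h7, hv.mul _ (h1 x hx).1 _ hl]
  rw [h6, th_one hq]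

/-- The second approximation. -/
theorem sig1 [Countable A] (hA : ∃ (k : ℕ → ℕ) (π : ∀ n, A → Equiv.Perm (Fin (k n))), IsSofic k π)
    (hL : ∃ (k : ℕ → ℕ) (π : ∀ n, L → Equiv.Perm (Fin (k n))), IsSofic k π)
    (hΔ : ∃ (k : ℕ → ℕ) (π : ∀ n, Δ → Equiv.Perm (Fin (k n))), IsSofic k π) {a : A} {q : ℕ} [NeZero q] (hq : q ∣ orderOf a)
    (F : Finset (RW A L × Δ)) {ε : ℝ} (hε : 0 < ε) : ∃ (k : ℕ) (π : RW A L × Δ → Equiv.Perm (Fin k)), Appr F ε π ∧
      ∃ c0 : Fin k → ZMod q, ∀ g ∈ F, g ∈ NN a → (cnt (fun v => c0 (π g v) ≠ c0 v - pp a q g) : ℝ) ≤ ε * k := by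
  set U := winU (F ∪ F * F) with hU
  set B := winB (F ∪ F * F) with hB
  have hUB : U ⊆ B := winU_sub _
  obtain ⟨FL, εL, hεL, hgd⟩ := gd_of_appr B (show (0 : ℝ) < ε / 4 by positivity)
  obtain ⟨kV, π, hπ, hπ1⟩ := exists_norm hL FL hεL
  have hgd' := hgd (Fin kV) π hπ hπ1
  obtain ⟨kK, ρ, hρ, -⟩ := exists_norm hΔ (F.image Prod.snd) (show (0 : ℝ) < ε / 4 by positivity)
  have hexp : ∀ x : A, ∃ j : ℤ, x ∈ Subgroup.zpowers a → a ^ j = x := by
    intro x
    by_cases hx : x ∈ Subgroup.zpowers a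
    · obtain ⟨j, hj⟩ := hx
      exact ⟨j, fun _ => hj⟩
    · exact ⟨0, fun h => absurd h hx⟩
  choose ex hex using hexp
  set εA : ℝ := ε / (8 * (U.card + 1)) with hεA
  have hεA0 : 0 < εA := by positivity
  have hεA1 : (U.card : ℝ) * εA ≤ ε / 4 := by
    have : (U.card : ℝ) * εA = ε / 8 * (U.card / (U.card + 1)) := by
      rw [hεA]
      field_simp
    rw [this]
    have h2 : (U.card : ℝ) / (U.card + 1) ≤ 1 := by
      rw [div_le_one (by positivity)]
      linarith
    nlinarith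
  obtain ⟨kY, σ, h, hσ, hσ1, hh⟩ := exists_par hA a hq (vals F) ((vals F).image ex) hεA0
  have hneV := hπ.ne
  have hneK := hρ.ne
  have hneY := hσ.ne
  set S : Fin kV → Finset (Fin kV) := fun v => {v} with hS
  have hdisj : ∀ v, Gd B π v → Disj U π S v := by
    intro v hv x hx y hy hxy
    rw [hS]
    simp only [Finset.disjoint_singleton]
    exact fun h => hxy (hv.inj _ (hUB hx) _ (hUB hy) h)
  have hbad : (cnt (fun v => ¬ (Gd B π v ∧ Disj U π S v)) : ℝ) ≤ ε / 4 * Fintype.card (Fin kV) := by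
    refine le_trans ?_ hgd'
    exact_mod_cast cnt_mono (P := fun v => ¬ (Gd B π v ∧ Disj U π S v)) (Q := fun v => ¬ Gd B π v) fun v hv h => hv ⟨h, hdisj v h⟩
  have happ : Appr F ε (act σ π S ρ) := appr_act F hε σ π S ρ hσ1 (B := B) (fun _ h => h) hσ hρ
    (fun v => Finset.singleton_nonempty v) (fun v => by rw [hS]; simp) hbad
  set W := (Fin kV → Fin kY) × (Fin kV × Fin kK) with hW
  set e : W ≃ Fin (Fintype.card W) := Fintype.equivFin W with he
  set c1 : W → ZMod q := fun w => - ∑ i, h (w.1 i) with hc1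
  refine ⟨Fintype.card W, fun g => e.permCongr (act σ π S ρ g), happ.transport e, fun i => c1 (e.symm i), ?_⟩
  intro g hg hgN
  have hgF : g ∈ F ∪ F * F := Finset.mem_union_left _ hg
  have hl : g.1.1.right ∈ rts (F ∪ F * F) := mem_rts hgF
  have e1 : cnt (fun v : Fin (Fintype.card W) => c1 (e.symm (e.permCongr (act σ π S ρ g) v)) ≠ c1 (e.symm v) - pp a q g) =
      cnt (fun w : W => c1 (act σ π S ρ g w) ≠ c1 w - pp a q g) := by
    rw [← cnt_equiv e]
    refine cnt_congr fun w => ?_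
    rw [Equiv.permCongr_apply, Equiv.symm_apply_apply, Equiv.symm_apply_apply]
  rw [e1, ← pr_le_iff]
  have h1 : pr (fun w : W => c1 (act σ π S ρ g w) ≠ c1 w - pp a q g) ≤ pr (fun w : W => ¬ Gd B π w.2.1 ∨
      ∃ z ∈ U, h (σ (g.1.1.left (g.1.1.right * z⁻¹)) (w.1 (π z w.2.1))) ≠ h (w.1 (π z w.2.1)) + th a q (g.1.1.left (g.1.1.right * z⁻¹))) := by
    refine pr_mono fun w hw => ?_
    obtain ⟨m, v, k⟩ := w
    by_contra hcon
    push Not at hcon
    obtain ⟨hv, hm⟩ := hcon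
    apply hw
    have h2 := par_good (ρ := ρ) (k := k) hq hσ1 h hv hUB (rts_winB hl) (fun x hx => win_left hgF hx hl) hm
    show - ∑ i, h ((act σ π S ρ g (m, (v, k))).1 i) = - (∑ i, h (m i)) - pp a q g
    rw [h2]
    ring
  refine h1.trans ((pr_or _ _).trans ?_)
  have h2 : pr (fun w : W => ¬ Gd B π w.2.1) ≤ ε / 4 :=
    pr_le_fst (by positivity) fun m => pr_le_snd (by positivity) fun k => pr_le_iff.2 hgd'
  have h3 : pr (fun w : W => ∃ z ∈ U, h (σ (g.1.1.left (g.1.1.right * z⁻¹)) (w.1 (π z w.2.1))) ≠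
      h (w.1 (π z w.2.1)) + th a q (g.1.1.left (g.1.1.right * z⁻¹))) ≤ ε / 4 := by
    refine pr_le_snd (by positivity) fun e => le_trans ?_ hεA1
    refine (pr_exists U (fun z (m : Fin kV → Fin kY) => h (σ (g.1.1.left (g.1.1.right * z⁻¹)) (m (π z e.1))) ≠
      h (m (π z e.1)) + th a q (g.1.1.left (g.1.1.right * z⁻¹)))).trans ?_
    rw [← nsmul_eq_mul]
    refine Finset.sum_le_card_nsmul _ _ _ fun z _ => ?_
    set x := g.1.1.left (g.1.1.right * z⁻¹) with hx
    have h4 := pr_coord (D := Fin kV) (fun y => h (σ x y) ≠ h y + th a q x) (π z e.1)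
    refine (le_of_eq h4).trans ?_
    have h5 := hex x (hgN _)
    have h6 := hh (ex x) (Finset.mem_image_of_mem _ (mem_vals hg _))
    rw [h5] at h6
    have h7 : th a q x = (ex x : ZMod q) := by
      rw [← h5, th_pow hq, h5]
    rw [h7]
    exact h6
  linarith

end

end Pool.Agent.helper74.WR
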